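import Pool.Agent.H518R5.SC.Stubs

set_option autoImplicit false

namespace Pool.Agent.H518R5.SC

open Pool.Agent.H467F Pool.Agent.H518R4.UG
open Finset

/-- Dirichlet sum -/
noncomputable def ARC_D (M : ℕ) (x : ℝ) : ℂ :=
  ∑ k ∈ range M, Complex.exp ((k : ℂ) * (x : ℂ) * Complex.I)

theorem ARC_sq (M : ℕ) (x : ℝ) : ((‖ARC_D M x‖ ^ 2 : ℝ) : ℂ) =
    ∑ k ∈ range M, ∑ k' ∈ range M,
      Complex.exp ((((k : ℤ) - (k' : ℤ) : ℤ) : ℂ) * (x : ℂ) * Complex.I) := by
  rw [Complex.ofReal_pow, ← Complex.mul_conj', ARC_D, map_sum, Finset.sum_mul_sum]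
  refine Finset.sum_congr rfl fun k _ => Finset.sum_congr rfl fun k' _ => ?_
  rw [← Complex.exp_conj, ← Complex.exp_add]
  congr 1
  simp only [map_mul, Complex.conj_ofReal, Complex.conj_I, map_natCast]
  push_cast
  ring

theorem ARC_orth (M : ℕ) (d : ℤ) (hd : d ≠ 0) (hdM : |d| < M) :
    ∑ j ∈ range M, Complex.exp (-((d : ℂ) * (2 * Real.pi * j / M) * Complex.I)) = 0 := by
  have hM : (0 : ℤ) < M := lt_of_le_of_lt (abs_nonneg d) hdM
  have hMc : (M : ℂ) ≠ 0 := by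
    have : M ≠ 0 := by omega
    exact_mod_cast this
  set ρ : ℂ := Complex.exp (-((d : ℂ) * (2 * Real.pi / M) * Complex.I)) with hρ
  have h1 : ∀ j : ℕ, Complex.exp (-((d : ℂ) * (2 * Real.pi * j / M) * Complex.I)) = ρ ^ j := by
    intro j
    rw [hρ, ← Complex.exp_nat_mul]
    congr 1
    ring
  have h2 : ρ ^ M = 1 := by
    rw [hρ, ← Complex.exp_nat_mul, Complex.exp_eq_one_iff]
    refine ⟨-d, ?_⟩
    push_cast
    field_simp
  have h3 : ρ ≠ 1 := by
    intro h
    rw [hρ, Complex.exp_eq_one_iff] at h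
    obtain ⟨m, hm⟩ := h
    have hpi : (Real.pi : ℂ) ≠ 0 := by exact_mod_cast Real.pi_ne_zero
    have hI := Complex.I_ne_zero
    have h4 : (2 * (Real.pi : ℂ) * Complex.I) * (-(d : ℂ)) =
        (2 * (Real.pi : ℂ) * Complex.I) * (m * M) := by
      have h5 : (M : ℂ) * (-((d : ℂ) * (2 * Real.pi / M) * Complex.I)) =
          M * (m * (2 * Real.pi * Complex.I)) := by rw [hm]
      have h6 : (M : ℂ) * (-((d : ℂ) * (2 * Real.pi / M) * Complex.I)) =
          (2 * (Real.pi : ℂ) * Complex.I) * (-(d : ℂ)) := by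
        field_simp
      rw [← h6, h5]; ring
    have h7 : (-(d : ℂ)) = m * M :=
      mul_left_cancel₀ (mul_ne_zero (mul_ne_zero two_ne_zero hpi) hI) h4
    have h8 : -d = m * M := by exact_mod_cast h7
    have h9 : (M : ℤ) ∣ d := by
      rw [← dvd_neg, h8]; exact dvd_mul_left _ _
    exact hd (Int.eq_zero_of_abs_lt_dvd h9 hdM)
  simp only [h1]
  have h10 := geom_sum_mul ρ M
  rw [h2, sub_self] at h10
  exact (mul_eq_zero.mp h10).resolve_right (sub_ne_zero.mpr h3)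

theorem ARC_parseval (M : ℕ) (x : ℝ) :
    ∑ j ∈ range M, ‖ARC_D M (x - 2 * Real.pi * j / M)‖ ^ 2 = (M : ℝ) ^ 2 := by
  have key : ((∑ j ∈ range M, ‖ARC_D M (x - 2 * Real.pi * j / M)‖ ^ 2 : ℝ) : ℂ) =
      (((M : ℝ) ^ 2 : ℝ) : ℂ) := by
    rw [Complex.ofReal_sum]
    have h1 : ∀ j ∈ range M, ((‖ARC_D M (x - 2 * Real.pi * j / M)‖ ^ 2 : ℝ) : ℂ) =
        ∑ k ∈ range M, ∑ k' ∈ range M,
          Complex.exp ((((k : ℤ) - (k' : ℤ) : ℤ) : ℂ) * (x : ℂ) * Complex.I) *
          Complex.exp (-((((k : ℤ) - (k' : ℤ) : ℤ) : ℂ) * (2 * Real.pi * j / M) *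
            Complex.I)) := by
      intro j _
      rw [ARC_sq]
      refine Finset.sum_congr rfl fun k _ => Finset.sum_congr rfl fun k' _ => ?_
      rw [← Complex.exp_add]
      congr 1
      push_cast
      ring
    rw [Finset.sum_congr rfl h1, Finset.sum_comm]
    have h2 : ∀ k ∈ range M, (∑ j ∈ range M, ∑ k' ∈ range M,
          Complex.exp ((((k : ℤ) - (k' : ℤ) : ℤ) : ℂ) * (x : ℂ) * Complex.I) *
          Complex.exp (-((((k : ℤ) - (k' : ℤ) : ℤ) : ℂ) * (2 * Real.pi * j / M) *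
            Complex.I))) = M := by
      intro k hk
      rw [Finset.sum_comm]
      have h3 : ∀ k' ∈ range M, (∑ j ∈ range M,
          Complex.exp ((((k : ℤ) - (k' : ℤ) : ℤ) : ℂ) * (x : ℂ) * Complex.I) *
          Complex.exp (-((((k : ℤ) - (k' : ℤ) : ℤ) : ℂ) * (2 * Real.pi * j / M) *
            Complex.I))) = if k' = k then (M : ℂ) else 0 := by
        intro k' hk'
        rw [mem_range] at hk hk'
        rw [← Finset.mul_sum]
        by_cases hkk : k' = k
        · subst hkk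
          simp
        · rw [if_neg hkk, ARC_orth M _ (by omega) (by rw [abs_lt]; constructor <;> omega),
            mul_zero]
      rw [Finset.sum_congr rfl h3, Finset.sum_ite_eq' (range M) k, if_pos hk]
    rw [Finset.sum_congr rfl h2]
    simp
    ring
  exact_mod_cast key

theorem ARC_geom (M : ℕ) (x : ℝ) :
    ‖ARC_D M x‖ ^ 2 * ‖Complex.exp ((x : ℂ) * Complex.I) - 1‖ ^ 2 ≤ 4 := by
  have h1 : ARC_D M x * (Complex.exp ((x : ℂ) * Complex.I) - 1) =
      Complex.exp ((x : ℂ) * Complex.I) ^ M - 1 := by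
    rw [← geom_sum_mul, ARC_D]
    congr 1
    refine Finset.sum_congr rfl fun k _ => ?_
    rw [← Complex.exp_nat_mul]
    congr 1
    ring
  rw [← mul_pow, ← norm_mul, h1]
  have h2 : ‖Complex.exp ((x : ℂ) * Complex.I) ^ M - 1‖ ≤ 2 := by
    refine (norm_sub_le _ _).trans ?_
    rw [norm_pow, Complex.norm_exp_ofReal_mul_I]
    simp
    norm_num
  nlinarith [norm_nonneg (Complex.exp ((x : ℂ) * Complex.I) ^ M - 1)]

theorem ARC_col (M m : ℕ) (T δ : ℝ) (t l : Fin m → ℝ) (hδ : 0 ≤ δ)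
    (hT : ∑ i, t i = T)
    (h : ∀ k : ℕ, 0 < k → k ≤ M →
      ‖∑ i, (t i : ℂ) * Complex.exp (k * l i * Complex.I)‖ ≤ δ) (a : ℝ) :
    |∑ i, t i * ‖ARC_D M (l i - a)‖ ^ 2 - M * T| ≤ (M : ℝ) ^ 2 * δ := by
  have hS : ∀ d : ℤ, d ≠ 0 → |d| ≤ M →
      ‖∑ i, (t i : ℂ) * Complex.exp ((d : ℂ) * (l i : ℂ) * Complex.I)‖ ≤ δ := by
    intro d hd hdM
    rcases lt_or_gt_of_ne hd with h0 | h0
    · have h1 := h (-d).toNat (by omega) (by rw [abs_of_neg h0] at hdM; omega)
      have e : (((-d).toNat : ℕ) : ℂ) = -(d : ℂ) := by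
        have : (((-d).toNat : ℕ) : ℤ) = -d := Int.toNat_of_nonneg (by omega)
        exact_mod_cast congrArg (fun z : ℤ => (z : ℂ)) this
      rw [e] at h1
      rw [← Complex.norm_conj, map_sum]
      convert h1 using 2
      refine Finset.sum_congr rfl fun i _ => ?_
      rw [map_mul, Complex.conj_ofReal, ← Complex.exp_conj]
      congr 2
      simp only [map_mul, Complex.conj_ofReal, Complex.conj_I, map_intCast]
      ring
    · have h1 := h d.toNat (by omega) (by rw [abs_of_pos h0] at hdM; omega)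
      have e : ((d.toNat : ℕ) : ℂ) = (d : ℂ) := by
        have : ((d.toNat : ℕ) : ℤ) = d := Int.toNat_of_nonneg (by omega)
        exact_mod_cast congrArg (fun z : ℤ => (z : ℂ)) this
      rw [e] at h1
      exact h1
  have key : ((∑ i, t i * ‖ARC_D M (l i - a)‖ ^ 2 - M * T : ℝ) : ℂ) =
      ∑ k ∈ range M, ∑ k' ∈ range M,
        (Complex.exp (-((((k : ℤ) - (k' : ℤ) : ℤ) : ℂ) * (a : ℂ) * Complex.I)) *
          (∑ i, (t i : ℂ) * Complex.exp ((((k : ℤ) - (k' : ℤ) : ℤ) : ℂ) * (l i : ℂ) *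
            Complex.I)) - if k' = k then (T : ℂ) else 0) := by
    have h1 : ∑ k ∈ range M, ∑ k' ∈ range M, (if k' = k then (T : ℂ) else 0) = M * T := by
      have : ∀ k ∈ range M, ∑ k' ∈ range M, (if k' = k then (T : ℂ) else 0) = T := by
        intro k hk
        rw [Finset.sum_ite_eq' (range M) k, if_pos hk]
      rw [Finset.sum_congr rfl this]
      simp
    simp only [Finset.sum_sub_distrib]
    rw [h1, Complex.ofReal_sub, Complex.ofReal_sum]
    congr 1
    · have h2 : ∀ i ∈ (univ : Finset (Fin m)),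
          ((t i * ‖ARC_D M (l i - a)‖ ^ 2 : ℝ) : ℂ) =
          ∑ k ∈ range M, ∑ k' ∈ range M,
            Complex.exp (-((((k : ℤ) - (k' : ℤ) : ℤ) : ℂ) * (a : ℂ) * Complex.I)) *
            ((t i : ℂ) * Complex.exp ((((k : ℤ) - (k' : ℤ) : ℤ) : ℂ) * (l i : ℂ) *
            Complex.I)) := by
        intro i _
        rw [Complex.ofReal_mul, ARC_sq, Finset.mul_sum]
        refine Finset.sum_congr rfl fun k _ => ?_
        rw [Finset.mul_sum]
        refine Finset.sum_congr rfl fun k' _ => ?_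
        rw [mul_left_comm, ← Complex.exp_add]
        congr 2
        push_cast
        ring
      rw [Finset.sum_congr rfl h2, Finset.sum_comm]
      refine Finset.sum_congr rfl fun k _ => ?_
      rw [Finset.sum_comm]
      refine Finset.sum_congr rfl fun k' _ => ?_
      rw [Finset.mul_sum]
    · push_cast
      ring
  rw [← Real.norm_eq_abs, ← Complex.norm_real, key]
  refine (norm_sum_le _ _).trans ?_
  have h3 : ∀ k ∈ range M, ‖∑ k' ∈ range M,
        (Complex.exp (-((((k : ℤ) - (k' : ℤ) : ℤ) : ℂ) * (a : ℂ) * Complex.I)) *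
          (∑ i, (t i : ℂ) * Complex.exp ((((k : ℤ) - (k' : ℤ) : ℤ) : ℂ) * (l i : ℂ) *
            Complex.I)) - if k' = k then (T : ℂ) else 0)‖ ≤ M * δ := by
    intro k hk
    refine (norm_sum_le _ _).trans ?_
    have h4 : ∀ k' ∈ range M,
        ‖(Complex.exp (-((((k : ℤ) - (k' : ℤ) : ℤ) : ℂ) * (a : ℂ) * Complex.I)) *
          (∑ i, (t i : ℂ) * Complex.exp ((((k : ℤ) - (k' : ℤ) : ℤ) : ℂ) * (l i : ℂ) *
            Complex.I)) - if k' = k then (T : ℂ) else 0)‖ ≤ δ := by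
      intro k' hk'
      rw [mem_range] at hk hk'
      by_cases hkk : k' = k
      · subst hkk
        simp only [sub_self, Int.cast_zero, zero_mul, neg_zero, Complex.exp_zero, mul_one,
          one_mul, if_true]
        rw [← hT]
        simp [hδ]
      · rw [if_neg hkk, sub_zero, norm_mul]
        have e1 : ‖Complex.exp (-((((k : ℤ) - (k' : ℤ) : ℤ) : ℂ) * (a : ℂ) *
            Complex.I))‖ = 1 := by
          have : -((((k : ℤ) - (k' : ℤ) : ℤ) : ℂ) * (a : ℂ) * Complex.I) =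
              ((-((((k : ℤ) - (k' : ℤ) : ℤ) : ℝ) * a) : ℝ) : ℂ) * Complex.I := by
            push_cast; ring
          rw [this, Complex.norm_exp_ofReal_mul_I]
        rw [e1, one_mul]
        exact hS _ (by omega) (by rw [abs_le]; constructor <;> omega)
    refine (Finset.sum_le_sum h4).trans ?_
    simp
  refine (Finset.sum_le_sum h3).trans ?_
  simp
  apply le_of_eq
  ring

theorem ARC_idx (n : ℕ) (f : ℕ → ℝ) :
    ∑ s : Fin n, ∑ r : Fin n, f ((r : ℕ) + n * (s : ℕ)) = ∑ j ∈ range (n * n), f j := by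
  rw [Finset.sum_range, ← finProdFinEquiv.sum_comp, Fintype.sum_prod_type]
  rfl

/-- the points `x_{s,r}` -/
noncomputable def ARC_x (n : ℕ) (s r : Fin n) : ℝ :=
  2 * Real.pi * (((r : ℕ) + n * (s : ℕ) : ℕ) : ℝ) / ((n * n : ℕ) : ℝ)

/-- the weights -/
noncomputable def ARC_W (n : ℕ) (s r : Fin n) (x : ℝ) : ℝ :=
  ‖ARC_D (n * n) (x - ARC_x n s r)‖ ^ 2 / ((n * n : ℕ) : ℝ) ^ 2

theorem ARC_W_nonneg (n : ℕ) (s r : Fin n) (x : ℝ) : 0 ≤ ARC_W n s r x := by
  unfold ARC_W; positivity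

theorem ARC_W_sum (n : ℕ) (hn : 0 < n) (x : ℝ) : ∑ s, ∑ r, ARC_W n s r x = 1 := by
  have hM : (((n * n : ℕ) : ℝ)) ^ 2 ≠ 0 := by positivity
  have h := ARC_idx n (fun j => ‖ARC_D (n * n) (x - 2 * Real.pi * (j : ℝ) / ((n * n : ℕ) : ℝ))‖ ^ 2 /
    ((n * n : ℕ) : ℝ) ^ 2)
  have h2 := ARC_parseval (n * n) x
  rw [← Finset.sum_div, h2, div_self hM] at h
  exact h

theorem ARC_expdist (a b : ℝ) :
    ‖Complex.exp ((a : ℂ) * Complex.I) - Complex.exp ((b : ℂ) * Complex.I)‖ =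
      ‖Complex.exp (((a - b : ℝ) : ℂ) * Complex.I) - 1‖ := by
  have : Complex.exp ((a : ℂ) * Complex.I) - Complex.exp ((b : ℂ) * Complex.I) =
      Complex.exp ((b : ℂ) * Complex.I) * (Complex.exp (((a - b : ℝ) : ℂ) * Complex.I) - 1) := by
    rw [mul_sub, ← Complex.exp_add, mul_one]
    congr 2
    push_cast
    ring
  rw [this, norm_mul, Complex.norm_exp_ofReal_mul_I, one_mul]

theorem ARC_W_cost (n : ℕ) (hn : 0 < n) (s r : Fin n) (x : ℝ) :
    ARC_W n s r x * ‖Complex.exp ((x : ℂ) * Complex.I) -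
      Complex.exp ((ARC_x n s r : ℂ) * Complex.I)‖ ^ 2 ≤ 4 / ((n * n : ℕ) : ℝ) ^ 2 := by
  have hM : 0 < (((n * n : ℕ) : ℝ)) ^ 2 := by positivity
  rw [ARC_expdist, ARC_W, div_mul_eq_mul_div]
  exact div_le_div_of_nonneg_right (ARC_geom (n * n) (x - ARC_x n s r)) hM.le

theorem ARC_near (n : ℕ) (hn : 0 < n) (s r : Fin n) :
    ‖Complex.exp ((ARC_x n s r : ℂ) * Complex.I) -
      Complex.exp (2 * Real.pi * ((s : ℕ) : ℂ) / n * Complex.I)‖ ≤ 2 * Real.pi / n := by
  have e : (2 * (Real.pi : ℂ) * ((s : ℕ) : ℂ) / n) = ((2 * Real.pi * (s : ℕ) / n : ℝ) : ℂ) := by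
    push_cast; ring
  have hn' : (0 : ℝ) < n := by exact_mod_cast hn
  rw [e, ARC_expdist, mul_comm _ Complex.I]
  refine (Real.norm_exp_I_mul_ofReal_sub_one_le).trans ?_
  have h1 : ARC_x n s r - 2 * Real.pi * (s : ℕ) / n = 2 * Real.pi * (r : ℕ) / (n * n) := by
    unfold ARC_x
    push_cast
    field_simp
    ring
  rw [h1, Real.norm_eq_abs, abs_of_nonneg (by positivity)]
  have h2 : ((r : ℕ) : ℝ) ≤ n := by exact_mod_cast r.2.le
  rw [div_le_div_iff₀ (by positivity) hn']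
  have := Real.pi_pos
  have h3 : 2 * Real.pi * ((r : ℕ) : ℝ) ≤ 2 * Real.pi * n := by gcongr
  nlinarith

theorem ARC_cost (n : ℕ) (hn : 0 < n) (x : ℝ) :
    ∑ s : Fin n, (∑ r, ARC_W n s r x) * ‖Complex.exp ((x : ℂ) * Complex.I) -
      Complex.exp (2 * Real.pi * ((s : ℕ) : ℂ) / n * Complex.I)‖ ^ 2 ≤
      (8 + 8 * Real.pi ^ 2) / (n : ℝ) ^ 2 := by
  have hn' : (0 : ℝ) < n := by exact_mod_cast hn
  have h1 : ∀ s r : Fin n, ARC_W n s r x * ‖Complex.exp ((x : ℂ) * Complex.I) -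
      Complex.exp (2 * Real.pi * ((s : ℕ) : ℂ) / n * Complex.I)‖ ^ 2 ≤
      8 / ((n * n : ℕ) : ℝ) ^ 2 + 2 * (2 * Real.pi / n) ^ 2 * ARC_W n s r x := by
    intro s r
    have ha := ARC_W_cost n hn s r x
    have hb := ARC_near n hn s r
    have hw := ARC_W_nonneg n s r x
    set A := ‖Complex.exp ((x : ℂ) * Complex.I) -
      Complex.exp ((ARC_x n s r : ℂ) * Complex.I)‖ with hA
    set B := ‖Complex.exp ((ARC_x n s r : ℂ) * Complex.I) -
      Complex.exp (2 * Real.pi * ((s : ℕ) : ℂ) / n * Complex.I)‖ with hB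
    have hA0 : 0 ≤ A := norm_nonneg _
    have hB0 : 0 ≤ B := norm_nonneg _
    have hc : ‖Complex.exp ((x : ℂ) * Complex.I) -
      Complex.exp (2 * Real.pi * ((s : ℕ) : ℂ) / n * Complex.I)‖ ≤ A + B :=
      norm_sub_le_norm_sub_add_norm_sub _ _ _
    have hd : ‖Complex.exp ((x : ℂ) * Complex.I) -
      Complex.exp (2 * Real.pi * ((s : ℕ) : ℂ) / n * Complex.I)‖ ^ 2 ≤ 2 * A ^ 2 + 2 * B ^ 2 := by
      have := pow_le_pow_left₀ (norm_nonneg _) hc 2
      nlinarith [sq_nonneg (A - B)]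
    have he : B ^ 2 ≤ (2 * Real.pi / n) ^ 2 := pow_le_pow_left₀ hB0 hb 2
    calc _ ≤ ARC_W n s r x * (2 * A ^ 2 + 2 * B ^ 2) := mul_le_mul_of_nonneg_left hd hw
      _ = 2 * (ARC_W n s r x * A ^ 2) + 2 * (ARC_W n s r x * B ^ 2) := by ring
      _ ≤ 2 * (4 / ((n * n : ℕ) : ℝ) ^ 2) + 2 * (ARC_W n s r x * (2 * Real.pi / n) ^ 2) := by
          have := mul_le_mul_of_nonneg_left he hw
          linarith
      _ = _ := by ring
  have h2 : ∑ s : Fin n, (∑ r, ARC_W n s r x) * ‖Complex.exp ((x : ℂ) * Complex.I) -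
      Complex.exp (2 * Real.pi * ((s : ℕ) : ℂ) / n * Complex.I)‖ ^ 2 ≤
      ∑ s : Fin n, ∑ r : Fin n, (8 / ((n * n : ℕ) : ℝ) ^ 2 +
        2 * (2 * Real.pi / n) ^ 2 * ARC_W n s r x) := by
    refine Finset.sum_le_sum fun s _ => ?_
    rw [Finset.sum_mul]
    exact Finset.sum_le_sum fun r _ => h1 s r
  refine h2.trans (le_of_eq ?_)
  simp only [Finset.sum_add_distrib, ← Finset.mul_sum]
  rw [ARC_W_sum n hn x]
  simp only [Finset.sum_const, Finset.card_univ, Fintype.card_fin, nsmul_eq_mul]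
  push_cast
  field_simp
  ring

theorem p_ARC : S_ARC := by
  intro n hn
  have hn' : (0 : ℝ) < n := by exact_mod_cast hn
  refine ⟨n * n, 1 / (n : ℝ) ^ 4, by positivity, ?_⟩
  intro T m t l hT0 hT1 ht hsum hex
  set V : Fin n → ℝ → ℝ := fun s x => ∑ r, ARC_W n s r x with hV
  have hV0 : ∀ s x, 0 ≤ V s x := fun s x => Finset.sum_nonneg fun r _ => ARC_W_nonneg n s r x
  have hV1 : ∀ x, ∑ s, V s x = 1 := fun x => ARC_W_sum n hn x
  set X : Fin n → ℝ := fun s => ∑ i, t i * V s (l i) with hX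
  set κ : ℝ := 1 / (n : ℝ) ^ 2 with hκ
  have hκ0 : 0 < κ := by positivity
  have hTκ : 0 < T + κ := by linarith
  have hXsum : ∑ s, X s = T := by
    rw [hX]
    simp only
    rw [Finset.sum_comm, ← hsum]
    refine Finset.sum_congr rfl fun i _ => ?_
    rw [← Finset.mul_sum, hV1, mul_one]
  have hXle : ∀ s, (n : ℝ) * X s ≤ T + κ := by
    intro s
    have h1 : ∀ r : Fin n, ∑ i, t i * ARC_W n s r (l i) ≤ T / (n * n) + 1 / (n : ℝ) ^ 4 := by
      intro r
      have h2 := ARC_col (n * n) m T (1 / (n : ℝ) ^ 4) t l (by positivity) hsum hex (ARC_x n s r)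
      have h3 := (abs_le.mp h2).2
      have h4 : ∑ i, t i * ARC_W n s r (l i) =
          (∑ i, t i * ‖ARC_D (n * n) (l i - ARC_x n s r)‖ ^ 2) / ((n * n : ℕ) : ℝ) ^ 2 := by
        rw [Finset.sum_div]
        refine Finset.sum_congr rfl fun i _ => ?_
        rw [ARC_W, mul_div_assoc]
      rw [h4, div_le_iff₀ (by positivity)]
      have h5 : (T / (n * n) + 1 / (n : ℝ) ^ 4) * ((n * n : ℕ) : ℝ) ^ 2 =
          ((n * n : ℕ) : ℝ) * T + ((n * n : ℕ) : ℝ) ^ 2 * (1 / (n : ℝ) ^ 4) := by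
        push_cast
        field_simp
      rw [h5]
      linarith
    have h6 : X s ≤ n * (T / (n * n) + 1 / (n : ℝ) ^ 4) := by
      have : X s = ∑ r : Fin n, ∑ i, t i * ARC_W n s r (l i) := by
        rw [hX]
        simp only [hV]
        rw [Finset.sum_comm]
        refine Finset.sum_congr rfl fun i _ => ?_
        rw [Finset.mul_sum]
      rw [this]
      refine (Finset.sum_le_sum fun r _ => h1 r).trans ?_
      rw [Finset.sum_const, Finset.card_univ, Fintype.card_fin, nsmul_eq_mul]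
    have h7 : (n : ℝ) * (n * (T / (n * n) + 1 / (n : ℝ) ^ 4)) = T + κ := by
      rw [hκ]
      field_simp
    calc (n : ℝ) * X s ≤ n * (n * (T / (n * n) + 1 / (n : ℝ) ^ 4)) := by gcongr
      _ = T + κ := h7
  set c : Fin n → ℝ := fun s => 1 / n - X s / (T + κ) with hc
  have hc0 : ∀ s, 0 ≤ c s := by
    intro s
    have := hXle s
    rw [hc]
    simp only
    rw [sub_nonneg, div_le_div_iff₀ hTκ hn']
    linarith
  have hcsum : ∑ s, c s = κ / (T + κ) := by
    rw [hc]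
    simp only [Finset.sum_sub_distrib, ← Finset.sum_div]
    rw [hXsum]
    simp
    field_simp
    ring
  refine ⟨fun i s => T / (T + κ) * (t i * V s (l i)) + t i * c s, ?_, ?_, ?_, ?_⟩
  · intro i s
    have h1 := ht i
    have h2 := hV0 s (l i)
    have h3 := hc0 s
    have h4 : 0 ≤ T / (T + κ) := div_nonneg hT0 hTκ.le
    positivity
  · intro i
    rw [Finset.sum_add_distrib, ← Finset.mul_sum, ← Finset.mul_sum, ← Finset.mul_sum, hV1, hcsum]
    field_simp
  · intro s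
    rw [Finset.sum_add_distrib, ← Finset.mul_sum, ← Finset.sum_mul, hsum]
    change T / (T + κ) * X s + T * (1 / n - X s / (T + κ)) = T / n
    ring
  · set d : Fin m → Fin n → ℝ := fun i s => ‖Complex.exp (l i * Complex.I) -
        Complex.exp (2 * Real.pi * (s : ℕ) / n * Complex.I)‖ ^ 2 with hd
    have hd4 : ∀ i s, d i s ≤ 4 := by
      intro i s
      have h1 : ‖Complex.exp (l i * Complex.I) -
        Complex.exp (2 * Real.pi * (s : ℕ) / n * Complex.I)‖ ≤ 2 := by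
        refine (norm_sub_le _ _).trans ?_
        have e : (2 * (Real.pi : ℂ) * ((s : ℕ) : ℂ) / n) =
            ((2 * Real.pi * (s : ℕ) / n : ℝ) : ℂ) := by
          push_cast; ring
        rw [e, Complex.norm_exp_ofReal_mul_I, Complex.norm_exp_ofReal_mul_I]
        norm_num
      have h2 := pow_le_pow_left₀ (norm_nonneg _) h1 2
      rw [hd]
      simp only
      linarith
    have hd0 : ∀ i s, 0 ≤ d i s := fun i s => by rw [hd]; positivity
    have hcost : ∀ i, ∑ s, V s (l i) * d i s ≤ (8 + 8 * Real.pi ^ 2) / (n : ℝ) ^ 2 :=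
      fun i => ARC_cost n hn (l i)
    have h1 : ∀ i, ∑ s, (T / (T + κ) * (t i * V s (l i)) + t i * c s) * d i s ≤
        t i * ((8 + 8 * Real.pi ^ 2) / (n : ℝ) ^ 2 + 4 * (κ / (T + κ))) := by
      intro i
      have e1 : ∑ s, (T / (T + κ) * (t i * V s (l i)) + t i * c s) * d i s =
          t i * (T / (T + κ) * ∑ s, V s (l i) * d i s + ∑ s, c s * d i s) := by
        rw [Finset.mul_sum, ← Finset.sum_add_distrib, Finset.mul_sum]
        refine Finset.sum_congr rfl fun s _ => ?_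
        ring
      rw [e1]
      refine mul_le_mul_of_nonneg_left ?_ (ht i)
      have h2 : T / (T + κ) ≤ 1 := by
        rw [div_le_one hTκ]; linarith
      have h3 : 0 ≤ ∑ s, V s (l i) * d i s :=
        Finset.sum_nonneg fun s _ => mul_nonneg (hV0 s _) (hd0 i s)
      have h4 : T / (T + κ) * ∑ s, V s (l i) * d i s ≤ ∑ s, V s (l i) * d i s :=
        mul_le_of_le_one_left h3 h2
      have h5 : ∑ s, c s * d i s ≤ ∑ s, c s * 4 :=
        Finset.sum_le_sum fun s _ => mul_le_mul_of_nonneg_left (hd4 i s) (hc0 s)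
      rw [← Finset.sum_mul, hcsum] at h5
      have h6 := hcost i
      linarith
    refine (Finset.sum_le_sum fun i _ => h1 i).trans ?_
    rw [← Finset.sum_mul, hsum]
    have h7 : T * (4 * (κ / (T + κ))) ≤ 4 * κ := by
      have : T * (4 * (κ / (T + κ))) = 4 * κ * (T / (T + κ)) := by ring
      rw [this]
      have h8 : T / (T + κ) ≤ 1 := by
        rw [div_le_one hTκ]; linarith
      exact mul_le_of_le_one_right (by positivity) h8
    have h9 : T * ((8 + 8 * Real.pi ^ 2) / (n : ℝ) ^ 2) ≤ (8 + 8 * Real.pi ^ 2) / (n : ℝ) ^ 2 :=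
      mul_le_of_le_one_left (by positivity) hT1
    have h10 : Real.pi ^ 2 ≤ 10 := by
      have := Real.pi_lt_d2
      nlinarith [Real.pi_pos]
    rw [mul_add]
    have h11 : (10 / (n : ℝ)) ^ 2 = 100 / (n : ℝ) ^ 2 := by
      rw [div_pow]; norm_num
    have h12 : (8 + 8 * Real.pi ^ 2) / (n : ℝ) ^ 2 + 4 * κ ≤ 100 / (n : ℝ) ^ 2 := by
      rw [hκ, show (4 : ℝ) * (1 / (n : ℝ) ^ 2) = 4 / (n : ℝ) ^ 2 by ring, ← add_div]
      apply div_le_div_of_nonneg_right _ (by positivity)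
      linarith
    rw [h11]
    linarith

end Pool.Agent.H518R5.SC
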