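import Pool.Agent.H518R5.SC.Stubs

/-!
Sequential commutation orbits of corners (MP_52dd0f_an), task ARC: quantitative equidistribution,
by an explicit trigonometric polynomial.
-/

set_option autoImplicit false

open scoped Topology ComplexConjugate
open Filter Finset

noncomputable section

namespace Pool.Agent.H518R5.SC

namespace ARCx

/-- the root of unity -/
def om (n : ℕ) : ℂ := Complex.exp (2 * Real.pi * Complex.I / n)

theorem om_prim (n : ℕ) (hn : n ≠ 0) : IsPrimitiveRoot (om n) n := Complex.isPrimitiveRoot_exp n hn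

theorem om_norm (n : ℕ) (hn : n ≠ 0) : ‖om n‖ = 1 :=
  IsPrimitiveRoot.norm'_eq_one (om_prim n hn) hn

theorem om_conj (n : ℕ) (hn : n ≠ 0) : om n * conj (om n) = 1 := by
  rw [Complex.mul_conj', om_norm n hn]; simp

theorem orth (n : ℕ) (hn : n ≠ 0) (j k : ℕ) (hj : j < n) (hk : k < n) :
    ∑ s ∈ range n, (conj (om n ^ s)) ^ j * (om n ^ s) ^ k = if j = k then (n : ℂ) else 0 := by
  have h1 : ∀ s, (conj (om n ^ s)) ^ j * (om n ^ s) ^ k = (conj (om n) ^ j * om n ^ k) ^ s := by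
    intro s
    rw [map_pow, mul_pow, ← pow_mul, ← pow_mul, ← pow_mul, ← pow_mul, mul_comm s j, mul_comm s k]
  simp_rw [h1]
  by_cases hjk : j = k
  · subst hjk
    rw [if_pos rfl]
    have : conj (om n) ^ j * om n ^ j = 1 := by
      rw [← mul_pow, mul_comm, om_conj n hn, one_pow]
    rw [this]
    simp
  · rw [if_neg hjk]
    have h2 : conj (om n) ^ j * om n ^ k ≠ 1 := by
      intro h
      apply hjk
      apply (om_prim n hn).pow_inj hj hk
      calc om n ^ j = om n ^ j * (conj (om n) ^ j * om n ^ k) := by rw [h, mul_one]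
        _ = (om n * conj (om n)) ^ j * om n ^ k := by rw [mul_pow]; ring
        _ = om n ^ k := by rw [om_conj n hn, one_pow, one_mul]
    have h3 : (conj (om n) ^ j * om n ^ k) ^ n = 1 := by
      rw [mul_pow, ← pow_mul, ← pow_mul, mul_comm j n, mul_comm k n, pow_mul, pow_mul,
        (om_prim n hn).pow_eq_one, ← map_pow, (om_prim n hn).pow_eq_one]
      simp
    rw [geom_sum_eq h2, h3, sub_self, zero_div]

theorem parseval (n : ℕ) (hn : n ≠ 0) (b : ℕ → ℂ) :
    ∑ s ∈ range n, ‖∑ j ∈ range n, b j * (conj (om n ^ s)) ^ j‖ ^ 2 =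
      n * ∑ j ∈ range n, ‖b j‖ ^ 2 := by
  apply Complex.ofReal_injective
  push_cast
  have h1 : ∀ s, ((‖∑ j ∈ range n, b j * (conj (om n ^ s)) ^ j‖ : ℝ) : ℂ) ^ 2 =
      ∑ j ∈ range n, ∑ k ∈ range n, (b j * conj (b k)) *
        ((conj (om n ^ s)) ^ j * (om n ^ s) ^ k) := by
    intro s
    rw [← Complex.mul_conj', map_sum, Finset.sum_mul_sum]
    refine Finset.sum_congr rfl fun j _ => Finset.sum_congr rfl fun k _ => ?_
    simp only [map_mul, map_pow, Complex.conj_conj]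
    ring
  simp_rw [h1]
  rw [Finset.sum_comm, Finset.mul_sum]
  refine Finset.sum_congr rfl fun j hj => ?_
  rw [Finset.sum_comm]
  rw [Finset.sum_eq_single_of_mem j hj]
  · rw [← Finset.mul_sum, orth n hn j j (mem_range.1 hj) (mem_range.1 hj), if_pos rfl,
      Complex.mul_conj']
    ring
  · intro k hk hkj
    rw [← Finset.mul_sum, orth n hn j k (mem_range.1 hj) (mem_range.1 hk), if_neg (Ne.symm hkj),
      mul_zero]

/-- the coefficients -/
def aa (n : ℕ) (j : ℕ) : ℝ := (j : ℝ) * ((n : ℝ) - j)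

theorem sum1 (m : ℕ) (x : ℝ) : ∑ j ∈ range m, ((j : ℝ) * (x - j)) ^ 2 =
    x ^ 2 * ((m : ℝ) * (m - 1) * (2 * m - 1) / 6) - 2 * x * ((m : ℝ) ^ 2 * (m - 1) ^ 2 / 4) +
      (m : ℝ) * (m - 1) * (2 * m - 1) * (3 * m ^ 2 - 3 * m - 1) / 30 := by
  induction m with
  | zero => simp
  | succ m ih => rw [Finset.sum_range_succ, ih]; push_cast; ring

theorem sum_sq (n : ℕ) : ∑ j ∈ range n, (aa n j) ^ 2 = (n : ℝ) * ((n : ℝ) ^ 4 - 1) / 30 := by
  unfold aa
  rw [sum1]; ring

theorem sum2 (m : ℕ) (x : ℝ) :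
    ∑ j ∈ range m, ((j : ℝ) * (x - j) - ((j : ℝ) + 1) * (x - (j + 1))) ^ 2 =
    (x - 1) ^ 2 * m - 4 * (x - 1) * ((m : ℝ) * (m - 1) / 2) +
      4 * ((m : ℝ) * (m - 1) * (2 * m - 1) / 6) := by
  induction m with
  | zero => simp
  | succ m ih => rw [Finset.sum_range_succ, ih]; push_cast; ring

theorem sum_dsq (n : ℕ) : ∑ j ∈ range n, (aa n j - aa n (j + 1)) ^ 2 =
    (n : ℝ) * ((n : ℝ) ^ 2 - 1) / 3 := by
  unfold aa
  push_cast
  rw [sum2]; ring

/-- the polynomial -/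
def GG (n : ℕ) (u : ℂ) : ℂ := ∑ j ∈ range n, (aa n j : ℂ) * u ^ j

theorem GG_mul (n : ℕ) (u : ℂ) :
    (u - 1) * GG n u = u * ∑ j ∈ range n, ((aa n j - aa n (j + 1) : ℝ) : ℂ) * u ^ j := by
  unfold GG
  have h1 : ∑ j ∈ range n, (aa n j : ℂ) * u ^ j =
      u * ∑ j ∈ range n, (aa n (j + 1) : ℂ) * u ^ j := by
    have h2 := Finset.sum_range_succ (fun j => (aa n j : ℂ) * u ^ j) n
    have h3 := Finset.sum_range_succ' (fun j => (aa n j : ℂ) * u ^ j) n
    have h4 : aa n n = 0 := by unfold aa; ring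
    have h5 : aa n 0 = 0 := by unfold aa; simp
    rw [h2] at h3
    simp only [h4, h5, Complex.ofReal_zero, zero_mul, add_zero] at h3
    rw [h3, Finset.mul_sum]
    refine Finset.sum_congr rfl fun j _ => ?_
    rw [pow_succ]; ring
  have h6 : ∑ j ∈ range n, ((aa n j - aa n (j + 1) : ℝ) : ℂ) * u ^ j =
      ∑ j ∈ range n, (aa n j : ℂ) * u ^ j - ∑ j ∈ range n, (aa n (j + 1) : ℂ) * u ^ j := by
    rw [← Finset.sum_sub_distrib]
    refine Finset.sum_congr rfl fun j _ => ?_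
    push_cast; ring
  rw [h6, mul_sub, ← h1]; ring

/-- values at the points of the orbit of the rotation -/
theorem GG_row (n : ℕ) (hn : n ≠ 0) (z : ℂ) (hz : ‖z‖ = 1) :
    ∑ s ∈ range n, ‖GG n (z * conj (om n ^ s))‖ ^ 2 = n * ∑ j ∈ range n, (aa n j) ^ 2 := by
  have h := parseval n hn (fun j => (aa n j : ℂ) * z ^ j)
  have h1 : ∀ j, ‖(aa n j : ℂ) * z ^ j‖ ^ 2 = (aa n j) ^ 2 := by
    intro j
    rw [norm_mul, norm_pow, hz, one_pow, mul_one, Complex.norm_real, Real.norm_eq_abs, sq_abs]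
  simp only [h1] at h
  rw [← h]
  refine Finset.sum_congr rfl fun s _ => ?_
  unfold GG
  congr 2
  refine Finset.sum_congr rfl fun j _ => ?_
  rw [mul_pow]; ring

theorem GG_cost (n : ℕ) (hn : n ≠ 0) (z : ℂ) (hz : ‖z‖ = 1) :
    ∑ s ∈ range n, ‖GG n (z * conj (om n ^ s))‖ ^ 2 * ‖z - om n ^ s‖ ^ 2 =
      n * ∑ j ∈ range n, (aa n j - aa n (j + 1)) ^ 2 := by
  have h := parseval n hn (fun j => ((aa n j - aa n (j + 1) : ℝ) : ℂ) * z ^ j)
  have h1 : ∀ j, ‖((aa n j - aa n (j + 1) : ℝ) : ℂ) * z ^ j‖ ^ 2 =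
      (aa n j - aa n (j + 1)) ^ 2 := by
    intro j
    rw [norm_mul, norm_pow, hz, one_pow, mul_one, Complex.norm_real, Real.norm_eq_abs, sq_abs]
  simp only [h1] at h
  rw [← h]
  refine Finset.sum_congr rfl fun s _ => ?_
  have hs : ‖om n ^ s‖ = 1 := by rw [norm_pow, om_norm n hn, one_pow]
  have hs' : ‖conj (om n ^ s)‖ = 1 := by rw [RCLike.norm_conj, hs]
  set u : ℂ := z * conj (om n ^ s) with hu
  have hun : ‖u‖ = 1 := by rw [hu, norm_mul, hz, hs', one_mul]
  have h2 : ‖z - om n ^ s‖ = ‖u - 1‖ := by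
    have : u - 1 = (z - om n ^ s) * conj (om n ^ s) := by
      rw [sub_mul, Complex.mul_conj', hs, hu]; simp
    rw [this, norm_mul, hs', mul_one]
  have h3 : ‖GG n u‖ ^ 2 * ‖u - 1‖ ^ 2 = ‖(u - 1) * GG n u‖ ^ 2 := by
    rw [norm_mul]; ring
  rw [h2, h3, GG_mul, norm_mul, hun, one_mul]
  congr 2
  refine Finset.sum_congr rfl fun j _ => ?_
  rw [hu, mul_pow]; ring

theorem GG_sq (n : ℕ) (u : ℂ) : ((‖GG n u‖ ^ 2 : ℝ) : ℂ) =
    ∑ j ∈ range n, ∑ k ∈ range n, (aa n j : ℂ) * (aa n k : ℂ) * (u ^ j * conj u ^ k) := by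
  push_cast
  rw [← Complex.mul_conj']
  unfold GG
  rw [map_sum, Finset.sum_mul_sum]
  refine Finset.sum_congr rfl fun j _ => Finset.sum_congr rfl fun k _ => ?_
  simp only [map_mul, map_pow, Complex.conj_ofReal]
  ring

theorem aa_nonneg (n j : ℕ) (hj : j < n) : 0 ≤ aa n j := by
  unfold aa
  have : (j : ℝ) < n := by exact_mod_cast hj
  exact mul_nonneg (Nat.cast_nonneg _) (by linarith)

theorem moments {m : ℕ} (t : Fin m → ℝ) (z : Fin m → ℂ) (hz : ∀ i, ‖z i‖ = 1) (n : ℕ) (T δ : ℝ)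
    (hT : ∑ i, t i = T) (h : ∀ k : ℕ, 0 < k → k ≤ n → ‖∑ i, (t i : ℂ) * z i ^ k‖ ≤ δ) (hδ : 0 ≤ δ)
    (j k : ℕ) (hj : j < n) (hk : k < n) :
    ‖∑ i, (t i : ℂ) * (z i ^ j * conj (z i) ^ k) - (if j = k then (T : ℂ) else 0)‖ ≤ δ := by
  have hzz : ∀ i, z i * conj (z i) = 1 := by
    intro i
    rw [Complex.mul_conj', hz i]; simp
  rcases lt_trichotomy j k with hjk | hjk | hjk
  · obtain ⟨r, rfl⟩ := Nat.exists_eq_add_of_lt hjk
    rw [if_neg (by omega), sub_zero]
    have h1 : ∑ i, (t i : ℂ) * (z i ^ j * conj (z i) ^ (j + r + 1)) =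
        conj (∑ i, (t i : ℂ) * z i ^ (r + 1)) := by
      rw [map_sum]
      refine Finset.sum_congr rfl fun i _ => ?_
      have e : z i ^ j * conj (z i) ^ (j + r + 1) = (z i * conj (z i)) ^ j * conj (z i) ^ (r + 1) := by
        rw [mul_pow]; ring
      rw [e, hzz, one_pow, one_mul, map_mul, map_pow, Complex.conj_ofReal]
    rw [h1, RCLike.norm_conj]
    exact h _ (by omega) (by omega)
  · subst hjk
    rw [if_pos rfl]
    have h1 : ∑ i, (t i : ℂ) * (z i ^ j * conj (z i) ^ j) = T := by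
      rw [← hT]
      push_cast
      refine Finset.sum_congr rfl fun i _ => ?_
      rw [← mul_pow, hzz, one_pow, mul_one]
    rw [h1, sub_self, norm_zero]
    exact hδ
  · obtain ⟨r, rfl⟩ := Nat.exists_eq_add_of_lt hjk
    rw [if_neg (by omega), sub_zero]
    have h1 : ∑ i, (t i : ℂ) * (z i ^ (k + r + 1) * conj (z i) ^ k) =
        ∑ i, (t i : ℂ) * z i ^ (r + 1) := by
      refine Finset.sum_congr rfl fun i _ => ?_
      have e : z i ^ (k + r + 1) * conj (z i) ^ k = (z i * conj (z i)) ^ k * z i ^ (r + 1) := by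
        rw [mul_pow]; ring
      rw [e, hzz, one_pow, one_mul]
    rw [h1]
    exact h _ (by omega) (by omega)

/-- the normalisation -/
def cc (n : ℕ) : ℝ := (n * ∑ j ∈ range n, (aa n j) ^ 2)⁻¹

theorem sum_sq_pos (n : ℕ) (hn : 2 ≤ n) : 0 < ∑ j ∈ range n, (aa n j) ^ 2 := by
  rw [sum_sq]
  have h : (2 : ℝ) ≤ n := by exact_mod_cast hn
  have h2 : (1 : ℝ) < (n : ℝ) ^ 4 := one_lt_pow₀ (by linarith) (by norm_num)
  have : 0 < (n : ℝ) := by linarith
  have : 0 < (n : ℝ) ^ 4 - 1 := by linarith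
  positivity

theorem cc_pos (n : ℕ) (hn : 2 ≤ n) : 0 < cc n := by
  unfold cc
  have := sum_sq_pos n hn
  have h : (0 : ℝ) < n := by exact_mod_cast (by omega : 0 < n)
  positivity

theorem cc_mul (n : ℕ) (hn : 2 ≤ n) : cc n * (n * ∑ j ∈ range n, (aa n j) ^ 2) = 1 := by
  unfold cc
  have := sum_sq_pos n hn
  have h : (0 : ℝ) < n := by exact_mod_cast (by omega : 0 < n)
  exact inv_mul_cancel₀ (by positivity)

theorem cc_cost (n : ℕ) (hn : 2 ≤ n) :
    cc n * (n * ∑ j ∈ range n, (aa n j - aa n (j + 1)) ^ 2) ≤ 10 / (n : ℝ) ^ 2 := by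
  have h0 := sum_sq_pos n hn
  have h : (2 : ℝ) ≤ n := by exact_mod_cast hn
  have hn0 : (0 : ℝ) < n := by linarith
  rw [le_div_iff₀ (by positivity)]
  have h1 : (∑ j ∈ range n, (aa n j - aa n (j + 1)) ^ 2) * (n : ℝ) ^ 2 ≤
      10 * ∑ j ∈ range n, (aa n j) ^ 2 := by
    rw [sum_sq, sum_dsq]
    nlinarith [mul_pos hn0 hn0, mul_nonneg hn0.le (by nlinarith : (0:ℝ) ≤ (n:ℝ)^2 - 1)]
  calc cc n * (n * ∑ j ∈ range n, (aa n j - aa n (j + 1)) ^ 2) * (n : ℝ) ^ 2
      = cc n * n * ((∑ j ∈ range n, (aa n j - aa n (j + 1)) ^ 2) * (n : ℝ) ^ 2) := by ring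
    _ ≤ cc n * n * (10 * ∑ j ∈ range n, (aa n j) ^ 2) :=
        mul_le_mul_of_nonneg_left h1 (mul_nonneg (cc_pos n hn).le hn0.le)
    _ = 10 * (cc n * (n * ∑ j ∈ range n, (aa n j) ^ 2)) := by ring
    _ = 10 := by rw [cc_mul n hn, mul_one]

/-- the first plan -/
def xx {m : ℕ} (n : ℕ) (t : Fin m → ℝ) (z : Fin m → ℂ) (i : Fin m) (s : ℕ) : ℝ :=
  cc n * t i * ‖GG n (z i * conj (om n ^ s))‖ ^ 2

theorem xx_nonneg {m : ℕ} (n : ℕ) (hn : 2 ≤ n) (t : Fin m → ℝ) (z : Fin m → ℂ) (ht : ∀ i, 0 ≤ t i)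
    (i : Fin m) (s : ℕ) : 0 ≤ xx n t z i s := by
  unfold xx
  have := cc_pos n hn
  have := ht i
  positivity

theorem xx_row {m : ℕ} (n : ℕ) (hn : 2 ≤ n) (t : Fin m → ℝ) (z : Fin m → ℂ)
    (hz : ∀ i, ‖z i‖ = 1) (i : Fin m) : ∑ s ∈ range n, xx n t z i s = t i := by
  unfold xx
  rw [← Finset.mul_sum, GG_row n (by omega) (z i) (hz i)]
  calc cc n * t i * (n * ∑ j ∈ range n, (aa n j) ^ 2)
      = t i * (cc n * (n * ∑ j ∈ range n, (aa n j) ^ 2)) := by ring
    _ = t i := by rw [cc_mul n hn, mul_one]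

theorem xx_cost {m : ℕ} (n : ℕ) (hn : 2 ≤ n) (t : Fin m → ℝ) (z : Fin m → ℂ)
    (ht : ∀ i, 0 ≤ t i) (hz : ∀ i, ‖z i‖ = 1) (i : Fin m) :
    ∑ s ∈ range n, xx n t z i s * ‖z i - om n ^ s‖ ^ 2 ≤ t i * (10 / (n : ℝ) ^ 2) := by
  unfold xx
  have h1 : ∀ s, cc n * t i * ‖GG n (z i * conj (om n ^ s))‖ ^ 2 * ‖z i - om n ^ s‖ ^ 2 =
      cc n * t i * (‖GG n (z i * conj (om n ^ s))‖ ^ 2 * ‖z i - om n ^ s‖ ^ 2) := by
    intro s; ring
  simp_rw [h1]
  rw [← Finset.mul_sum, GG_cost n (by omega) (z i) (hz i)]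
  calc cc n * t i * (n * ∑ j ∈ range n, (aa n j - aa n (j + 1)) ^ 2)
      = t i * (cc n * (n * ∑ j ∈ range n, (aa n j - aa n (j + 1)) ^ 2)) := by ring
    _ ≤ t i * (10 / (n : ℝ) ^ 2) := mul_le_mul_of_nonneg_left (cc_cost n hn) (ht i)

theorem xx_col {m : ℕ} (n : ℕ) (hn : 2 ≤ n) (t : Fin m → ℝ) (z : Fin m → ℂ)
    (hz : ∀ i, ‖z i‖ = 1) (T δ : ℝ)
    (hT : ∑ i, t i = T) (h : ∀ k : ℕ, 0 < k → k ≤ n → ‖∑ i, (t i : ℂ) * z i ^ k‖ ≤ δ) (hδ : 0 ≤ δ)
    (s : ℕ) : |∑ i, xx n t z i s - T / n| ≤ δ := by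
  have hn0 : n ≠ 0 := by omega
  have hnr : (0 : ℝ) < n := by exact_mod_cast (by omega : 0 < n)
  set w : ℂ := om n ^ s with hw
  have hwn : ‖w‖ = 1 := by rw [hw, norm_pow, om_norm n hn0, one_pow]
  have hww : conj w * w = 1 := by rw [mul_comm, Complex.mul_conj', hwn]; simp
  have e1 : ((∑ i, xx n t z i s : ℝ) : ℂ) = (cc n : ℂ) * ∑ j ∈ range n, ∑ k ∈ range n,
      (aa n j : ℂ) * (aa n k : ℂ) * (conj w ^ j * w ^ k) *
        ∑ i, (t i : ℂ) * (z i ^ j * conj (z i) ^ k) := by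
    rw [Complex.ofReal_sum]
    have h1 : ∀ i, ((xx n t z i s : ℝ) : ℂ) =
        ∑ j ∈ range n, ∑ k ∈ range n, (cc n : ℂ) * ((aa n j : ℂ) * (aa n k : ℂ) *
          (conj w ^ j * w ^ k) * ((t i : ℂ) * (z i ^ j * conj (z i) ^ k))) := by
      intro i
      unfold xx
      rw [← hw, Complex.ofReal_mul, GG_sq, Finset.mul_sum]
      refine Finset.sum_congr rfl fun j _ => ?_
      rw [Finset.mul_sum]
      refine Finset.sum_congr rfl fun k _ => ?_
      simp only [map_mul, Complex.conj_conj, mul_pow]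
      push_cast
      ring
    simp_rw [h1]
    rw [Finset.sum_comm, Finset.mul_sum]
    refine Finset.sum_congr rfl fun j _ => ?_
    rw [Finset.sum_comm, Finset.mul_sum]
    refine Finset.sum_congr rfl fun k _ => ?_
    rw [Finset.mul_sum, Finset.mul_sum]
  have e2 : ((T / n : ℝ) : ℂ) = (cc n : ℂ) * ∑ j ∈ range n, ∑ k ∈ range n,
      (aa n j : ℂ) * (aa n k : ℂ) * (conj w ^ j * w ^ k) * (if j = k then (T : ℂ) else 0) := by
    have h1 : ∀ j ∈ range n, ∑ k ∈ range n,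
        (aa n j : ℂ) * (aa n k : ℂ) * (conj w ^ j * w ^ k) * (if j = k then (T : ℂ) else 0) =
        ((aa n j ^ 2 : ℝ) : ℂ) * T := by
      intro j hj
      rw [Finset.sum_eq_single_of_mem j hj]
      · rw [if_pos rfl, ← mul_pow, hww, one_pow]
        push_cast; ring
      · intro k _ hkj
        rw [if_neg (Ne.symm hkj), mul_zero]
    rw [Finset.sum_congr rfl h1, ← Finset.sum_mul, ← Complex.ofReal_sum, ← Complex.ofReal_mul,
      ← Complex.ofReal_mul]
    congr 1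
    have h2 := cc_mul n hn
    have h3 : cc n * ((∑ j ∈ range n, (aa n j) ^ 2) * T) * n =
        (cc n * (n * ∑ j ∈ range n, (aa n j) ^ 2)) * T := by ring
    rw [h2, one_mul] at h3
    rw [div_eq_iff hnr.ne', h3]
  have e3 : |∑ i, xx n t z i s - T / n| = ‖((∑ i, xx n t z i s - T / n : ℝ) : ℂ)‖ := by
    rw [Complex.norm_real, Real.norm_eq_abs]
  have e4 : ((∑ i, xx n t z i s : ℝ) : ℂ) - ((T / n : ℝ) : ℂ) =
      (cc n : ℂ) * ∑ j ∈ range n, ∑ k ∈ range n,
        (aa n j : ℂ) * (aa n k : ℂ) * (conj w ^ j * w ^ k) *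
      (∑ i, (t i : ℂ) * (z i ^ j * conj (z i) ^ k) - (if j = k then (T : ℂ) else 0)) := by
    rw [e1, e2, ← mul_sub, ← Finset.sum_sub_distrib]
    congr 1
    refine Finset.sum_congr rfl fun j _ => ?_
    rw [← Finset.sum_sub_distrib]
    refine Finset.sum_congr rfl fun k _ => ?_
    rw [mul_sub]
  rw [e3, Complex.ofReal_sub, e4]
  rw [norm_mul, Complex.norm_real, Real.norm_eq_abs, abs_of_pos (cc_pos n hn)]
  have h4 : ‖∑ j ∈ range n, ∑ k ∈ range n, (aa n j : ℂ) * (aa n k : ℂ) * (conj w ^ j * w ^ k) *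
      (∑ i, (t i : ℂ) * (z i ^ j * conj (z i) ^ k) - (if j = k then (T : ℂ) else 0))‖ ≤
      ∑ j ∈ range n, ∑ k ∈ range n, aa n j * aa n k * δ := by
    refine (norm_sum_le _ _).trans (Finset.sum_le_sum fun j hj => ?_)
    refine (norm_sum_le _ _).trans (Finset.sum_le_sum fun k hk => ?_)
    have hj' := mem_range.1 hj
    have hk' := mem_range.1 hk
    rw [norm_mul, norm_mul, norm_mul, norm_mul, norm_pow, norm_pow, RCLike.norm_conj, hwn,
      one_pow, one_pow, mul_one, mul_one, Complex.norm_real, Complex.norm_real,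
      Real.norm_eq_abs, Real.norm_eq_abs, abs_of_nonneg (aa_nonneg n j hj'),
      abs_of_nonneg (aa_nonneg n k hk')]
    exact mul_le_mul_of_nonneg_left (moments t z hz n T δ hT h hδ j k hj' hk')
      (mul_nonneg (aa_nonneg n j hj') (aa_nonneg n k hk'))
  have h5 : ∑ j ∈ range n, ∑ k ∈ range n, aa n j * aa n k * δ =
      (∑ j ∈ range n, aa n j) ^ 2 * δ := by
    rw [sq, Finset.sum_mul_sum, Finset.sum_mul]
    refine Finset.sum_congr rfl fun j _ => ?_
    rw [Finset.sum_mul]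
  have h6 : (∑ j ∈ range n, aa n j) ^ 2 ≤ n * ∑ j ∈ range n, (aa n j) ^ 2 := by
    have := sq_sum_le_card_mul_sum_sq (s := range n) (f := fun j => aa n j)
    rwa [card_range] at this
  rw [h5] at h4
  refine (mul_le_mul_of_nonneg_left h4 (cc_pos n hn).le).trans ?_
  calc cc n * ((∑ j ∈ range n, aa n j) ^ 2 * δ)
      ≤ cc n * ((n * ∑ j ∈ range n, (aa n j) ^ 2) * δ) :=
        mul_le_mul_of_nonneg_left (mul_le_mul_of_nonneg_right h6 hδ) (cc_pos n hn).le
    _ = (cc n * (n * ∑ j ∈ range n, (aa n j) ^ 2)) * δ := by ring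
    _ = δ := by rw [cc_mul n hn, one_mul]

theorem dist4 (z w : ℂ) (hz : ‖z‖ = 1) (hw : ‖w‖ = 1) : ‖z - w‖ ^ 2 ≤ 4 := by
  have h1 := norm_sub_le z w
  rw [hz, hw] at h1
  have h0 := norm_nonneg (z - w)
  nlinarith

/-- the statement in terms of the powers of the root of unity -/
theorem main (n : ℕ) (hn : 2 ≤ n) (T : ℝ) (m : ℕ) (t : Fin m → ℝ) (z : Fin m → ℂ)
    (hz : ∀ i, ‖z i‖ = 1) (hT1 : T ≤ 1) (ht : ∀ i, 0 ≤ t i) (hT : ∑ i, t i = T)
    (h : ∀ k : ℕ, 0 < k → k ≤ n → ‖∑ i, (t i : ℂ) * z i ^ k‖ ≤ 1 / (n : ℝ) ^ 5) :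
    ∃ y : Fin m → ℕ → ℝ, (∀ i s, 0 ≤ y i s) ∧ (∀ i, ∑ s ∈ range n, y i s = t i) ∧
      (∀ s, ∑ i, y i s = T / n) ∧
      ∑ i, ∑ s ∈ range n, y i s * ‖z i - om n ^ s‖ ^ 2 ≤ (10 / (n : ℝ)) ^ 2 := by
  have hn0 : n ≠ 0 := by omega
  have hn2 : (2 : ℝ) ≤ n := by exact_mod_cast hn
  have hnr : (0 : ℝ) < n := by linarith
  have hd : ∀ i s, ‖z i - om n ^ s‖ ^ 2 ≤ 4 := by
    intro i s
    exact dist4 _ _ (hz i) (by rw [norm_pow, om_norm n hn0, one_pow])
  by_cases hTs : T ≤ 25 / (n : ℝ) ^ 2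
  · refine ⟨fun i _ => t i / n, fun i _ => div_nonneg (ht i) hnr.le, ?_, ?_, ?_⟩
    · intro i
      rw [Finset.sum_const, card_range, nsmul_eq_mul]
      field_simp
    · intro s
      rw [← Finset.sum_div, hT]
    · have h1 : ∑ i, ∑ s ∈ range n, t i / n * ‖z i - om n ^ s‖ ^ 2 ≤
          ∑ i, ∑ s ∈ range n, t i / n * 4 :=
        Finset.sum_le_sum fun i _ => Finset.sum_le_sum fun s _ =>
          mul_le_mul_of_nonneg_left (hd i s) (div_nonneg (ht i) hnr.le)
      have h2 : ∑ i, ∑ s ∈ range n, t i / n * 4 = 4 * T := by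
        rw [← hT, Finset.mul_sum]
        refine Finset.sum_congr rfl fun i _ => ?_
        rw [Finset.sum_const, card_range, nsmul_eq_mul]
        field_simp
      rw [h2] at h1
      refine h1.trans ?_
      have h3 : (10 / (n : ℝ)) ^ 2 = 4 * (25 / (n : ℝ) ^ 2) := by
        rw [div_pow]; ring
      rw [h3]
      linarith
  · have hTs' : 25 / (n : ℝ) ^ 2 < T := not_le.1 hTs
    have hTp : 0 < T := lt_trans (by positivity) hTs'
    set X : ℕ → ℝ := fun s => ∑ i, xx n t z i s with hX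
    set q : ℕ → ℝ := fun s => (T / n - X s) / T with hq
    have hXs : ∑ s ∈ range n, X s = T := by
      rw [hX, Finset.sum_comm, ← hT]
      exact Finset.sum_congr rfl fun i _ => xx_row n hn t z hz i
    have hqb : ∀ s, |q s| ≤ 1 / (n : ℝ) ^ 3 := by
      intro s
      have h1 := xx_col n hn t z hz T (1 / (n : ℝ) ^ 5) hT h (by positivity) s
      rw [hq]
      simp only
      rw [abs_div, abs_of_pos hTp, div_le_iff₀ hTp, abs_sub_comm]
      refine h1.trans ?_
      have h2 : 1 / (n : ℝ) ^ 5 = 1 / (n : ℝ) ^ 3 * (1 / (n : ℝ) ^ 2) := by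
        field_simp
      rw [h2]
      refine mul_le_mul_of_nonneg_left ?_ (by positivity)
      have h3 : 1 / (n : ℝ) ^ 2 ≤ 25 / (n : ℝ) ^ 2 := by
        apply div_le_div_of_nonneg_right (by norm_num) (by positivity)
      linarith
    have hqs : ∑ s ∈ range n, q s = 0 := by
      rw [hq]
      simp only
      rw [← Finset.sum_div, Finset.sum_sub_distrib, hXs, Finset.sum_const, card_range,
        nsmul_eq_mul]
      have : (n : ℝ) * (T / n) = T := by field_simp
      rw [this, sub_self, zero_div]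
    set a : ℝ := 1 / (n : ℝ) ^ 2 with ha
    have ha0 : 0 < a := by positivity
    have ha1 : a ≤ 1 := by
      rw [ha, div_le_one (by positivity)]
      nlinarith
    have han : a / n = 1 / (n : ℝ) ^ 3 := by
      rw [ha]; field_simp
    have hqa : ∀ s, -(1 / (n : ℝ) ^ 3) ≤ (1 - a) * q s ∧ (1 - a) * q s ≤ 1 / (n : ℝ) ^ 3 := by
      intro s
      have h1 := abs_le.1 (hqb s)
      have h2 : (0 : ℝ) < 1 / (n : ℝ) ^ 3 := by positivity
      have h3 : |(1 - a) * q s| ≤ 1 / (n : ℝ) ^ 3 := by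
        rw [abs_mul, abs_of_nonneg (by linarith : (0 : ℝ) ≤ 1 - a)]
        calc (1 - a) * |q s| ≤ 1 * |q s| :=
              mul_le_mul_of_nonneg_right (by linarith) (abs_nonneg _)
          _ ≤ 1 / (n : ℝ) ^ 3 := by rw [one_mul]; exact hqb s
      exact abs_le.1 h3
    refine ⟨fun i s => (1 - a) * xx n t z i s + t i * (a / n + (1 - a) * q s), ?_, ?_, ?_, ?_⟩
    · intro i s
      have h1 := xx_nonneg n hn t z ht i s
      have h2 := (hqa s).1
      have h3 : 0 ≤ a / n + (1 - a) * q s := by rw [han]; linarith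
      exact add_nonneg (mul_nonneg (by linarith) h1) (mul_nonneg (ht i) h3)
    · intro i
      rw [Finset.sum_add_distrib, ← Finset.mul_sum, ← Finset.mul_sum, Finset.sum_add_distrib,
        ← Finset.mul_sum, hqs, xx_row n hn t z hz i, Finset.sum_const, card_range, nsmul_eq_mul]
      have : (n : ℝ) * (a / n) = a := by field_simp
      rw [this]; ring
    · intro s
      rw [Finset.sum_add_distrib, ← Finset.mul_sum, ← Finset.sum_mul, hT]
      have h1 : T * q s = T / n - X s := by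
        rw [hq]
        simp only
        field_simp
      have h2 : ∑ i, xx n t z i s = X s := rfl
      rw [h2]
      calc (1 - a) * X s + T * (a / n + (1 - a) * q s)
          = (1 - a) * X s + T * a / n + (1 - a) * (T * q s) := by ring
        _ = T / n := by rw [h1]; ring
    · have h1 : ∀ i, ∑ s ∈ range n, ((1 - a) * xx n t z i s + t i * (a / n + (1 - a) * q s)) *
          ‖z i - om n ^ s‖ ^ 2 ≤ t i * (18 / (n : ℝ) ^ 2) := by
        intro i
        have h2 : ∀ s ∈ range n, ((1 - a) * xx n t z i s + t i * (a / n + (1 - a) * q s)) *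
            ‖z i - om n ^ s‖ ^ 2 ≤ xx n t z i s * ‖z i - om n ^ s‖ ^ 2 +
              t i * (8 / (n : ℝ) ^ 3) := by
          intro s _
          have h3 := xx_nonneg n hn t z ht i s
          have h4 := hqa s
          have h5 := hd i s
          have h6 : 0 ≤ ‖z i - om n ^ s‖ ^ 2 := by positivity
          have h7 : 0 ≤ a / n + (1 - a) * q s := by rw [han]; linarith
          have h8 : a / n + (1 - a) * q s ≤ 2 / (n : ℝ) ^ 3 := by
            rw [han]
            have : 2 / (n : ℝ) ^ 3 = 1 / (n : ℝ) ^ 3 + 1 / (n : ℝ) ^ 3 := by ring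
            linarith
          rw [add_mul]
          have h9 : (1 - a) * xx n t z i s * ‖z i - om n ^ s‖ ^ 2 ≤
              xx n t z i s * ‖z i - om n ^ s‖ ^ 2 := by
            refine mul_le_mul_of_nonneg_right ?_ h6
            nlinarith
          have h10 : t i * (a / n + (1 - a) * q s) * ‖z i - om n ^ s‖ ^ 2 ≤
              t i * (8 / (n : ℝ) ^ 3) := by
            rw [mul_assoc]
            refine mul_le_mul_of_nonneg_left ?_ (ht i)
            calc (a / n + (1 - a) * q s) * ‖z i - om n ^ s‖ ^ 2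
                ≤ (2 / (n : ℝ) ^ 3) * 4 :=
                  mul_le_mul h8 h5 h6 (by positivity)
              _ = 8 / (n : ℝ) ^ 3 := by ring
          linarith
        refine (Finset.sum_le_sum h2).trans ?_
        rw [Finset.sum_add_distrib, Finset.sum_const, card_range, nsmul_eq_mul]
        have h11 := xx_cost n hn t z ht hz i
        have h12 : (n : ℝ) * (t i * (8 / (n : ℝ) ^ 3)) = t i * (8 / (n : ℝ) ^ 2) := by
          field_simp
        rw [h12]
        have h13 : t i * (18 / (n : ℝ) ^ 2) = t i * (10 / (n : ℝ) ^ 2) + t i * (8 / (n : ℝ) ^ 2) := by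
          ring
        rw [h13]
        linarith
      refine (Finset.sum_le_sum fun i _ => h1 i).trans ?_
      rw [← Finset.sum_mul, hT]
      have h14 : (10 / (n : ℝ)) ^ 2 = 100 / (n : ℝ) ^ 2 := by rw [div_pow]; norm_num
      rw [h14]
      calc T * (18 / (n : ℝ) ^ 2) ≤ 1 * (18 / (n : ℝ) ^ 2) :=
            mul_le_mul_of_nonneg_right hT1 (by positivity)
        _ ≤ 100 / (n : ℝ) ^ 2 := by
            rw [one_mul]
            exact div_le_div_of_nonneg_right (by norm_num) (by positivity)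

end ARCx

theorem p_ARC : S_ARC := by
  intro n hn
  rcases Nat.lt_or_ge n 2 with h1 | h2
  · obtain rfl : n = 1 := by omega
    refine ⟨0, 1, one_pos, ?_⟩
    intro T m t l hT0 hT1 ht hT _
    refine ⟨fun i _ => t i, fun i _ => ht i, ?_, ?_, ?_⟩
    · intro i
      simp
    · intro s
      rw [hT]; simp
    · have h3 : ∀ (i : Fin m) (s : Fin 1), t i * ‖Complex.exp (l i * Complex.I) -
          Complex.exp (2 * Real.pi * (s : ℕ) / (1 : ℕ) * Complex.I)‖ ^ 2 ≤ t i * 4 := by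
        intro i s
        refine mul_le_mul_of_nonneg_left (ARCx.dist4 _ _ ?_ ?_) (ht i)
        · exact Complex.norm_exp_ofReal_mul_I (l i)
        · have : (2 * Real.pi * (s : ℕ) / (1 : ℕ) * Complex.I : ℂ) =
              ((2 * Real.pi * (s : ℕ) / (1 : ℕ) : ℝ) : ℂ) * Complex.I := by push_cast; ring
          rw [this]
          exact Complex.norm_exp_ofReal_mul_I _
      refine (Finset.sum_le_sum fun i _ => Finset.sum_le_sum fun s _ => h3 i s).trans ?_
      simp only [Finset.sum_const, Finset.card_univ, Fintype.card_fin, one_smul]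
      rw [← Finset.sum_mul, hT]
      norm_num
      linarith
  · refine ⟨n, 1 / (n : ℝ) ^ 5, by positivity, ?_⟩
    intro T m t l hT0 hT1 ht hT hk
    have hz : ∀ i, ‖Complex.exp (l i * Complex.I)‖ = 1 :=
      fun i => Complex.norm_exp_ofReal_mul_I (l i)
    have hk' : ∀ k : ℕ, 0 < k → k ≤ n →
        ‖∑ i, (t i : ℂ) * Complex.exp (l i * Complex.I) ^ k‖ ≤ 1 / (n : ℝ) ^ 5 := by
      intro k h0 h1
      have := hk k h0 h1
      have e : ∀ i, Complex.exp (l i * Complex.I) ^ k = Complex.exp (k * l i * Complex.I) := by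
        intro i
        rw [← Complex.exp_nat_mul]
        congr 1
        ring
      simp_rw [e]
      exact this
    obtain ⟨y, y1, y2, y3, y4⟩ := ARCx.main n h2 T m t (fun i => Complex.exp (l i * Complex.I)) hz
      hT1 ht hT hk'
    refine ⟨fun i s => y i s, fun i s => y1 i s, ?_, fun s => y3 s, ?_⟩
    · intro i
      rw [← y2 i]
      exact Fin.sum_univ_eq_sum_range (fun s => y i s) n
    · refine le_trans (le_of_eq ?_) y4
      refine Finset.sum_congr rfl fun i _ => ?_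
      rw [← Fin.sum_univ_eq_sum_range
        (fun s => y i s * ‖Complex.exp (l i * Complex.I) - ARCx.om n ^ s‖ ^ 2) n]
      refine Finset.sum_congr rfl fun s _ => ?_
      have : Complex.exp (2 * Real.pi * (s : ℕ) / n * Complex.I) = ARCx.om n ^ (s : ℕ) := by
        unfold ARCx.om
        rw [← Complex.exp_nat_mul]
        congr 1
        ring
      rw [this]

end Pool.Agent.H518R5.SC
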