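import Pool.Agent.H518R5.SC.Stubs
import Pool.Agent.Helper520.CD.Myc

set_option autoImplicit false

open Filter

noncomputable section

namespace Pool.Agent.H518R5.SC

open Pool.Agent.H467F Pool.Agent.H518R4.UG

theorem baire_aux {G : Type} [MetricSpace G] [CompleteSpace G] [Nonempty G]
    (A : Type) [CStarAlgebra A] (τ : A →ₗ[ℂ] ℂ) (p : A) (f : G → A)
    (hdist : ∀ u v : G, dist u v = n2 τ (f u - f v)) (hf : ∀ g, HC τ p (f g))
    (hs : ∀ u, HC τ p u → ∃ g, f g = u)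
    (hC : ∀ n u v, (∀ δ : ℝ, 0 < δ → ∃ u' v' : A, n2 τ (u - u') ≤ δ ∧ n2 τ (v - v') ≤ δ ∧
      CC τ p n u' v') → CC τ p n u v) :
    (∃ (n : ℕ) (u₀ v₀ : A) (r : ℝ), 0 < r ∧ HC τ p u₀ ∧ HC τ p v₀ ∧
      ∀ u v, HC τ p u → HC τ p v → n2 τ (u - u₀) < r → n2 τ (v - v₀) < r → CC τ p n u v) ∨
    ∃ h : (ℕ → Bool) → A, (∀ b, HC τ p (h b)) ∧
      ∀ b b', b ≠ b' → ∀ n, ¬ CC τ p n (h b) (h b') := by
  let W : ℕ → Set (G × G) := fun n => {q | ¬ CC τ p n (f q.1) (f q.2)}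
  have hWo : ∀ n, IsOpen (W n) := by
    intro n
    rw [Metric.isOpen_iff]
    intro q hq
    by_contra hcon
    push Not at hcon
    apply hq
    refine hC n _ _ fun δ hδ => ?_
    obtain ⟨q', hq', hq'W⟩ := Set.not_subset.1 (hcon δ hδ)
    have hd : dist q' q < δ := hq'
    rw [Prod.dist_eq, max_lt_iff] at hd
    refine ⟨f q'.1, f q'.2, ?_, ?_, ?_⟩
    · rw [n2_sub_comm, ← hdist]; exact hd.1.le
    · rw [n2_sub_comm, ← hdist]; exact hd.2.le
    · by_contra h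
      exact hq'W h
  by_cases hd : ∀ n, Dense (W n)
  · right
    obtain ⟨h, hh⟩ := Pool.Agent.Helper520.CD.mycielski W hWo hd
    exact ⟨fun b => f (h b), fun b => hf (h b), fun b b' hbb n => hh b b' hbb n⟩
  · left
    push Not at hd
    obtain ⟨n, hn⟩ := hd
    rw [Metric.dense_iff] at hn
    push Not at hn
    obtain ⟨x, r, hr, hx⟩ := hn
    refine ⟨n, f x.1, f x.2, r, hr, hf _, hf _, fun u v hu hv hur hvr => ?_⟩
    by_contra hcc
    obtain ⟨gu, rfl⟩ := hs u hu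
    obtain ⟨gv, rfl⟩ := hs v hv
    have hmem : (gu, gv) ∈ Metric.ball x r ∩ W n := by
      refine ⟨?_, hcc⟩
      rw [Metric.mem_ball, Prod.dist_eq, max_lt_iff, hdist, hdist]
      exact ⟨hur, hvr⟩
    rw [hx] at hmem
    exact hmem

theorem p_BAIRE (hM : S_METRIC) (hC : S_CLOSED) : S_BAIRE := by
  intro A _ τ hτ p hp hne
  obtain ⟨m, hm, hcomp⟩ := hM A τ hτ p hp
  have hn : Nonempty {u : A // HC τ p u} := by
    obtain ⟨u, hu⟩ := hne
    exact ⟨⟨u, hu⟩⟩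
  exact @baire_aux {u : A // HC τ p u} m hcomp hn A _ τ p (fun u => (u : A)) hm
    (fun g => g.2) (fun u hu => ⟨⟨u, hu⟩, rfl⟩) (hC A τ hτ p hp)

end Pool.Agent.H518R5.SC
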