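import Pool.Agent.H518R5.SC.Stubs

/-!
At most continuum many elements
-/

set_option autoImplicit false

open scoped ComplexOrder Topology InnerProductSpace
open Filter

noncomputable section

namespace Pool.Agent.H518R5.SC

open Pool.Agent.H467F Pool.Agent.H518R4.UG

theorem p_CARD : S_CARD := by
  intro A _ τ h hs
  obtain ⟨s, hs⟩ := hs
  have h1 : ∀ (x : A) (k : ℕ), ∃ n, n2 τ (x - s n) < 1 / ((k : ℝ) + 1) := fun x k =>
    hs x _ Nat.one_div_pos_of_nat
  choose f hf using h1
  have hinj : Function.Injective f := by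
    intro x y hxy
    have h2 : ∀ k : ℕ, n2 τ (x - y) < 2 * (1 / ((k : ℝ) + 1)) := by
      intro k
      have h3 := hf x k
      have h4 := hf y k
      rw [← hxy] at h4
      have h5 := h.n2_tri x (s (f x k)) y
      have h6 : n2 τ (s (f x k) - y) = n2 τ (y - s (f x k)) := by
        unfold n2
        rw [← neg_sub y, star_neg, neg_mul_neg]
      rw [h6] at h5
      linarith
    have h7 : n2 τ (x - y) ≤ 0 := by
      have h8 : Tendsto (fun k : ℕ => 2 * (1 / ((k : ℝ) + 1))) atTop (𝓝 (2 * 0)) :=
        tendsto_one_div_add_atTop_nhds_zero_nat.const_mul 2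
      rw [mul_zero] at h8
      exact ge_of_tendsto' h8 fun k => (h2 k).le
    have h9 := h.eq_zero (le_antisymm h7 (n2_nonneg _ _))
    exact sub_eq_zero.1 h9
  have h10 := Cardinal.mk_le_of_injective hinj
  refine h10.trans ?_
  simp

end Pool.Agent.H518R5.SC
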