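import Mathlib
import Pool.Agent.H518R4.UG.Defs

/-!
Sequential commutation orbits of corners (MP_52dd0f_an): definitions.
-/

set_option autoImplicit false

open scoped ComplexOrder Topology
open Filter

noncomputable section

namespace Pool.Agent.H518R5.SC

open Pool.Agent.H467F Pool.Agent.H518R4.UG

section defs

variable {A : Type} [CStarAlgebra A]

/-- `u` is a unitary of the corner `pAp` (`p` a projection). -/
def UC (p u : A) : Prop := star u * u = p ∧ u * star u = p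

/-- `u` is a Haar unitary of the corner `pAp`: a unitary of `pAp` whose powers have trace `0`. -/
def HC (τ : A →ₗ[ℂ] ℂ) (p u : A) : Prop := UC p u ∧ ∀ k : ℕ, 0 < k → τ (u ^ k) = 0

/-- The sequence `w` of unitaries of `pAp` represents a Haar unitary of the ultrapower of `pAp`. -/
def HaarU (τ : A →ₗ[ℂ] ℂ) (U : Ultrafilter ℕ) (p : A) (w : ℕ → A) : Prop :=
  (∀ n, UC p (w n)) ∧ ∀ k : ℕ, 0 < k → Tendsto (fun n => τ (w n ^ k)) (U : Filter ℕ) (𝓝 0)

/-- The elements of the ultrapower represented by the sequences `x` and `y` commute. -/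
def CommU (τ : A →ₗ[ℂ] ℂ) (U : Ultrafilter ℕ) (x y : ℕ → A) : Prop :=
  Tendsto (fun n => n2 τ (x n * y n - y n * x n)) (U : Filter ℕ) (𝓝 0)

/-- There are Haar unitaries `w 0, …, w n` of the ultrapower of `pAp` with
`[u, w 0] = [w 0, w 1] = ⋯ = [w n, v] = 0`. -/
def Joined (τ : A →ₗ[ℂ] ℂ) (U : Ultrafilter ℕ) (p u v : A) : Prop :=
  ∃ (n : ℕ) (w : Fin (n + 1) → ℕ → A), (∀ i, HaarU τ U p (w i)) ∧
    CommU τ U (fun _ => u) (w 0) ∧ (∀ i : Fin n, CommU τ U (w i.castSucc) (w i.succ)) ∧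
    CommU τ U (w (Fin.last n)) (fun _ => v)

/-- The set of sequential commutation orbits of the corner `pAp`. -/
def Orb (τ : A →ₗ[ℂ] ℂ) (U : Ultrafilter ℕ) (p : A) : Type :=
  Quot (fun u v : {u : A // HC τ p u} => Joined τ U p u v)

/-- `ε`-approximate chains with `n + 1` members in the corner of `p`. -/
def AC (τ : A →ₗ[ℂ] ℂ) (p : A) (n : ℕ) (ε : ℝ) (u v : A) : Prop :=
  ∃ w : Fin (n + 1) → A, (∀ i, UC p (w i)) ∧
    (∀ i, ∀ k : ℕ, 0 < k → (k : ℝ) * ε ≤ 1 → ‖τ (w i ^ k)‖ ≤ ε) ∧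
    n2 τ (cm u (w 0)) ≤ ε ∧ (∀ i : Fin n, n2 τ (cm (w i.castSucc) (w i.succ)) ≤ ε) ∧
    n2 τ (cm (w (Fin.last n)) v) ≤ ε

/-- There are `ε`-approximate chains with `n + 1` members for every `ε`. -/
def CC (τ : A →ₗ[ℂ] ℂ) (p : A) (n : ℕ) (u v : A) : Prop := ∀ ε : ℝ, 0 < ε → AC τ p n ε u v

/-- All Haar unitaries of the corner are connected, with a uniform bound. -/
def Uni (τ : A →ₗ[ℂ] ℂ) (p : A) : Prop :=
  ∃ L : ℕ, ∀ u v : A, HC τ p u → HC τ p v → CC τ p L u v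

/-- A II_1 factor, with the properties that are used. -/
structure II (τ : A →ₗ[ℂ] ℂ) : Prop where
  fct : Fct τ
  fs2 : ∀ e : A, IsPrj e → ∀ a : A, star a = a → e * a = a → ∀ δ : ℝ, 0 < δ →
    ∃ (n : ℕ) (q : Fin n → A) (l : Fin n → ℝ), IsPart q e ∧ ‖a - ∑ i, (l i : ℂ) • q i‖ ≤ δ ∧
      ∀ (i : Fin n) (x : A), a * x = x * a → e * x = x * e → q i * x = x * q i
  pol : ∀ x : A, ∃ v a : A, star a = a ∧ a * a = star x * x ∧ v * a = x ∧
    IsPrj (star v * v) ∧ IsPrj (v * star v) ∧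
    (∀ f : A, IsPrj f → f * x = x → f * v = v) ∧
    (∀ e : A, IsPrj e → x * e = x → v * e = v ∧ a * e = a) ∧
    (star v * v * a = a) ∧
    ∀ y : A, star x * x * y = y * (star x * x) → a * y = y * a

/-- The fixed `2 × 2` unitary of the corner of `p + star s * s` (with `s * star s ≤ p`). -/
def PP (p s : A) : A :=
  ((Real.sqrt 2 : ℝ) : ℂ)⁻¹ • (s * star s + s - Complex.I • star s + Complex.I • (star s * s)) +
    (p - s * star s)

/-- Separable in the 2-norm. -/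
def Sep2 (τ : A →ₗ[ℂ] ℂ) : Prop :=
  ∃ s : ℕ → A, ∀ x : A, ∀ ε : ℝ, 0 < ε → ∃ n, n2 τ (x - s n) < ε

end defs

end Pool.Agent.H518R5.SC
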