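import Mathlib
import Pool.Agent.H518R5.SC.Defs

/-!
Sequential commutation orbits of corners (MP_52dd0f_an): exact statements of the tasks (table
h518s_tasks).  For each `S_X` the task is to prove `theorem p_X (…) : S_X`, where the hypotheses
`…` are the statements `S_Y` listed in the note of the task.
-/

set_option autoImplicit false

open scoped ComplexOrder Topology InnerProductSpace
open Filter

noncomputable section

namespace Pool.Agent.H518R5.SC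

open Pool.Agent.H467F Pool.Agent.H518R4.UG

/-! ### Block A: chains -/

/-- JOIN: chains in the ultrapower are approximate chains. -/
def S_JOIN : Prop :=
  ∀ (A : Type) [CStarAlgebra A] (τ : A →ₗ[ℂ] ℂ), TW τ →
    ∀ U : Ultrafilter ℕ, (U : Filter ℕ) ≤ Filter.cofinite → ∀ p u v : A, IsPrj p →
    (Joined τ U p u v ↔ ∃ n, CC τ p n u v)

/-- REFL: reflexivity and symmetry. -/
def S_REFL : Prop :=
  ∀ (A : Type) [CStarAlgebra A] (τ : A →ₗ[ℂ] ℂ), TW τ → ∀ p : A, IsPrj p →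
    (∀ u, HC τ p u → CC τ p 0 u u) ∧
    (∀ u x, HC τ p u → u * x = x * u → CC τ p 0 u x) ∧
    ∀ n u v, CC τ p n u v → CC τ p n v u

/-- TRANS: concatenation of chains. -/
def S_TRANS : Prop :=
  ∀ (A : Type) [CStarAlgebra A] (τ : A →ₗ[ℂ] ℂ), TW τ → ∀ p : A, IsPrj p →
    ∀ n m u v x, HC τ p v → CC τ p n u v → CC τ p m v x → CC τ p (n + m + 2) u x

/-- CONJ: chains can be conjugated. -/
def S_CONJ : Prop :=
  ∀ (A : Type) [CStarAlgebra A] (τ : A →ₗ[ℂ] ℂ), TW τ → ∀ p g : A, IsPrj p → UC p g →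
    (∀ u, HC τ p u → HC τ p (g * u * star g)) ∧
    ∀ n u v, UC p u → UC p v → CC τ p n u v → CC τ p n (g * u * star g) (g * v * star g)

/-- CLOSED: the relations are closed. -/
def S_CLOSED : Prop :=
  ∀ (A : Type) [CStarAlgebra A] (τ : A →ₗ[ℂ] ℂ), TW τ → ∀ p : A, IsPrj p → ∀ n u v,
    (∀ δ : ℝ, 0 < δ → ∃ u' v' : A, n2 τ (u - u') ≤ δ ∧ n2 τ (v - v') ≤ δ ∧ CC τ p n u' v') →
    CC τ p n u v

/-- EXT: enlarging the corner. -/
def S_EXT : Prop :=
  ∀ (A : Type) [CStarAlgebra A] (τ : A →ₗ[ℂ] ℂ), TW τ → ∀ p r a c b : A, IsPrj p → IsPrj r →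
    p * r = 0 → UC p a → UC p c → HC τ r b → ∀ n, CC τ p n a c → CC τ (p + r) n (a + b) (c + b)

/-- SUM: sums of Haar unitaries of orthogonal corners. -/
def S_SUM : Prop :=
  ∀ (A : Type) [CStarAlgebra A] (τ : A →ₗ[ℂ] ℂ), TW τ → ∀ p r a b s : A, IsPrj p → IsPrj r →
    p * r = 0 → (HC τ p a → HC τ r b → HC τ (p + r) (a + b)) ∧
    (HC τ p a → s * star s = p → star s * s = r → HC τ r (star s * a * s))

/-! ### Block B: Baire category -/

/-- METRIC: the Haar unitaries of a corner form a complete metric space. -/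
def S_METRIC : Prop :=
  ∀ (A : Type) [CStarAlgebra A] (τ : A →ₗ[ℂ] ℂ), TW τ → ∀ p : A, IsPrj p →
    ∃ m : MetricSpace {u : A // HC τ p u},
      (∀ u v : {u : A // HC τ p u}, m.dist u v = n2 τ ((u : A) - (v : A))) ∧
      @CompleteSpace {u : A // HC τ p u} m.toPseudoMetricSpace.toUniformSpace

/-- BAIRE: either an open set of connected pairs, or a Cantor set of pairwise inequivalent
elements. -/
def S_BAIRE : Prop :=
  ∀ (A : Type) [CStarAlgebra A] (τ : A →ₗ[ℂ] ℂ), TW τ → ∀ p : A, IsPrj p → (∃ u, HC τ p u) →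
    (∃ (n : ℕ) (u₀ v₀ : A) (r : ℝ), 0 < r ∧ HC τ p u₀ ∧ HC τ p v₀ ∧
      ∀ u v, HC τ p u → HC τ p v → n2 τ (u - u₀) < r → n2 τ (v - v₀) < r → CC τ p n u v) ∨
    ∃ h : (ℕ → Bool) → A, (∀ b, HC τ p (h b)) ∧
      ∀ b b', b ≠ b' → ∀ n, ¬ CC τ p n (h b) (h b')

/-- INTR: an open set of connected pairs gives a uniform bound for all pairs. -/
def S_INTR : Prop :=
  ∀ (A : Type) [CStarAlgebra A] (τ : A →ₗ[ℂ] ℂ), II τ → ∀ p : A, IsPrj p →
    (∃ (n : ℕ) (u₀ v₀ : A) (r : ℝ), 0 < r ∧ HC τ p u₀ ∧ HC τ p v₀ ∧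
      ∀ u v, HC τ p u → HC τ p v → n2 τ (u - u₀) < r → n2 τ (v - v₀) < r → CC τ p n u v) →
    Uni τ p

/-- CARD: there are at most continuum many elements. -/
def S_CARD : Prop :=
  ∀ (A : Type) [CStarAlgebra A] (τ : A →ₗ[ℂ] ℂ), TW τ → Sep2 τ → Cardinal.mk A ≤ Cardinal.continuum

/-! ### Block C: II_1 factors -/

/-- USP: unitaries are close to unitaries with finite spectrum. -/
def S_USP : Prop :=
  ∀ (A : Type) [CStarAlgebra A] (τ : A →ₗ[ℂ] ℂ), II τ → ∀ p u : A, IsPrj p → UC p u →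
    ∀ δ : ℝ, 0 < δ → ∃ (m : ℕ) (q : Fin m → A) (l : Fin m → ℝ), IsPart q p ∧
      ‖u - ∑ i, Complex.exp (l i * Complex.I) • q i‖ ≤ δ

/-- ARC: quantitative equidistribution (real analysis). -/
def S_ARC : Prop :=
  ∀ n : ℕ, 0 < n → ∃ (K : ℕ) (δ : ℝ), 0 < δ ∧ ∀ (T : ℝ) (m : ℕ) (t l : Fin m → ℝ), 0 ≤ T →
    T ≤ 1 → (∀ i, 0 ≤ t i) → ∑ i, t i = T →
    (∀ k : ℕ, 0 < k → k ≤ K → ‖∑ i, (t i : ℂ) * Complex.exp (k * l i * Complex.I)‖ ≤ δ) →
    ∃ y : Fin m → Fin n → ℝ, (∀ i s, 0 ≤ y i s) ∧ (∀ i, ∑ s, y i s = t i) ∧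
      (∀ s, ∑ i, y i s = T / n) ∧
      ∑ i, ∑ s, y i s * ‖Complex.exp (l i * Complex.I) -
        Complex.exp (2 * Real.pi * (s : ℕ) / n * Complex.I)‖ ^ 2 ≤ (10 / n) ^ 2

/-- SPLIT: projections can be divided in prescribed proportions. -/
def S_SPLIT : Prop :=
  ∀ (A : Type) [CStarAlgebra A] (τ : A →ₗ[ℂ] ℂ), II τ → ∀ e : A, IsPrj e →
    ∀ (n : ℕ) (x : Fin n → ℝ), 0 < n → (∀ s, 0 ≤ x s) → ∑ s, x s = (τ e).re →
    ∃ q : Fin n → A, IsPart q e ∧ ∀ s, τ (q s) = (x s : ℂ)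

/-- HP: Haar unitaries are close to unitaries of order `n` with equal spectral projections. -/
def S_HP : Prop :=
  ∀ (A : Type) [CStarAlgebra A] (τ : A →ₗ[ℂ] ℂ), II τ → ∀ p u : A, IsPrj p → HC τ p u →
    ∀ n : ℕ, 0 < n → ∃ q : Fin n → A, IsPart q p ∧ (∀ s, τ (q s) = τ p / n) ∧
      n2 τ (u - ∑ s : Fin n, Complex.exp (2 * Real.pi * (s : ℕ) / n * Complex.I) • q s) ≤ 20 / n

/-- CMP: comparison of projections. -/
def S_CMP : Prop :=
  ∀ (A : Type) [CStarAlgebra A] (τ : A →ₗ[ℂ] ℂ), II τ → ∀ p r : A, IsPrj p → IsPrj r →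
    (τ r).re ≤ (τ p).re → ∃ s : A, star s * s = r ∧ p * s = s ∧ IsPrj (s * star s) ∧
      ((τ r).re = (τ p).re → s * star s = p)

/-- EXTU: extension of partial isometries. -/
def S_EXTU : Prop :=
  ∀ (A : Type) [CStarAlgebra A] (τ : A →ₗ[ℂ] ℂ), II τ → ∀ e f t : A, IsPrj e → IsPrj f →
    IsPrj (star t * t) → IsPrj (t * star t) → t * e = t → f * t = t → (τ e).re ≤ (τ f).re →
    ∃ g : A, star g * g = e ∧ f * g = g ∧ IsPrj (g * star g) ∧ g * (star t * t) = t ∧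
      ((τ e).re = (τ f).re → g * star g = f)

/-- EQ: partitions with the same traces are conjugate. -/
def S_EQ : Prop :=
  ∀ (A : Type) [CStarAlgebra A] (τ : A →ₗ[ℂ] ℂ), II τ → ∀ (n : ℕ) (p : A) (q q' : Fin n → A),
    IsPrj p → IsPart q p → IsPart q' p → (∀ i, τ (q i) = τ (q' i)) →
    ∃ g : A, UC p g ∧ ∀ i, g * q i * star g = q' i

/-- DENSE: Haar unitaries of a corner are approximately conjugate. -/
def S_DENSE : Prop :=
  ∀ (A : Type) [CStarAlgebra A] (τ : A →ₗ[ℂ] ℂ), II τ → ∀ p u v : A, IsPrj p → HC τ p u →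
    HC τ p v → ∀ ε : ℝ, 0 < ε → ∃ g : A, UC p g ∧ n2 τ (g * u * star g - v) ≤ ε

/-- PATH: unitaries are connected to the unit in a bounded number of small steps. -/
def S_PATH : Prop :=
  ∀ ε : ℝ, 0 < ε → ∃ N : ℕ, ∀ (A : Type) [CStarAlgebra A] (τ : A →ₗ[ℂ] ℂ), II τ →
    ∀ p g : A, IsPrj p → UC p g → ∃ k : ℕ → A, k 0 = p ∧ (∀ i, UC p (k i)) ∧
      (∀ i, ‖k (i + 1) - k i‖ ≤ ε) ∧ k N = g

/-- EXH: corners contain Haar unitaries. -/
def S_EXH : Prop :=
  ∀ (A : Type) [CStarAlgebra A] (τ : A →ₗ[ℂ] ℂ), II τ → ∀ p : A, IsPrj p → ∃ u, HC τ p u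

/-! ### Block D: doubling -/

/-- PPU: the fixed `2 × 2` unitary. -/
def S_PPU : Prop :=
  ∀ (A : Type) [CStarAlgebra A] (p r s : A), IsPrj p → IsPrj r → p * r = 0 → star s * s = r →
    p * s = s → UC (p + r) (PP p s) ∧ IsPrj (s * star s) ∧
      (∀ a b, s * star s * a = a → a * (s * star s) = a → (s * star s) * b = 0 → b * (s * star s) = 0 →
        p * b = b → b * p = b →
        PP p s * (a + b + star s * a * s) = (a + b + star s * a * s) * PP p s) ∧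
      ∀ c g : A, star c = c → star g = g → r * c = c → r * g = g → c * g = g * c →
        c * c + g * g = r →
        UC (s * star s) (s * c * star s + Complex.I • (s * g * star s)) ∧
        PP p s * ((s * c * star s + Complex.I • (s * g * star s)) + (p - s * star s) +
          star s * star (s * c * star s + Complex.I • (s * g * star s)) * s) * star (PP p s) =
          c + g * star s - s * g + s * c * star s + (p - s * star s)

/-- CS: the cosine-sine decomposition. -/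
def S_CS : Prop :=
  ∀ (A : Type) [CStarAlgebra A] (τ : A →ₗ[ℂ] ℂ), II τ → ∀ p r s V : A, IsPrj p → IsPrj r →
    p * r = 0 → star s * s = r → p * s = s → UC (p + r) V →
    ∃ Y₁ Y₂ Z₁ d : A, UC p Y₁ ∧ UC r Y₂ ∧ UC p Z₁ ∧ UC (s * star s) d ∧
      V = (p + Y₂) * (Y₁ + r) *
        (PP p s * (d + (p - s * star s) + star s * star d * s) * star (PP p s)) * (Z₁ + r)

/-- DBL: doubling the corner. -/
def S_DBL : Prop :=
  ∀ (A : Type) [CStarAlgebra A] (τ : A →ₗ[ℂ] ℂ), II τ → ∀ p r : A, IsPrj p → IsPrj r →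
    p * r = 0 → (τ r).re ≤ (τ p).re → Uni τ p → Uni τ (p + r)

/-- MONO: from a corner to a larger corner. -/
def S_MONO : Prop :=
  ∀ (A : Type) [CStarAlgebra A] (τ : A →ₗ[ℂ] ℂ), II τ → ∀ p q : A, IsPrj p → IsPrj q →
    q * p = p → p ≠ 0 → Uni τ p → Uni τ q

/-! ### Block E: concrete II_1 factors -/

/-- FSC: finite spectrum approximation, with projections commuting with the commutant. -/
def S_FSC : Prop :=
  ∀ (H : Type) [NormedAddCommGroup H] [InnerProductSpace ℂ H] [CompleteSpace H]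
    (N : VonNeumannAlgebra H), ∀ e : Elt N, IsPrj e → ∀ a : Elt N, star a = a → e * a = a →
    ∀ δ : ℝ, 0 < δ →
    ∃ (n : ℕ) (q : Fin n → Elt N) (l : Fin n → ℝ), IsPart q e ∧ ‖a - ∑ i, (l i : ℂ) • q i‖ ≤ δ ∧
      ∀ (i : Fin n) (x : Elt N), a * x = x * a → e * x = x * e → q i * x = x * q i

/-- POLC: polar decomposition. -/
def S_POLC : Prop :=
  ∀ (H : Type) [NormedAddCommGroup H] [InnerProductSpace ℂ H] [CompleteSpace H]
    (N : VonNeumannAlgebra H), ∀ x : Elt N, ∃ v a : Elt N, star a = a ∧ a * a = star x * x ∧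
    v * a = x ∧ IsPrj (star v * v) ∧ IsPrj (v * star v) ∧
    (∀ f : Elt N, IsPrj f → f * x = x → f * v = v) ∧
    (∀ e : Elt N, IsPrj e → x * e = x → v * e = v ∧ a * e = a) ∧
    (star v * v * a = a) ∧
    ∀ y : Elt N, star x * x * y = y * (star x * x) → a * y = y * a

/-- SEPC: a II_1 factor on a separable Hilbert space is separable in the 2-norm. -/
def S_SEPC : Prop :=
  ∀ (H : Type) [NormedAddCommGroup H] [InnerProductSpace ℂ H] [CompleteSpace H]
    [TopologicalSpace.SeparableSpace H] (N : VonNeumannAlgebra H) (t : Elt N →ₗ[ℂ] ℂ),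
    IsIIOneFactor N (t : Elt N → ℂ) → Sep2 t

/-- FIN: the theorem. -/
def S_FIN : Prop :=
  ∀ (H : Type) [NormedAddCommGroup H] [InnerProductSpace ℂ H] [CompleteSpace H]
    [TopologicalSpace.SeparableSpace H] (N : VonNeumannAlgebra H) (t : Elt N →ₗ[ℂ] ℂ),
    IsIIOneFactor N (t : Elt N → ℂ) → ∀ U : Ultrafilter ℕ, (U : Filter ℕ) ≤ Filter.cofinite →
    ∀ p q : Elt N, IsPrj p → IsPrj q → p ≠ 0 → q * p = p →
      (Cardinal.mk (Orb t U p) = 1 ∨ Cardinal.mk (Orb t U p) = Cardinal.continuum) ∧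
      Cardinal.mk (Orb t U q) ≤ Cardinal.mk (Orb t U p)

end Pool.Agent.H518R5.SC
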