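import Mathlib
import Pool.Agent.H518R5.SC.Stubs

/-!
Task CLOSED: the relations `CC n` are closed in the 2-norm.
-/

set_option autoImplicit false

open scoped ComplexOrder Topology
open Filter

noncomputable section

namespace Pool.Agent.H518R5.SC

open Pool.Agent.H467F Pool.Agent.H518R4.UG

theorem CLOSED_left {A : Type} [CStarAlgebra A] {τ : A →ₗ[ℂ] ℂ} (h : TW τ) {p w : A}
    (hp : IsPrj p) (hw : star w * w = p) (x : A) : n2 τ (w * x) ≤ n2 τ x := by
  have e1 : star (w * x) * (w * x) = star x * p * x := by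
    rw [star_mul, ← hw]; noncomm_ring
  have e2 : star ((1 - p) * x) * ((1 - p) * x) = star x * x - star x * p * x := by
    have h1 : star ((1 - p) * x) * ((1 - p) * x) =
        star x * x - star x * p * x - star x * p * x + star x * (p * p) * x := by
      rw [star_mul, star_sub, star_one, hp.1]; noncomm_ring
    rw [h1, hp.2]; noncomm_ring
  have h3 := h.re_nonneg ((1 - p) * x)
  rw [e2, map_sub, Complex.sub_re] at h3
  unfold n2
  apply Real.sqrt_le_sqrt
  rw [e1]
  linarith

theorem CLOSED_right {A : Type} [CStarAlgebra A] {τ : A →ₗ[ℂ] ℂ} (h : TW τ) {p w : A}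
    (hp : IsPrj p) (hw : w * star w = p) (x : A) : n2 τ (x * w) ≤ n2 τ x := by
  have h1 := CLOSED_left h (w := star w) hp (by rw [star_star]; exact hw) (star x)
  rwa [← star_mul, h.n2_star, h.n2_star] at h1

theorem CLOSED_cm {A : Type} [CStarAlgebra A] {τ : A →ₗ[ℂ] ℂ} (h : TW τ) {p w : A}
    (hp : IsPrj p) (hw : UC p w) (x x' : A) :
    n2 τ (cm x w) ≤ n2 τ (cm x' w) + 2 * n2 τ (x - x') := by
  have e : cm x w = cm x' w + ((x - x') * w - w * (x - x')) := by
    unfold cm; noncomm_ring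
  have h1 := h.n2_add_le (cm x' w) ((x - x') * w - w * (x - x'))
  have h2 := h.n2_sub_le ((x - x') * w) (w * (x - x'))
  have h3 := CLOSED_left h hp hw.1 (x - x')
  have h4 := CLOSED_right h hp hw.2 (x - x')
  rw [e]
  linarith

theorem CLOSED_cm' {A : Type} [CStarAlgebra A] {τ : A →ₗ[ℂ] ℂ} (h : TW τ) {p w : A}
    (hp : IsPrj p) (hw : UC p w) (x x' : A) :
    n2 τ (cm w x) ≤ n2 τ (cm w x') + 2 * n2 τ (x - x') := by
  have e : ∀ y : A, cm w y = - cm y w := by
    intro y; unfold cm; noncomm_ring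
  rw [e x, e x', n2_neg, n2_neg]
  exact CLOSED_cm h hp hw x x'

theorem p_CLOSED : S_CLOSED := by
  intro A _ τ h p hp n u v H ε hε
  obtain ⟨u', v', hu, hv, hC⟩ := H (ε / 4) (by positivity)
  obtain ⟨w, hw, hH, h0, hi, hl⟩ := hC (ε / 2) (by positivity)
  refine ⟨w, hw, ?_, ?_, ?_, ?_⟩
  · intro i k hk hkε
    have hk' : (k : ℝ) * (ε / 2) ≤ 1 := by
      have hk0 : (0 : ℝ) ≤ k := Nat.cast_nonneg k
      nlinarith
    have := hH i k hk hk'
    linarith
  · have := CLOSED_cm h hp (hw 0) u u'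
    linarith
  · intro i
    have := hi i
    linarith
  · have := CLOSED_cm' h hp (hw (Fin.last n)) v v'
    linarith

end Pool.Agent.H518R5.SC
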