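import Mathlib
import Pool.Agent.H518R5.SC.Stubs

/-!
# CMP: comparison of projections (helper398)
-/

set_option autoImplicit false

open scoped ComplexOrder Topology InnerProductSpace
open Filter

noncomputable section

namespace Pool.Agent.H518R5.SC

open Pool.Agent.H467F Pool.Agent.H518R4.UG

section cmp

variable {A : Type} [CStarAlgebra A] {τ : A →ₗ[ℂ] ℂ}

theorem cmp_mul_dom (h : TW τ) {v p : A} (hp : IsPrj p) (hv : star v * v = p) : v * p = v := by
  have h1 : star (v - v * p) * (v - v * p) = 0 := by
    have e : star (v - v * p) * (v - v * p) =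
        star v * v - star v * v * p - p * (star v * v) + p * (star v * v) * p := by
      rw [star_sub, star_mul, hp.1]
      noncomm_ring
    rw [e, hv, hp.2, hp.2]
    noncomm_ring
  have h2 := h.faithful (v - v * p) (by rw [h1, map_zero])
  exact (sub_eq_zero.1 h2).symm

theorem cmp_rem (h : TW τ) {p q b : A} (hp : IsPrj p) (hq : IsPrj q) (h1 : star b * b = p)
    (h2 : q * b = b) : IsPrj (b * star b) ∧ ((τ q).re ≤ (τ p).re → b * star b = q) := by
  have h3 := cmp_mul_dom h hp h1
  have hbb : b * star b * (b * star b) = b * star b := by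
    calc b * star b * (b * star b) = b * (star b * b) * star b := by noncomm_ring
      _ = b * star b := by rw [h1, h3]
  have hqb : q * (b * star b) = b * star b := by rw [← mul_assoc, h2]
  have hbq : b * star b * q = b * star b := by
    have := congrArg star hqb
    rwa [star_mul, star_mul, star_star, hq.1] at this
  have hself : star (q - b * star b) = q - b * star b := by
    rw [star_sub, hq.1, star_mul, star_star]
  have h4 : star (q - b * star b) * (q - b * star b) = q - b * star b := by
    rw [hself]
    calc (q - b * star b) * (q - b * star b)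
        = q * q - q * (b * star b) - b * star b * q + b * star b * (b * star b) := by noncomm_ring
      _ = q - b * star b := by rw [hq.2, hqb, hbq, hbb]; noncomm_ring
  refine ⟨⟨by rw [star_mul, star_star], hbb⟩, fun ht => ?_⟩
  have h5 := h.re_nonneg (q - b * star b)
  have h6 := h.im_zero (q - b * star b)
  have h7 : τ (q - b * star b) = τ q - τ p := by
    rw [map_sub, h.comm b (star b), h1]
  have h8 : τ (star (q - b * star b) * (q - b * star b)) = 0 := by
    apply Complex.ext
    · rw [Complex.zero_re]
      apply le_antisymm _ h5
      rw [h4, h7, Complex.sub_re]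
      linarith
    · rw [Complex.zero_im]
      exact h6
  exact (sub_eq_zero.1 (h.faithful _ h8)).symm

end cmp

theorem p_CMP : S_CMP := by
  intro A _ τ hII p r hp hr ht
  have h := hII.fct.tw
  rcases hII.fct.comp p r hp hr with ⟨v, h1, h2⟩ | ⟨v, h1, h2⟩
  · obtain ⟨-, h3⟩ := cmp_rem h hp hr h1 h2
    have h4 := h3 ht
    refine ⟨star v, by rw [star_star, h4], ?_, by rw [star_star, h1]; exact hp, fun _ => by
      rw [star_star, h1]⟩
    have h5 := congrArg star (cmp_mul_dom h hp h1)
    rwa [star_mul, hp.1] at h5
  · obtain ⟨h3, h4⟩ := cmp_rem h hr hp h1 h2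
    exact ⟨v, h1, h2, h3, fun h5 => h4 (by rw [h5])⟩

end Pool.Agent.H518R5.SC
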