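import Mathlib
import Pool.Agent.H518R5.SC.Stubs
import Pool.Agent.Helper467.FP.P_n2_mul_le

/-!
Sequential commutation orbits of corners (MP_52dd0f_an): CONJ, chains can be conjugated.
-/

set_option autoImplicit false

open scoped ComplexOrder Topology InnerProductSpace
open Filter

noncomputable section

namespace Pool.Agent.H518R5.SC

open Pool.Agent.H467F Pool.Agent.H518R4.UG

variable {A : Type} [CStarAlgebra A] {τ : A →ₗ[ℂ] ℂ}

theorem CONJ_mul_right {p g : A} (hp : IsPrj p) (hg : UC p g) : g * p = g := by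
  have h1 : star (g - g * p) * (g - g * p) = 0 := by
    have e : star (g - g * p) * (g - g * p) =
        star g * g - star g * g * p - star p * (star g * g) + star p * (star g * g) * p := by
      rw [star_sub, star_mul]; noncomm_ring
    rw [e, hg.1, hp.1, hp.2, hp.2]
    abel
  have h2 := (CStarRing.star_mul_self_eq_zero_iff (g - g * p)).1 h1
  exact (sub_eq_zero.1 h2).symm

theorem CONJ_star {p g : A} (hg : UC p g) : UC p (star g) :=
  ⟨by rw [star_star]; exact hg.2, by rw [star_star]; exact hg.1⟩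

theorem CONJ_mul_left {p g : A} (hp : IsPrj p) (hg : UC p g) : p * g = g := by
  have h := CONJ_mul_right hp (CONJ_star hg)
  have h2 := congrArg star h
  rw [star_mul, star_star, hp.1] at h2
  exact h2

theorem CONJ_mul {p g u : A} (hp : IsPrj p) (hg : UC p g) (hu : UC p u) : UC p (g * u) := by
  constructor
  · rw [star_mul, mul_assoc, ← mul_assoc (star g) g u, hg.1, CONJ_mul_left hp hu, hu.1]
  · rw [star_mul, mul_assoc, ← mul_assoc u (star u) (star g), hu.2,
      CONJ_mul_left hp (CONJ_star hg), hg.2]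

theorem CONJ_conj {p g u : A} (hp : IsPrj p) (hg : UC p g) (hu : UC p u) :
    UC p (g * u * star g) :=
  CONJ_mul hp (CONJ_mul hp hg hu) (CONJ_star hg)

theorem CONJ_prod {p g u w : A} (hg : UC p g) (hw : p * w = w) :
    (g * u * star g) * (g * w * star g) = g * (u * w) * star g := by
  calc (g * u * star g) * (g * w * star g) = g * u * ((star g * g) * w) * star g := by
        noncomm_ring
    _ = g * (u * w) * star g := by rw [hg.1, hw]; noncomm_ring

theorem CONJ_pl {p w : A} (hw : p * w = w) (k : ℕ) : p * w ^ (k + 1) = w ^ (k + 1) := by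
  rw [pow_succ', ← mul_assoc, hw]

theorem CONJ_pr {p w : A} (hw : w * p = w) (k : ℕ) : w ^ (k + 1) * p = w ^ (k + 1) := by
  rw [pow_succ, mul_assoc, hw]

theorem CONJ_pow {p g w : A} (hp : IsPrj p) (hg : UC p g) (hw : p * w = w) (k : ℕ) :
    (g * w * star g) ^ (k + 1) = g * w ^ (k + 1) * star g := by
  induction k with
  | zero => simp
  | succ k ih =>
    rw [pow_succ (g * w * star g) (k + 1), ih, CONJ_prod hg hw, ← pow_succ]

theorem CONJ_tau (h : TW τ) {p g w : A} (hp : IsPrj p) (hg : UC p g) (hw : UC p w) (k : ℕ)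
    (hk : 0 < k) : τ ((g * w * star g) ^ k) = τ (w ^ k) := by
  obtain ⟨m, rfl⟩ : ∃ m, k = m + 1 := ⟨k - 1, by omega⟩
  rw [CONJ_pow hp hg (CONJ_mul_left hp hw), mul_assoc, h.comm, mul_assoc, hg.1,
    CONJ_pr (CONJ_mul_right hp hw)]

theorem CONJ_norm {p g : A} (hp : IsPrj p) (hg : UC p g) : ‖g‖ ≤ 1 := by
  have h1 : ‖p‖ ≤ 1 := by
    have h2 : ‖star p * p‖ = ‖p‖ * ‖p‖ := CStarRing.norm_star_mul_self
    rw [hp.1, hp.2] at h2
    nlinarith [norm_nonneg p, sq_nonneg (‖p‖ - 1)]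
  have h3 : ‖star g * g‖ = ‖g‖ * ‖g‖ := CStarRing.norm_star_mul_self
  rw [hg.1] at h3
  nlinarith [norm_nonneg g]

theorem CONJ_cm {p g u w : A} (hp : IsPrj p) (hg : UC p g) (hu : UC p u) (hw : UC p w) :
    cm (g * u * star g) (g * w * star g) = g * cm u w * star g := by
  unfold cm
  rw [CONJ_prod hg (CONJ_mul_left hp hw), CONJ_prod hg (CONJ_mul_left hp hu)]
  noncomm_ring

theorem CONJ_n2 (h : TW τ) {p g u w : A} (hp : IsPrj p) (hg : UC p g) (hu : UC p u)
    (hw : UC p w) : n2 τ (cm (g * u * star g) (g * w * star g)) ≤ n2 τ (cm u w) := by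
  rw [CONJ_cm hp hg hu hw]
  have h1 := (n2_mul_le h (star g) (g * cm u w)).2
  have h2 := (n2_mul_le h g (cm u w)).1
  have h3 := CONJ_norm hp hg
  have h4 : ‖star g‖ ≤ 1 := by rw [norm_star]; exact h3
  have h5 := n2_nonneg τ (cm u w)
  have h6 := n2_nonneg τ (g * cm u w)
  calc n2 τ (g * cm u w * star g) ≤ n2 τ (g * cm u w) * ‖star g‖ := h1
    _ ≤ n2 τ (g * cm u w) * 1 := mul_le_mul_of_nonneg_left h4 h6
    _ = n2 τ (g * cm u w) := mul_one _
    _ ≤ ‖g‖ * n2 τ (cm u w) := h2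
    _ ≤ 1 * n2 τ (cm u w) := mul_le_mul_of_nonneg_right h3 h5
    _ = n2 τ (cm u w) := one_mul _

theorem p_CONJ : S_CONJ := by
  intro A _ τ h p g hp hg
  refine ⟨fun u hu => ⟨CONJ_conj hp hg hu.1, fun k hk => ?_⟩, fun n u v hu hv hc ε hε => ?_⟩
  · rw [CONJ_tau h hp hg hu.1 k hk]
    exact hu.2 k hk
  · obtain ⟨w, h1, h2, h3, h4, h5⟩ := hc ε hε
    refine ⟨fun i => g * w i * star g, fun i => CONJ_conj hp hg (h1 i), fun i k hk hk2 => ?_,
      ?_, fun i => ?_, ?_⟩
    · rw [CONJ_tau h hp hg (h1 i) k hk]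
      exact h2 i k hk hk2
    · exact (CONJ_n2 h hp hg hu (h1 0)).trans h3
    · exact (CONJ_n2 h hp hg (h1 _) (h1 _)).trans (h4 i)
    · exact (CONJ_n2 h hp hg (h1 _) hv).trans h5

end Pool.Agent.H518R5.SC
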