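import Mathlib
import Pool.Agent.H518R5.SC.Stubs

/-!
CS: the cosine-sine decomposition (MP_52dd0f_an).
-/

set_option autoImplicit false
set_option linter.unusedSimpArgs false

open scoped ComplexOrder Topology InnerProductSpace
open Filter

noncomputable section

namespace Pool.Agent.H518R5.SC

open Pool.Agent.H467F Pool.Agent.H518R4.UG

section CS

variable {A : Type} [CStarAlgebra A]

theorem cs_right {g e : A} (he : IsPrj e) (h : star g * g = e) : g * e = g := by
  have h0 : star (g - g * e) * (g - g * e) = 0 := by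
    have h1 : star (g - g * e) * (g - g * e) =
        star g * g - star g * g * e - e * (star g * g) + e * (star g * g) * e := by
      rw [star_sub, star_mul, he.1]
      noncomm_ring
    rw [h1, h, he.2, he.2]
    abel
  have := (CStarRing.star_mul_self_eq_zero_iff _).1 h0
  exact (sub_eq_zero.1 this).symm

theorem cs_left {g f : A} (hf : IsPrj f) (h : g * star g = f) : f * g = g := by
  have h1 := cs_right (g := star g) hf (by rw [star_star]; exact h)
  have h2 := congrArg star h1
  rwa [star_mul, star_star, hf.1] at h2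

theorem cs_as {a b c : A} (h : a * b = c) (x : A) : a * (b * x) = c * x := by
  rw [← mul_assoc, h]

theorem cs_mul {P a b : A} (hP : IsPrj P) (ha : UC P a) (hb : UC P b) : UC P (a * b) := by
  have hb1 : P * b = b := cs_left hP hb.2
  have ha1 : a * P = a := cs_right hP ha.1
  constructor
  · rw [star_mul, mul_assoc, ← mul_assoc (star a), ha.1, hb1, hb.1]
  · rw [star_mul, mul_assoc, ← mul_assoc b, hb.2, ← mul_assoc, ha1, ha.2]

theorem cs_star {P a : A} (ha : UC P a) : UC P (star a) := by
  constructor
  · rw [star_star]; exact ha.2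
  · rw [star_star]; exact ha.1

theorem cs_self {P : A} (hP : IsPrj P) : UC P P := by
  constructor
  · rw [hP.1, hP.2]
  · rw [hP.1, hP.2]

theorem cs_add {p r a b : A} (hp : IsPrj p) (hr : IsPrj r) (hpr : p * r = 0) (ha : UC p a)
    (hb : UC r b) : UC (p + r) (a + b) := by
  have hrp : r * p = 0 := by
    have := congrArg star hpr
    rwa [star_mul, hp.1, hr.1, star_zero] at this
  have a1 : p * a = a := cs_left hp ha.2
  have a2 : a * p = a := cs_right hp ha.1
  have b1 : r * b = b := cs_left hr hb.2
  have b2 : b * r = b := cs_right hr hb.1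
  have a1' : star a * p = star a := by
    have := congrArg star a1
    rwa [star_mul, hp.1] at this
  have b1' : star b * r = star b := by
    have := congrArg star b1
    rwa [star_mul, hr.1] at this
  have a2' : p * star a = star a := by
    have := congrArg star a2
    rwa [star_mul, hp.1] at this
  have b2' : r * star b = star b := by
    have := congrArg star b2
    rwa [star_mul, hr.1] at this
  have e1 : star a * b = 0 := by rw [← a1', ← b1, mul_assoc, ← mul_assoc p, hpr, zero_mul, mul_zero]
  have e2 : star b * a = 0 := by rw [← b1', ← a1, mul_assoc, ← mul_assoc r, hrp, zero_mul, mul_zero]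
  have e3 : a * star b = 0 := by rw [← a2, ← b2', mul_assoc, ← mul_assoc p, hpr, zero_mul, mul_zero]
  have e4 : b * star a = 0 := by rw [← b2, ← a2', mul_assoc, ← mul_assoc r, hrp, zero_mul, mul_zero]
  constructor
  · rw [star_add, add_mul, mul_add, mul_add, e1, e2, ha.1, hb.1, add_zero, zero_add]
  · rw [star_add, add_mul, mul_add, mul_add, e3, e4, ha.2, hb.2, add_zero, zero_add]

/-- the rotation is unitary -/
theorem cs_rot {p r s c g : A} (hp : IsPrj p) (hr : IsPrj r) (hpr : p * r = 0)
    (hs : star s * s = r) (hps : p * s = s) (hc : star c = c) (hg : star g = g)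
    (hrc : r * c = c) (hrg : r * g = g) (hcg : c * g = g * c) (hcc : c * c + g * g = r) :
    UC (p + r) (c + g * star s - s * g + s * c * star s + (p - s * star s)) ∧
    (g * star s + c) * star (c + g * star s - s * g + s * c * star s + (p - s * star s)) = r := by
  have hrp : r * p = 0 := by
    have := congrArg star hpr
    rwa [star_mul, hp.1, hr.1, star_zero] at this
  have hsr : s * r = s := cs_right hr hs
  have hrs' : r * star s = star s := by
    have := congrArg star hsr
    rwa [star_mul, hr.1] at this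
  have hsp' : star s * p = star s := by
    have := congrArg star hps
    rwa [star_mul, hp.1] at this
  have hrs : r * s = 0 := by rw [← hps, ← mul_assoc, hrp, zero_mul]
  have hs'r : star s * r = 0 := by
    have := congrArg star hrs
    rwa [star_mul, hr.1, star_zero] at this
  have hsp : s * p = 0 := by rw [← hsr, mul_assoc, hrp, mul_zero]
  have hps' : p * star s = 0 := by
    have := congrArg star hsp
    rwa [star_mul, hp.1, star_zero] at this
  have hcr : c * r = c := by
    have := congrArg star hrc
    rwa [star_mul, hr.1, hc] at this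
  have hgr : g * r = g := by
    have := congrArg star hrg
    rwa [star_mul, hr.1, hg] at this
  have hcp : c * p = 0 := by rw [← hcr, mul_assoc, hrp, mul_zero]
  have hpc : p * c = 0 := by rw [← hrc, ← mul_assoc, hpr, zero_mul]
  have hgp : g * p = 0 := by rw [← hgr, mul_assoc, hrp, mul_zero]
  have hpg : p * g = 0 := by rw [← hrg, ← mul_assoc, hpr, zero_mul]
  have hcs : c * s = 0 := by rw [← hcr, mul_assoc, hrs, mul_zero]
  have hgs : g * s = 0 := by rw [← hgr, mul_assoc, hrs, mul_zero]
  have hsc : star s * c = 0 := by rw [← hrc, ← mul_assoc, hs'r, zero_mul]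
  have hsg : star s * g = 0 := by rw [← hrg, ← mul_assoc, hs'r, zero_mul]
  have hcc' : c * c = r - g * g := by rw [← hcc]; abel
  have hgc : g * c = c * g := hcg.symm
  have hst : star (c + g * star s - s * g + s * c * star s + (p - s * star s)) =
      c + s * g - g * star s + s * c * star s + (p - s * star s) := by
    simp only [star_add, star_sub, star_mul, star_star, hc, hg, hp.1, mul_assoc]
  refine ⟨⟨?_, ?_⟩, ?_⟩
  · rw [hst]
    simp only [mul_add, add_mul, mul_sub, sub_mul, mul_assoc, hrp, cs_as hrp, hpr, cs_as hpr,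
      hsr, cs_as hsr, hrs', cs_as hrs', hsp', cs_as hsp', hrs, cs_as hrs, hs'r, cs_as hs'r,
      hsp, cs_as hsp, hps', cs_as hps', hcr, cs_as hcr, hgr, cs_as hgr, hcp, cs_as hcp,
      hpc, cs_as hpc, hgp, cs_as hgp, hpg, cs_as hpg, hcs, cs_as hcs, hgs, cs_as hgs,
      hsc, cs_as hsc, hsg, cs_as hsg, hs, cs_as hs, hps, cs_as hps, hp.2, cs_as hp.2,
      hr.2, cs_as hr.2, hcc', cs_as hcc', hgc, cs_as hgc, hrc, cs_as hrc, hrg, cs_as hrg,
      zero_mul, mul_zero]
    abel
  · rw [hst]
    simp only [mul_add, add_mul, mul_sub, sub_mul, mul_assoc, hrp, cs_as hrp, hpr, cs_as hpr,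
      hsr, cs_as hsr, hrs', cs_as hrs', hsp', cs_as hsp', hrs, cs_as hrs, hs'r, cs_as hs'r,
      hsp, cs_as hsp, hps', cs_as hps', hcr, cs_as hcr, hgr, cs_as hgr, hcp, cs_as hcp,
      hpc, cs_as hpc, hgp, cs_as hgp, hpg, cs_as hpg, hcs, cs_as hcs, hgs, cs_as hgs,
      hsc, cs_as hsc, hsg, cs_as hsg, hs, cs_as hs, hps, cs_as hps, hp.2, cs_as hp.2,
      hr.2, cs_as hr.2, hcc', cs_as hcc', hgc, cs_as hgc, hrc, cs_as hrc, hrg, cs_as hrg,
      zero_mul, mul_zero]
    abel
  · rw [hst]
    simp only [mul_add, add_mul, mul_sub, sub_mul, mul_assoc, hrp, cs_as hrp, hpr, cs_as hpr,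
      hsr, cs_as hsr, hrs', cs_as hrs', hsp', cs_as hsp', hrs, cs_as hrs, hs'r, cs_as hs'r,
      hsp, cs_as hsp, hps', cs_as hps', hcr, cs_as hcr, hgr, cs_as hgr, hcp, cs_as hcp,
      hpc, cs_as hpc, hgp, cs_as hgp, hpg, cs_as hpg, hcs, cs_as hcs, hgs, cs_as hgs,
      hsc, cs_as hsc, hsg, cs_as hsg, hs, cs_as hs, hps, cs_as hps, hp.2, cs_as hp.2,
      hr.2, cs_as hr.2, hcc', cs_as hcc', hgc, cs_as hgc, hrc, cs_as hrc, hrg, cs_as hrg,
      zero_mul, mul_zero]
    abel

end CS

theorem p_CS (hE : S_EXTU) (hPPU : S_PPU) : S_CS := by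
  intro A _ τ h2 p r s V hp hr hpr hs hps hV
  have hrp : r * p = 0 := by
    have := congrArg star hpr
    rwa [star_mul, hp.1, hr.1, star_zero] at this
  have hsr : s * r = s := cs_right hr hs
  have hrs' : r * star s = star s := by
    have := congrArg star hsr
    rwa [star_mul, hr.1] at this
  have hsp' : star s * p = star s := by
    have := congrArg star hps
    rwa [star_mul, hp.1] at this
  have hPr : IsPrj (p + r) := by
    constructor
    · rw [star_add, hp.1, hr.1]
    · rw [add_mul, mul_add, mul_add, hpr, hrp, hp.2, hr.2, add_zero, zero_add]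
  obtain ⟨-, hssP, -, hPPU2⟩ := hPPU A p r s hp hr hpr hs hps
  -- traces
  have htr : (τ r).re ≤ (τ p).re := by
    have e1 : τ r = τ (s * star s) := by rw [← hs, h2.fct.tw.comm]
    have e2 : star (p - s * star s) * (p - s * star s) = p - s * star s := by
      have e3 : star (p - s * star s) = p - s * star s := by
        rw [star_sub, hp.1, star_mul, star_star]
      rw [e3]
      simp only [mul_sub, sub_mul, hp.2]
      have e4 : p * (s * star s) = s * star s := by rw [← mul_assoc, hps]
      have e5 : s * star s * p = s * star s := by rw [mul_assoc, hsp']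
      have e6 : s * star s * (s * star s) = s * star s := hssP.2
      rw [e4, e5, e6]
      abel
    have e7 := h2.fct.tw.nonneg (p - s * star s)
    rw [e2, map_sub] at e7
    have e8 := (Complex.nonneg_iff.1 e7).1
    rw [Complex.sub_re] at e8
    rw [e1]
    linarith
  -- polar decomposition of the corner
  obtain ⟨v, a, ha1, ha2, ha3, hv1, hv2, hv3, hv4, hv5, -⟩ := h2.pol (r * V * r)
  have hrv : r * v = v := hv3 r hr (by rw [← mul_assoc, ← mul_assoc, hr.2])
  obtain ⟨hvr, har⟩ := hv4 r hr (by rw [mul_assoc, hr.2])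
  have hra : r * a = a := by
    have := congrArg star har
    rwa [star_mul, hr.1, ha1] at this
  obtain ⟨Y2, hY1, hY2, -, hY4, hY5⟩ := hE A τ h2 r r v hr hr hv1 hv2 hvr hrv le_rfl
  have hY5' := hY5 rfl
  have hYU : UC r Y2 := ⟨hY1, hY5'⟩
  have hYa : Y2 * a = r * V * r := by
    rw [← hv5, ← mul_assoc, hY4, ha3]
  have hY2r : Y2 * r = Y2 := cs_right hr hY1
  have hrY2 : r * star Y2 = star Y2 := by
    have := congrArg star hY2r
    rwa [star_mul, hr.1] at this
  have hY2' : star Y2 * r = star Y2 := by
    have := congrArg star hY2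
    rwa [star_mul, hr.1] at this
  -- V'
  set V1 : A := (p + star Y2) * V with hV1
  have hpYU : UC (p + r) (p + Y2) := cs_add hp hr hpr (cs_self hp) hYU
  have hpYs : star (p + Y2) = p + star Y2 := by rw [star_add, hp.1]
  have hV1U : UC (p + r) V1 := by
    rw [hV1, ← hpYs]
    exact cs_mul hPr (cs_star hpYU) hV
  have hrV1 : r * V1 = star Y2 * V := by
    rw [hV1, ← mul_assoc, mul_add, hrp, hrY2, zero_add]
  have hrV1r : r * V1 * r = a := by
    rw [hrV1]
    have e1 : star Y2 * V * r = star Y2 * (r * V * r) := by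
      rw [← mul_assoc, ← mul_assoc, hY2']
    rw [e1, ← hYa, ← mul_assoc, hY1, hra]
  -- x'
  have hxx : (r * V1 * p) * star (r * V1 * p) = r - a * a := by
    have e1 : star (r * V1 * p) = p * star V1 * r := by
      rw [star_mul, star_mul, hp.1, hr.1, mul_assoc]
    have e2 : (r * V1 * r) * star (r * V1 * r) = a * a := by rw [hrV1r, ha1]
    have e3 : star (r * V1 * r) = r * star V1 * r := by
      rw [star_mul, star_mul, hr.1, mul_assoc]
    have e4 : r * V1 * (p + r) * star V1 * r = r := by
      have f1 : V1 * (p + r) = V1 := cs_right hPr hV1U.1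
      have f2 : r * V1 * (p + r) * star V1 * r = r * (V1 * (p + r) * star V1) * r := by
        simp only [mul_assoc]
      rw [f2, f1, hV1U.2, mul_add, hrp, zero_add, hr.2, hr.2]
    rw [e3] at e2
    rw [e1, ← e2]
    have e5 : r * V1 * p * (p * star V1 * r) = r * V1 * p * star V1 * r := by
      have : r * V1 * p * (p * star V1 * r) = r * V1 * (p * p) * star V1 * r := by
        simp only [mul_assoc]
      rw [this, hp.2]
    have e6 : r * V1 * r * (r * star V1 * r) = r * V1 * r * star V1 * r := by
      have : r * V1 * r * (r * star V1 * r) = r * V1 * (r * r) * star V1 * r := by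
        simp only [mul_assoc]
      rw [this, hr.2]
    rw [e5, e6]
    simp only [mul_add, add_mul] at e4
    exact eq_sub_of_add_eq e4
  obtain ⟨v1, g, hg1, hg2, hg3, hw1, hw2, hw3, hw4, hw5, hw6⟩ := h2.pol (star (r * V1 * p))
  rw [star_star] at hg2 hw6
  have hsx : star (r * V1 * p) = p * star V1 * r := by
    rw [star_mul, star_mul, hp.1, hr.1, mul_assoc]
  have hpv1 : p * v1 = v1 := by
    refine hw3 p hp ?_
    rw [hsx, ← mul_assoc, ← mul_assoc, hp.2]
  obtain ⟨hv1r, hgr⟩ := hw4 r hr (by rw [hsx, mul_assoc, hr.2])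
  have hrg : r * g = g := by
    have := congrArg star hgr
    rwa [star_mul, hr.1, hg1] at this
  have hga : g * a = a * g := by
    refine hw6 a ?_
    rw [hxx, sub_mul, mul_sub, hra, har, mul_assoc]
  have hgg : g * g = r - a * a := by rw [hg2, hxx]
  obtain ⟨g1, hh1, hh2, hh3, hh4, -⟩ := hE A τ h2 r p v1 hr hp hw1 hw2 hv1r hpv1 htr
  have hxg : star (r * V1 * p) = g1 * g := by
    rw [← hg3]
    nth_rewrite 1 [← hh4]
    rw [mul_assoc, hw5]
  have hxg' : r * V1 * p = g * star g1 := by
    have := congrArg star hxg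
    rwa [star_star, star_mul, hg1] at this
  have hg1r : g1 * r = g1 := cs_right hr hh1
  have hg1p : star g1 * p = star g1 := by
    have := congrArg star hh2
    rwa [star_mul, hp.1] at this
  have ht1 : star (s * star g1) * (s * star g1) = g1 * star g1 := by
    rw [star_mul, star_star, mul_assoc, ← mul_assoc (star s), hs, ← mul_assoc, hg1r]
  have ht2 : (s * star g1) * star (s * star g1) = s * star s := by
    rw [star_mul, star_star, mul_assoc, ← mul_assoc (star g1), hh1, hrs']
  obtain ⟨Z1, hZ1, hZ2, -, hZ4, hZ5⟩ := hE A τ h2 p p (s * star g1) hp hp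
    (by rw [ht1]; exact hh3) (by rw [ht2]; exact hssP) (by rw [mul_assoc, hg1p])
    (by rw [← mul_assoc, hps]) le_rfl
  have hZ5' := hZ5 rfl
  have hZU : UC p Z1 := ⟨hZ1, hZ5'⟩
  rw [ht1] at hZ4
  have hZg : Z1 * g1 = s := by
    have e1 : g1 * star g1 * g1 = g1 := by rw [mul_assoc, hh1, hg1r]
    rw [← e1, ← mul_assoc, hZ4, mul_assoc, hh1, hsr]
  have hg1s : g1 = star Z1 * s := by
    rw [← hZg, ← mul_assoc, hZ1, hh2]
  have hxs : r * V1 * p = g * star s * Z1 := by
    rw [hxg']
    have : star g1 = star s * Z1 := by rw [hg1s, star_mul, star_star]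
    rw [this, mul_assoc]
  have hZp : Z1 * p = Z1 := cs_right hp hZ1
  have hpZ' : p * star Z1 = star Z1 := by
    have := congrArg star hZp
    rwa [star_mul, hp.1] at this
  have hZ'p : star Z1 * p = star Z1 := by
    have := congrArg star hZ2
    rwa [star_mul, hp.1] at this
  have hZ'r : star Z1 * r = 0 := by rw [← hZ'p, mul_assoc, hpr, mul_zero]
  -- V''
  have hZrU : UC (p + r) (Z1 + r) := cs_add hp hr hpr hZU (cs_self hr)
  have hZrs : star (Z1 + r) = star Z1 + r := by rw [star_add, hr.1]
  set V2 : A := V1 * (star Z1 + r) with hV2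
  have hV2U : UC (p + r) V2 := by
    rw [hV2, ← hZrs]
    exact cs_mul hPr hV1U (cs_star hZrU)
  have hrV2 : r * V2 = g * star s + a := by
    rw [hV2]
    have e1 : r * (V1 * (star Z1 + r)) = (r * V1 * p) * star Z1 + r * V1 * r := by
      have e0 : r * V1 * p * star Z1 = r * V1 * star Z1 := by rw [mul_assoc (r * V1) p, hpZ']
      rw [e0]
      simp only [mul_add, mul_assoc]
    rw [e1, hxs, hrV1r]
    congr 1
    rw [mul_assoc, hZ5', mul_assoc, hsp']
  obtain ⟨hRU, hRr⟩ := cs_rot hp hr hpr hs hps ha1 hg1 hra hrg hga.symm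
    (by rw [hgg]; abel)
  obtain ⟨hdU, hdR⟩ := hPPU2 a g ha1 hg1 hra hrg hga.symm (by rw [hgg]; abel)
  set R : A := a + g * star s - s * g + s * a * star s + (p - s * star s) with hR
  have hXU : UC (p + r) (V2 * star R) := cs_mul hPr hV2U (cs_star hRU)
  have hrX : r * (V2 * star R) = r := by rw [← mul_assoc, hrV2, hRr]
  have hXr : (V2 * star R) * r = r := by
    have e1 : star (V2 * star R) * r = r := by
      have := congrArg star hrX
      rwa [star_mul, hr.1] at this
    have e2 : (V2 * star R) * (star (V2 * star R) * r) = (p + r) * r := by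
      rw [← mul_assoc, hXU.2]
    rw [e1, add_mul, hpr, hr.2, zero_add] at e2
    exact e2
  have hX1 : (p + r) * (V2 * star R) = V2 * star R := cs_left hPr hXU.2
  have hX2 : (V2 * star R) * (p + r) = V2 * star R := cs_right hPr hXU.1
  set X : A := V2 * star R with hX
  have hXd : X = p * X * p + r := by
    have e1 : X * p = X - r := by
      rw [mul_add, hXr] at hX2
      exact eq_sub_of_add_eq hX2
    have e2 : p * X = X - r := by
      rw [add_mul, hrX] at hX1
      exact eq_sub_of_add_eq hX1
    rw [mul_assoc, e1, mul_sub, e2, hpr, sub_zero]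
    abel
  have hY1U : UC p (p * X * p) := by
    have hXU' := hXU
    rw [hXd] at hXU'
    have hs1 : star (p * X * p) = p * star X * p := by
      rw [star_mul, star_mul, hp.1, mul_assoc]
    constructor
    · have e1 := hXU'.1
      rw [star_add, add_mul, mul_add, mul_add, hr.1, hr.2] at e1
      have e2 : star (p * X * p) * r = 0 := by rw [hs1, mul_assoc, hpr, mul_zero]
      have e3 : r * (p * X * p) = 0 := by rw [← mul_assoc, ← mul_assoc, hrp, zero_mul, zero_mul]
      rw [e2, e3, add_zero, zero_add] at e1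
      exact add_right_cancel e1
    · have e1 := hXU'.2
      rw [star_add, add_mul, mul_add, mul_add, hr.1, hr.2] at e1
      have e2 : (p * X * p) * r = 0 := by rw [mul_assoc, hpr, mul_zero]
      have e3 : r * star (p * X * p) = 0 := by
        rw [hs1, ← mul_assoc, ← mul_assoc, hrp, zero_mul, zero_mul]
      rw [e2, e3, add_zero, zero_add] at e1
      exact add_right_cancel e1
  refine ⟨p * X * p, Y2, Z1, _, hY1U, hYU, hZU, hdU, ?_⟩
  rw [hdR, ← hXd]
  have f1 : X * R = V2 := by
    rw [hX, mul_assoc, hRU.1]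
    exact cs_right hPr hV2U.1
  have f2 : V2 * (Z1 + r) = V1 := by
    rw [hV2, mul_assoc, ← hZrs, hZrU.1]
    exact cs_right hPr hV1U.1
  have f3 : (p + Y2) * V1 = V := by
    rw [hV1, ← mul_assoc, ← hpYs, hpYU.2]
    exact cs_left hPr hV.2
  calc V = (p + Y2) * (X * R * (Z1 + r)) := by rw [f1, f2, f3]
    _ = (p + Y2) * X * R * (Z1 + r) := by simp only [mul_assoc]

end Pool.Agent.H518R5.SC
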