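import Pool.Agent.H518R5.SC.Stubs

set_option autoImplicit false

open scoped ComplexOrder Topology InnerProductSpace
open Filter

noncomputable section

namespace Pool.Agent.H518R5.SC

open Pool.Agent.H467F Pool.Agent.H518R4.UG

section DBLsec

variable {A : Type} [CStarAlgebra A]

theorem DBL_as {x y z : A} (h : x * y = z) (w : A) : x * (y * w) = z * w := by
  rw [← mul_assoc, h]

theorem DBL_r {q h : A} (hq : IsPrj q) (h1 : star h * h = q) : h * q = h := by
  have h2 : star (h - h * q) * (h - h * q) = 0 := by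
    have h3 : star (h - h * q) * (h - h * q) =
        star h * h - (star h * h) * q - star q * (star h * h) + star q * ((star h * h) * q) := by
      rw [star_sub, star_mul]
      noncomm_ring
    rw [h3, h1, hq.1, hq.2, hq.2]
    abel
  have h3 := (CStarRing.star_mul_self_eq_zero_iff _).mp h2
  exact (sub_eq_zero.mp h3).symm

theorem DBL_uc {q h : A} (hq : IsPrj q) (h1 : UC q h) :
    h * q = h ∧ q * h = h ∧ star h * q = star h ∧ q * star h = star h := by
  have a1 : h * q = h := DBL_r hq h1.1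
  have a2 : star h * q = star h := by
    refine DBL_r hq ?_
    rw [star_star]
    exact h1.2
  have a3 : q * star h = star h := by
    have := congrArg star a1
    rwa [star_mul, hq.1] at this
  have a4 : q * h = h := by
    have := congrArg star a2
    rwa [star_mul, hq.1, star_star] at this
  exact ⟨a1, a4, a2, a3⟩

theorem DBL_mul {q g h : A} (hq : IsPrj q) (hg : UC q g) (hh : UC q h) : UC q (g * h) := by
  obtain ⟨a1, a2, a3, a4⟩ := DBL_uc hq hg
  obtain ⟨b1, b2, b3, b4⟩ := DBL_uc hq hh
  constructor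
  · calc star (g * h) * (g * h) = star h * ((star g * g) * h) := by
          rw [star_mul]
          noncomm_ring
      _ = q := by rw [hg.1, b2, hh.1]
  · calc (g * h) * star (g * h) = g * ((h * star h) * star g) := by
          rw [star_mul]
          noncomm_ring
      _ = q := by rw [hh.2, a4, hg.2]

theorem DBL_star {q g : A} (hg : UC q g) : UC q (star g) := by
  constructor
  · rw [star_star]
    exact hg.2
  · rw [star_star]
    exact hg.1

theorem DBL_orth {p r x y : A} (hp : IsPrj p) (hr : IsPrj r) (hpr : p * r = 0) (hx : UC p x)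
    (hy : UC r y) : x * y = 0 ∧ y * x = 0 ∧ star x * y = 0 ∧ star y * x = 0 ∧
      x * star y = 0 ∧ y * star x = 0 := by
  have hrp : r * p = 0 := by
    have := congrArg star hpr
    rwa [star_mul, hp.1, hr.1, star_zero] at this
  obtain ⟨a1, a2, a3, a4⟩ := DBL_uc hp hx
  obtain ⟨b1, b2, b3, b4⟩ := DBL_uc hr hy
  refine ⟨?_, ?_, ?_, ?_, ?_, ?_⟩
  · rw [← a1, ← b2, mul_assoc, ← mul_assoc p, hpr, zero_mul, mul_zero]
  · rw [← b1, ← a2, mul_assoc, ← mul_assoc r, hrp, zero_mul, mul_zero]
  · rw [← a3, ← b2, mul_assoc, ← mul_assoc p, hpr, zero_mul, mul_zero]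
  · rw [← b3, ← a2, mul_assoc, ← mul_assoc r, hrp, zero_mul, mul_zero]
  · rw [← a1, ← b4, mul_assoc, ← mul_assoc p, hpr, zero_mul, mul_zero]
  · rw [← b1, ← a4, mul_assoc, ← mul_assoc r, hrp, zero_mul, mul_zero]

theorem DBL_add {p r x y : A} (hp : IsPrj p) (hr : IsPrj r) (hpr : p * r = 0) (hx : UC p x)
    (hy : UC r y) : UC (p + r) (x + y) := by
  obtain ⟨c1, c2, c3, c4, c5, c6⟩ := DBL_orth hp hr hpr hx hy
  constructor
  · rw [star_add, mul_add, add_mul, add_mul, hx.1, c4, c3, hy.1]
    abel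
  · rw [star_add, mul_add, add_mul, add_mul, hx.2, c6, c5, hy.2]
    abel

theorem DBL_self {q : A} (hq : IsPrj q) : UC q q := by
  constructor
  · rw [hq.1, hq.2]
  · rw [hq.1, hq.2]

theorem DBL_sum_prj {p r : A} (hp : IsPrj p) (hr : IsPrj r) (hpr : p * r = 0) :
    IsPrj (p + r) := by
  have hrp : r * p = 0 := by
    have := congrArg star hpr
    rwa [star_mul, hp.1, hr.1, star_zero] at this
  constructor
  · rw [star_add, hp.1, hr.1]
  · rw [mul_add, add_mul, add_mul, hp.2, hr.2, hpr, hrp]
    abel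

theorem DBL_n2_symm (τ : A →ₗ[ℂ] ℂ) (x y : A) : n2 τ (x - y) = n2 τ (y - x) := by
  have h : x - y = -(y - x) := by abel
  rw [h]
  unfold n2
  rw [star_neg, neg_mul_neg]

theorem DBL_n2_zero (τ : A →ₗ[ℂ] ℂ) : n2 τ (0 : A) = 0 := by
  unfold n2
  simp

/-- conjugation of a sum by `x + r` -/
theorem DBL_conj {p r x a b : A} (hp : IsPrj p) (hr : IsPrj r) (hpr : p * r = 0) (hx : UC p x)
    (ha : UC p a) (hb : UC r b) : (x + r) * (a + b) * star (x + r) = x * a * star x + b := by
  obtain ⟨c1, c2, c3, c4, c5, c6⟩ := DBL_orth hp hr hpr hx hb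
  obtain ⟨d1, d2, d3, d4, d5, d6⟩ := DBL_orth hp hr hpr ha (DBL_self hr)
  obtain ⟨e1, e2, e3, e4, e5, e6⟩ := DBL_orth hp hr hpr hx (DBL_self hr)
  obtain ⟨b1, b2, b3, b4⟩ := DBL_uc hr hb
  have h1 : (x + r) * (a + b) = x * a + b := by
    rw [mul_add, add_mul, add_mul, d2, c1, b2]
    abel
  rw [h1, star_add, hr.1, mul_add, add_mul, add_mul, mul_assoc x a r, d1, c6, b1, mul_zero]
  abel

end DBLsec

theorem p_DBL (hREFL : S_REFL) (hTRANS : S_TRANS) (hCONJ : S_CONJ) (hCLOSED : S_CLOSED)
    (hEXT : S_EXT) (hSUM : S_SUM) (hDENSE : S_DENSE) (hEXH : S_EXH) (hCMP : S_CMP)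
    (hPPU : S_PPU) (hCS : S_CS) : S_DBL := by
  intro A _ τ hII p r hp hr hpr hle hUni
  have hTW := hII.fct.tw
  obtain ⟨L, hL⟩ := hUni
  obtain ⟨s, hts0, hps, heP0, _⟩ := hCMP A τ hII p r hp hr hle
  obtain ⟨t, ht⟩ : ∃ t, t = star s := ⟨_, rfl⟩
  have hts : t * s = r := by rw [ht]; exact hts0
  have heP : IsPrj (s * t) := by rw [ht]; exact heP0
  have hst : star t = s := by rw [ht, star_star]
  have hpp : p * p = p := hp.2
  have hrr : r * r = r := hr.2
  have hrp : r * p = 0 := by
    have := congrArg star hpr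
    rwa [star_mul, hp.1, hr.1, star_zero] at this
  have hsr : s * r = s := DBL_r hr hts0
  have htp : t * p = t := by
    have := congrArg star hps
    rwa [star_mul, hp.1, ← ht] at this
  have hrt : r * t = t := by
    have := congrArg star hsr
    rwa [star_mul, hr.1, ← ht] at this
  have hsp : s * p = 0 := by rw [← hsr, mul_assoc, hrp, mul_zero]
  have hrs : r * s = 0 := by rw [← hps, ← mul_assoc, hrp, zero_mul]
  have hpt : p * t = 0 := by rw [← hrt, ← mul_assoc, hpr, zero_mul]
  have htr : t * r = 0 := by rw [← htp, mul_assoc, hpr, mul_zero]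
  have hss : s * s = 0 := by
    calc s * s = (s * r) * s := by rw [hsr]
      _ = 0 := by rw [mul_assoc, hrs, mul_zero]
  have htt : t * t = 0 := by
    calc t * t = (t * p) * t := by rw [htp]
      _ = 0 := by rw [mul_assoc, hpt, mul_zero]
  have hprj : IsPrj (p + r) := DBL_sum_prj hp hr hpr
  have hpp2 : IsPrj (p - s * t) := by
    constructor
    · rw [star_sub, hp.1, heP.1]
    · simp only [mul_sub, sub_mul, mul_assoc, hpp, DBL_as hps, DBL_as hts, htp, hrt]
      abel
  have her : (s * t) * r = 0 := by rw [mul_assoc, htr, mul_zero]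
  have hep : (s * t) * (p - s * t) = 0 := by
    simp only [mul_sub, mul_assoc, htp, DBL_as hts, hrt]
    abel
  have hpr2 : (p - s * t) * r = 0 := by
    simp only [sub_mul, mul_assoc, hpr, htr, mul_zero]
    abel
  have hsum1 : s * t + (p - s * t) = p := by abel
  -- Haar unitaries
  obtain ⟨a', ha'⟩ := hEXH A τ hII (s * t) heP
  obtain ⟨a'', ha''⟩ := hEXH A τ hII (p - s * t) hpp2
  have ha : HC τ p (a' + a'') := by
    have := (hSUM A τ hTW (s * t) (p - s * t) a' a'' s heP hpp2 hep).1 ha' ha''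
    rwa [hsum1] at this
  have hb : HC τ r (t * a' * s) := by
    have := (hSUM A τ hTW (s * t) r a' a'' s heP hr her).2 ha' (by rw [← ht]) (by rw [← ht, hts])
    rwa [← ht] at this
  obtain ⟨u0, hu0def⟩ : ∃ u0, u0 = (a' + a'') + t * a' * s := ⟨_, rfl⟩
  have hu0 : HC τ (p + r) u0 := by
    rw [hu0def]
    exact (hSUM A τ hTW p r (a' + a'') (t * a' * s) s hp hr hpr).1 ha hb
  obtain ⟨x1, x2, x3, x4⟩ := DBL_uc heP ha'.1
  obtain ⟨y1, y2, y3, y4⟩ := DBL_uc hpp2 ha''.1
  -- relations for a'
  have ea1 : s * (t * a') = a' := by rw [← mul_assoc]; exact x2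
  have ea2 : a' * (s * t) = a' := x1
  have ea3 : p * a' = a' := by
    rw [← ea1, ← mul_assoc p, hps]
  have ea4 : a' * p = a' := by
    rw [← ea2, mul_assoc, mul_assoc, htp]
  have ea5 : s * a' = 0 := by rw [← ea1, ← mul_assoc, hss, zero_mul]
  have ea6 : a' * t = 0 := by rw [← ea2, mul_assoc, mul_assoc, htt, mul_zero, mul_zero]
  have ea7 : r * a' = 0 := by rw [← ea1, ← mul_assoc, hrs, zero_mul]
  have ea8 : a' * r = 0 := by rw [← ea2, mul_assoc, mul_assoc, htr, mul_zero, mul_zero]
  -- relations for a''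
  have eb1 : t * a'' = 0 := by
    rw [← y2, ← mul_assoc, mul_sub, htp, ← mul_assoc, hts, hrt, sub_self, zero_mul]
  have eb2 : a'' * s = 0 := by
    rw [← y1, mul_assoc, sub_mul, hps, mul_assoc, hts, hsr, sub_self, mul_zero]
  have eb3 : p * a'' = a'' := by
    have := y2
    rw [sub_mul, mul_assoc, eb1, mul_zero, sub_zero] at this
    exact this
  have eb4 : a'' * p = a'' := by
    have := y1
    rw [mul_sub, ← mul_assoc, eb2, zero_mul, sub_zero] at this
    exact this
  have eb5 : s * a'' = 0 := by rw [← eb3, ← mul_assoc, hsp, zero_mul]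
  have eb6 : a'' * t = 0 := by rw [← eb4, mul_assoc, hpt, mul_zero]
  have ea1' : ∀ w, s * (t * (a' * w)) = a' * w := fun w => by
    rw [← mul_assoc t, ← mul_assoc s, ea1]
  have ea2' : ∀ w, a' * (s * (t * w)) = a' * w := fun w => by
    rw [← mul_assoc s, ← mul_assoc a', ea2]
  -- the involution S
  obtain ⟨S, hS⟩ : ∃ S, S = s + t + (p - s * t) := ⟨_, rfl⟩
  have hSS : S * S = p + r := by
    rw [hS]
    simp only [mul_add, add_mul, mul_sub, sub_mul, mul_assoc, hss, hsp, htp, htt, hts, hps, hpt,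
      hpp, DBL_as hss, DBL_as hts, DBL_as hps, hsr, hrt, mul_zero, zero_mul, DBL_as htt,
      DBL_as hsr]
    abel
  have hSstar : star S = S := by
    rw [hS, star_add, star_add, star_sub, star_mul, hst, hp.1, ← ht]
    abel
  have hSU : UC (p + r) S := ⟨by rw [hSstar, hSS], by rw [hSstar, hSS]⟩
  have hScomm : S * u0 = u0 * S := by
    have h1 : S * u0 = a' * s + t * a' + a'' := by
      rw [hS, hu0def]
      simp only [mul_add, add_mul, mul_sub, sub_mul, mul_assoc, ea5, eb5, ea1', eb1, DBL_as htt,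
        ea3, eb3, DBL_as hpt, ea1, mul_zero, zero_mul]
      abel
    have h2 : u0 * S = a' * s + t * a' + a'' := by
      rw [hS, hu0def]
      simp only [mul_add, add_mul, mul_sub, sub_mul, mul_assoc, eb2, ea6, eb6, ea4, eb4, ea2,
        ea2', hss, hsp, DBL_as hss, DBL_as eb2, mul_zero, zero_mul]
      abel
    rw [h1, h2]
  -- the predicate G
  obtain ⟨G, hG⟩ : ∃ G : ℕ → A → Prop, ∀ M g, G M g ↔
      (UC (p + r) g ∧ CC τ (p + r) M u0 (g * u0 * star g)) := ⟨_, fun _ _ => Iff.rfl⟩
  have hGmul : ∀ M K g h, G M g → G K h → G (M + K + 2) (g * h) := by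
    intro M K g h hg hh
    rw [hG] at hg hh ⊢
    refine ⟨DBL_mul hprj hg.1 hh.1, ?_⟩
    have hHg := (hCONJ A τ hTW (p + r) g hprj hg.1).1 u0 hu0
    have hHh := (hCONJ A τ hTW (p + r) h hprj hh.1).1 u0 hu0
    have h1 := (hCONJ A τ hTW (p + r) g hprj hg.1).2 K u0 (h * u0 * star h) hu0.1 hHh.1 hh.2
    have h2 := hTRANS A τ hTW (p + r) hprj M K u0 (g * u0 * star g)
      (g * (h * u0 * star h) * star g) hHg hg.2 h1
    have h3 : g * h * u0 * star (g * h) = g * (h * u0 * star h) * star g := by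
      rw [star_mul]
      noncomm_ring
    rw [h3]
    exact h2
  obtain ⟨z1, z2, z3, z4⟩ := DBL_uc hprj hu0.1
  have hGcomm : ∀ g, UC (p + r) g → g * u0 = u0 * g → G 0 g := by
    intro g hg hc
    rw [hG]
    refine ⟨hg, ?_⟩
    rw [hc, mul_assoc, hg.2, z1]
    exact (hREFL A τ hTW (p + r) hprj).1 u0 hu0
  have hGx : ∀ x, UC p x → G L (x + r) := by
    intro x hx
    rw [hG]
    refine ⟨DBL_add hp hr hpr hx (DBL_self hr), ?_⟩
    have hxa := (hCONJ A τ hTW p x hp hx).1 (a' + a'') ha
    have h1 := hL (a' + a'') (x * (a' + a'') * star x) ha hxa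
    have h2 := hEXT A τ hTW p r (a' + a'') (x * (a' + a'') * star x) (t * a' * s) hp hr hpr
      ha.1 hxa.1 hb L h1
    rw [hu0def, DBL_conj hp hr hpr hx ha.1 hb.1]
    exact h2
  have hGS : G 0 S := hGcomm S hSU hScomm
  obtain ⟨hPU, _, hPc, _⟩ := hPPU A p r s hp hr hpr hts0 hps
  have hPu : PP p s * u0 = u0 * PP p s := by
    have := hPc a' a'' (by rw [← ht]; exact x2) (by rw [← ht]; exact x1)
      (by rw [← ht, mul_assoc, eb1, mul_zero]) (by rw [← ht, ← mul_assoc, eb2, zero_mul]) eb3 eb4
    rw [← ht] at this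
    rw [hu0def]
    exact this
  have hGP : G 0 (PP p s) := hGcomm _ hPU hPu
  have hGP' : G 0 (star (PP p s)) := by
    refine hGcomm _ (DBL_star hPU) ?_
    obtain ⟨q1, q2, q3, q4⟩ := DBL_uc hprj hPU
    calc star (PP p s) * u0 = star (PP p s) * (u0 * (PP p s * star (PP p s))) := by
          rw [hPU.2, z1]
      _ = star (PP p s) * (PP p s * u0) * star (PP p s) := by
          rw [hPu]
          noncomm_ring
      _ = (star (PP p s) * PP p s) * u0 * star (PP p s) := by noncomm_ring
      _ = u0 * star (PP p s) := by rw [hPU.1, z2]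
  -- type (v)
  have hqP : IsPrj ((p - s * t) + r) := DBL_sum_prj hpp2 hr hpr2
  have hGy : ∀ y, UC ((p - s * t) + r) y → G (L + 4) (y + s * t) := by
    intro y hy
    obtain ⟨w1, w2, w3, w4⟩ := DBL_uc hqP hy
    have hSqS : S * ((p - s * t) + r) * S = p := by
      rw [hS]
      simp only [mul_add, add_mul, mul_sub, sub_mul, mul_assoc, hss, hsp, htp, htt, hts, hps, hpt,
        hpp, DBL_as hss, DBL_as hts, DBL_as hps, hsr, hrt, mul_zero, zero_mul, DBL_as htt,
        DBL_as hsr, DBL_as hsp, DBL_as htp, DBL_as hrt, hrs, hrp, hpr, htr, DBL_as htr, DBL_as hpr,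
        DBL_as hpp, hrr]
      abel
    have hqy : (p + r) * y = y := by
      have : (p + r) * ((p - s * t) + r) = (p - s * t) + r := by
        simp only [mul_add, add_mul, mul_sub, mul_assoc, hpp, DBL_as hps, hpr, hrp, DBL_as hrs,
          hrr, zero_mul, mul_zero]
        abel
      rw [← w2, ← mul_assoc, this]
    have hyq : y * (p + r) = y := by
      have : ((p - s * t) + r) * (p + r) = (p - s * t) + r := by
        simp only [mul_add, add_mul, sub_mul, mul_assoc, hpp, htp, hpr, hrp, htr,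
          hrr, zero_mul, mul_zero]
        abel
      rw [← w1, mul_assoc, this]
    have hyq' : (p + r) * star y = star y := by
      have := congrArg star hyq
      rwa [star_mul, hprj.1] at this
    have hx : UC p (S * y * S) := by
      constructor
      · calc star (S * y * S) * (S * y * S) = S * (star y * ((S * S) * y)) * S := by
              rw [star_mul, star_mul, hSstar]
              noncomm_ring
          _ = S * ((p - s * t) + r) * S := by rw [hSS, hqy, hy.1]
          _ = p := hSqS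
      · calc (S * y * S) * star (S * y * S) = S * (y * ((S * S) * star y)) * S := by
              rw [star_mul, star_mul, hSstar]
              noncomm_ring
          _ = S * ((p - s * t) + r) * S := by rw [hSS, hyq', hy.2]
          _ = p := hSqS
    have hSrS : S * r * S = s * t := by
      rw [hS]
      simp only [mul_add, add_mul, mul_sub, sub_mul, mul_assoc, hrs, hrt, hrp, htr, hpr,
        DBL_as hrt, DBL_as hrs, DBL_as htr, DBL_as hpr, mul_zero, zero_mul, hsr, DBL_as hsr,
        hss, hsp, DBL_as hss]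
      abel
    have heq : y + s * t = S * (S * y * S + r) * S := by
      calc y + s * t = (p + r) * y * (p + r) + s * t := by rw [hqy, hyq]
        _ = (S * S) * y * (S * S) + S * r * S := by rw [hSS, hSrS]
        _ = S * (S * y * S + r) * S := by noncomm_ring
    rw [heq]
    have := hGmul _ _ _ _ (hGmul _ _ _ _ hGS (hGx _ hx)) hGS
    have hidx : 0 + L + 2 + 0 + 2 = L + 4 := by omega
    rw [hidx] at this
    exact this
  -- all unitaries
  have hGV : ∀ V, UC (p + r) V →
      G (((L + 4) + L + 2) + ((0 + (L + (L + 4) + 2) + 2) + 0 + 2) + 2 + L + 2) V := by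
    intro V hV
    obtain ⟨Y₁, Y₂, Z₁, d, hY1, hY2, hZ1, hd, hVeq⟩ := hCS A τ hII p r s V hp hr hpr hts0 hps hV
    rw [← ht] at hd hVeq
    obtain ⟨d1, d2, d3, d4⟩ := DBL_uc heP hd
    have f1 : G (L + 4) (p + Y₂) := by
      have h1 := hGy _ (DBL_add hpp2 hr hpr2 (DBL_self hpp2) hY2)
      have h2 : p - s * t + Y₂ + s * t = p + Y₂ := by abel
      rwa [h2] at h1
    have f3 : G L ((d + (p - s * t)) + r) := by
      refine hGx _ ?_
      have := DBL_add heP hpp2 hep hd (DBL_self hpp2)
      rwa [hsum1] at this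
    have hdd : UC r (t * star d * s) := by
      constructor
      · calc star (t * star d * s) * (t * star d * s) = t * ((d * (s * t)) * star d) * s := by
              rw [star_mul, star_mul, star_star, hst, ← ht]
              noncomm_ring
          _ = t * (s * t) * s := by rw [d1, hd.2]
          _ = (t * s) * (t * s) := by noncomm_ring
          _ = r := by rw [hts, hrr]
      · calc (t * star d * s) * star (t * star d * s) = t * ((star d * (s * t)) * d) * s := by
              rw [star_mul, star_mul, star_star, hst, ← ht]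
              noncomm_ring
          _ = t * (s * t) * s := by rw [d3, hd.1]
          _ = (t * s) * (t * s) := by noncomm_ring
          _ = r := by rw [hts, hrr]
    have f4 : G (L + 4) ((p - s * t) + t * star d * s + s * t) :=
      hGy _ (DBL_add hpp2 hr hpr2 (DBL_self hpp2) hdd)
    have ed1 : d * (s * t) = d := d1
    have ed2 : d * p = d := by rw [← ed1, mul_assoc, mul_assoc, htp]
    have ed3 : d * t = 0 := by rw [← ed1, mul_assoc, mul_assoc, htt, mul_zero, mul_zero]
    have f34 : ((d + (p - s * t)) + r) * ((p - s * t) + t * star d * s + s * t) =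
        d + (p - s * t) + t * star d * s := by
      simp only [mul_add, add_mul, mul_sub, sub_mul, mul_assoc, ed1, ed2, DBL_as ed3, hpp,
        DBL_as hps, DBL_as hpt, htp, DBL_as hts, hrt, DBL_as htt, hrp, DBL_as hrs, DBL_as hrt,
        mul_zero, zero_mul]
      abel
    have f5 : G (L + (L + 4) + 2) (d + (p - s * t) + t * star d * s) := by
      rw [← f34]
      exact hGmul _ _ _ _ f3 f4
    rw [hVeq]
    have k1 := hGmul _ _ _ _ f1 (hGx _ hY1)
    have k2 := hGmul _ _ _ _ hGP f5
    have k3 := hGmul _ _ _ _ k2 hGP'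
    have k4 := hGmul _ _ _ _ k1 k3
    have k5 := hGmul _ _ _ _ k4 (hGx _ hZ1)
    exact k5
  obtain ⟨M, hM⟩ : ∃ M, ∀ V, UC (p + r) V → G M V := ⟨_, hGV⟩
  have key : ∀ v, HC τ (p + r) v → CC τ (p + r) M u0 v := by
    intro v hv
    refine hCLOSED A τ hTW (p + r) hprj M u0 v ?_
    intro δ hδ
    obtain ⟨g, hg, hg2⟩ := hDENSE A τ hII (p + r) u0 v hprj hu0 hv δ hδ
    refine ⟨u0, g * u0 * star g, ?_, ?_, ((hG _ _).mp (hM g hg)).2⟩
    · rw [sub_self, DBL_n2_zero]
      exact hδ.le
    · rw [DBL_n2_symm]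
      exact hg2
  refine ⟨M + M + 2, fun u v hu hv => ?_⟩
  exact hTRANS A τ hTW (p + r) hprj M M u u0 v hu0
    ((hREFL A τ hTW (p + r) hprj).2.2 M u0 u (key u hu)) (key v hv)

end Pool.Agent.H518R5.SC
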