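import Mathlib
import Pool.Agent.H518R5.SC.Stubs

/-!
Task DENSE: Haar unitaries of a corner are approximately conjugate.
-/

set_option autoImplicit false

open scoped ComplexOrder Topology
open Filter

noncomputable section

namespace Pool.Agent.H518R5.SC

open Pool.Agent.H467F Pool.Agent.H518R4.UG

section

variable {A : Type} [CStarAlgebra A]

theorem dense_right {p u : A} (hp : IsPrj p) (hu : Pool.Agent.H518R5.SC.UC p u) : u * p = u := by
  have h0 : star (u - u * p) * (u - u * p) = 0 := by
    rw [star_sub, star_mul, hp.1]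
    have e : (star u - p * star u) * (u - u * p) =
        star u * u - star u * u * p - p * (star u * u) + p * (star u * u) * p := by noncomm_ring
    rw [e, hu.1, hp.2, hp.2]
    abel
  have h1 := (CStarRing.star_mul_self_eq_zero_iff (u - u * p)).1 h0
  exact (sub_eq_zero.1 h1).symm

theorem dense_left {p u : A} (hp : IsPrj p) (hu : Pool.Agent.H518R5.SC.UC p u) : p * u = u := by
  rw [← hu.2, mul_assoc, hu.1]
  exact dense_right hp hu

theorem dense_part_left {n : ℕ} {p : A} {q : Fin n → A} (hq : IsPart q p) (i : Fin n) :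
    p * q i = q i := by
  rw [← hq.sum, Finset.sum_mul, Finset.sum_eq_single i]
  · exact (hq.prj i).2
  · intro j _ hj
    exact hq.ort j i hj
  · intro h
    exact absurd (Finset.mem_univ i) h

theorem dense_part_right {n : ℕ} {p : A} {q : Fin n → A} (hq : IsPart q p) (i : Fin n) :
    q i * p = q i := by
  rw [← hq.sum, Finset.mul_sum, Finset.sum_eq_single i]
  · exact (hq.prj i).2
  · intro j _ hj
    exact hq.ort i j (Ne.symm hj)
  · intro h
    exact absurd (Finset.mem_univ i) h

theorem dense_n2 {τ : A →ₗ[ℂ] ℂ} (ht : TW τ) {p g y : A} (hg : Pool.Agent.H518R5.SC.UC p g)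
    (hl : p * y = y) (hr : y * p = y) : n2 τ (g * y * star g) = n2 τ y := by
  unfold n2
  have e : star (g * y * star g) * (g * y * star g) =
      g * (star y * ((star g * g) * y) * star g) := by
    rw [star_mul, star_mul, star_star]
    noncomm_ring
  rw [e, hg.1, hl, ht.comm]
  rw [mul_assoc, hg.1, mul_assoc, hr]

end

theorem p_DENSE (hHP : S_HP) (hEQ : S_EQ) : S_DENSE := by
  intro A _ τ hII p u v hp hu hv ε hε
  obtain ⟨m, hm⟩ := exists_nat_gt (40 / ε)
  have hm0 : (0 : ℝ) < m := lt_trans (by positivity) hm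
  have hm0' : 0 < m := by exact_mod_cast hm0
  obtain ⟨q, hq, hqt, hqn⟩ := hHP A τ hII p u hp hu m hm0'
  obtain ⟨q', hq', hqt', hqn'⟩ := hHP A τ hII p v hp hv m hm0'
  obtain ⟨g, hg, hgq⟩ := hEQ A τ hII m p q q' hp hq hq' (fun i => by rw [hqt, hqt'])
  refine ⟨g, hg, ?_⟩
  have ht : TW τ := hII.fct.tw
  set X : A := ∑ s : Fin m, Complex.exp (2 * Real.pi * (s : ℕ) / m * Complex.I) • q s with hX
  set X' : A := ∑ s : Fin m, Complex.exp (2 * Real.pi * (s : ℕ) / m * Complex.I) • q' s with hX'
  have hXX : g * X * star g = X' := by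
    rw [hX, hX', Finset.mul_sum, Finset.sum_mul]
    refine Finset.sum_congr rfl (fun s _ => ?_)
    rw [mul_smul_comm, smul_mul_assoc, hgq]
  have hpX : p * X = X := by
    rw [hX, Finset.mul_sum]
    refine Finset.sum_congr rfl (fun s _ => ?_)
    rw [mul_smul_comm, dense_part_left hq]
  have hXp : X * p = X := by
    rw [hX, Finset.sum_mul]
    refine Finset.sum_congr rfl (fun s _ => ?_)
    rw [smul_mul_assoc, dense_part_right hq]
  have h1 : n2 τ (g * (u - X) * star g) = n2 τ (u - X) := by
    refine dense_n2 ht hg ?_ ?_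
    · rw [mul_sub, hpX, dense_left hp hu.1]
    · rw [sub_mul, hXp, dense_right hp hu.1]
  have e : g * u * star g - v = g * (u - X) * star g + (X' - v) := by
    rw [mul_sub, sub_mul, hXX]
    abel
  rw [e]
  have h2 := ht.n2_add_le (g * (u - X) * star g) (X' - v)
  rw [h1, n2_sub_comm τ X' v] at h2
  have h3 : (40 : ℝ) / m ≤ ε := by
    rw [div_le_iff₀ hm0]
    rw [div_lt_iff₀ hε] at hm
    nlinarith
  have h4 : (20 : ℝ) / m + 20 / m = 40 / m := by ring
  linarith

end Pool.Agent.H518R5.SC
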