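import Pool.Agent.H518R5.SC.Stubs

/-!
# Partitions with the same traces are conjugate
-/

set_option autoImplicit false

open scoped ComplexOrder Topology
open Filter

noncomputable section

namespace Pool.Agent.H518R5.SC

open Pool.Agent.H467F Pool.Agent.H518R4.UG

theorem EQ_src {A : Type} [CStarAlgebra A] {s q : A} (hq : IsPrj q) (h : star s * s = q) :
    s * q = s := by
  have h1 : star (s - s * q) * (s - s * q) = 0 := by
    rw [star_sub, star_mul, hq.1]
    calc (star s - q * star s) * (s - s * q)
        = star s * s - (star s * s) * q - q * (star s * s) + q * (star s * s) * q := by noncomm_ring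
      _ = 0 := by
          rw [h, hq.2, hq.2]
          abel
  have h2 : s - s * q = 0 := (CStarRing.star_mul_self_eq_zero_iff _).1 h1
  exact (sub_eq_zero.1 h2).symm

theorem p_EQ (cmp : S_CMP) : S_EQ := by
  intro A _ τ hτ n p q q' _ hq hq' ht
  have hs : ∀ i, ∃ s : A, star s * s = q i ∧ q' i * s = s ∧ s * star s = q' i := by
    intro i
    obtain ⟨s, h1, h2, -, h3⟩ := cmp A τ hτ (q' i) (q i) (hq'.prj i) (hq.prj i)
      (by rw [ht i])
    exact ⟨s, h1, h2, h3 (by rw [ht i])⟩
  choose s h1 h2 h3 using hs
  have h4 : ∀ i, s i * q i = s i := fun i => EQ_src (hq.prj i) (h1 i)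
  have h5 : ∀ i j, i ≠ j → s i * q j = 0 := by
    intro i j hij
    rw [← h4 i, mul_assoc, hq.ort i j hij, mul_zero]
  have h6 : ∀ i j, i ≠ j → star (s i) * s j = 0 := by
    intro i j hij
    have e1 : star (s i) = star (s i) * q' i := by
      have := congrArg star (h2 i)
      rw [star_mul, (hq'.prj i).1] at this
      exact this.symm
    calc star (s i) * s j = (star (s i) * q' i) * (q' j * s j) := by rw [← e1, h2 j]
      _ = star (s i) * (q' i * q' j) * s j := by simp only [mul_assoc]
      _ = 0 := by rw [hq'.ort i j hij, mul_zero, zero_mul]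
  have h7 : ∀ i j, i ≠ j → s i * star (s j) = 0 := by
    intro i j hij
    have e1 : star (s j) = q j * star (s j) := by
      have := congrArg star (h4 j)
      rw [star_mul, (hq.prj j).1] at this
      exact this.symm
    rw [e1, ← mul_assoc, h5 i j hij, zero_mul]
  refine ⟨∑ i, s i, ⟨?_, ?_⟩, ?_⟩
  · rw [star_sum, Finset.sum_mul_sum, ← hq.sum]
    refine Finset.sum_congr rfl (fun i _ => ?_)
    rw [Finset.sum_eq_single i (fun j _ hj => h6 i j hj.symm)
      (fun h => absurd (Finset.mem_univ i) h), h1 i]
  · rw [star_sum, Finset.sum_mul_sum, ← hq'.sum]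
    refine Finset.sum_congr rfl (fun i _ => ?_)
    rw [Finset.sum_eq_single i (fun j _ hj => h7 i j hj.symm)
      (fun h => absurd (Finset.mem_univ i) h), h3 i]
  · intro i
    have e1 : (∑ j, s j) * q i = s i := by
      rw [Finset.sum_mul, Finset.sum_eq_single i (fun j _ hj => h5 j i hj)
        (fun h => absurd (Finset.mem_univ i) h), h4 i]
    rw [e1, star_sum, Finset.mul_sum, Finset.sum_eq_single i (fun j _ hj => h7 i j hj.symm)
      (fun h => absurd (Finset.mem_univ i) h), h3 i]

end Pool.Agent.H518R5.SC
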