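import Mathlib
import Pool.Agent.H518R5.SC.Stubs
import Pool.Agent.Helper467.FP.P_tau_bounds

/-! EXH: corners contain Haar unitaries (infinite dyadic refinement). -/

set_option autoImplicit false

open scoped ComplexOrder Topology InnerProductSpace
open Filter

noncomputable section

namespace Pool.Agent.H518R5.SC

open Pool.Agent.H467F Pool.Agent.H518R4.UG

section exh

variable {A : Type} [CStarAlgebra A]

/-- orthogonal projections -/
structure exhOP (n : ℕ) (e : ℕ → A) : Prop where
  prj : ∀ i, i < n → IsPrj (e i)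
  ort : ∀ i j, i < n → j < n → i ≠ j → e i * e j = 0

theorem exh_mul {n : ℕ} {e : ℕ → A} (h : exhOP n e) (a b : ℕ → ℂ) :
    (∑ i ∈ Finset.range n, a i • e i) * (∑ i ∈ Finset.range n, b i • e i) =
      ∑ i ∈ Finset.range n, (a i * b i) • e i := by
  rw [Finset.sum_mul]
  refine Finset.sum_congr rfl fun i hi => ?_
  rw [Finset.mul_sum, Finset.sum_eq_single i]
  · rw [smul_mul_smul_comm, (h.prj i (Finset.mem_range.1 hi)).2]
  · intro j hj hij
    rw [smul_mul_smul_comm, h.ort i j (Finset.mem_range.1 hi) (Finset.mem_range.1 hj) hij.symm,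
      smul_zero]
  · intro hn; exact absurd hi hn

theorem exh_star {n : ℕ} {e : ℕ → A} (h : exhOP n e) (a : ℕ → ℂ) :
    star (∑ i ∈ Finset.range n, a i • e i) = ∑ i ∈ Finset.range n, (star (a i)) • e i := by
  rw [star_sum]
  refine Finset.sum_congr rfl fun i hi => ?_
  rw [star_smul, (h.prj i (Finset.mem_range.1 hi)).1]

theorem exh_pow {n : ℕ} {e : ℕ → A} (h : exhOP n e) (a : ℕ → ℂ) (j : ℕ) :
    (∑ i ∈ Finset.range n, a i • e i) ^ (j + 1) = ∑ i ∈ Finset.range n, (a i ^ (j + 1)) • e i := by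
  induction j with
  | zero => simp
  | succ j ih =>
    rw [pow_succ, ih, exh_mul h]
    simp only [pow_succ]

theorem exh_sum2 (f : ℕ → A) (n : ℕ) :
    ∑ i ∈ Finset.range (2 * n), f i = ∑ i ∈ Finset.range n, (f (2 * i) + f (2 * i + 1)) := by
  induction n with
  | zero => simp
  | succ n ih =>
    rw [Nat.mul_succ, Finset.sum_range_succ, Finset.sum_range_succ, ih,
      Finset.sum_range_succ _ n, add_assoc]

/-- halves -/
theorem exh_half {τ : A →ₗ[ℂ] ℂ} (hs : S_SPLIT) (hτ : II τ) (e : A) (he : IsPrj e) :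
    ∃ q : A, IsPrj q ∧ IsPrj (e - q) ∧ q * (e - q) = 0 ∧ (e - q) * q = 0 ∧ τ q = τ e / 2 ∧
      τ (e - q) = τ e / 2 := by
  have h0 : τ e = ((τ e).re : ℂ) := by
    have h1 := hτ.fct.tw.im_zero e
    rw [he.1, he.2] at h1
    apply Complex.ext
    · simp
    · simp [h1]
  have h1 : 0 ≤ (τ e).re := by
    have h1 := hτ.fct.tw.re_nonneg e
    rwa [he.1, he.2] at h1
  obtain ⟨q, hq, hq2⟩ := hs A τ hτ e he 2 (fun _ => (τ e).re / 2) two_pos
    (fun _ => by positivity) (by rw [Fin.sum_univ_two]; ring)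
  have hsum := hq.sum
  rw [Fin.sum_univ_two] at hsum
  have e1 : e - q 0 = q 1 := by rw [← hsum]; abel
  refine ⟨q 0, hq.prj 0, ?_, ?_, ?_, ?_, ?_⟩
  · rw [e1]; exact hq.prj 1
  · rw [e1]; exact hq.ort 0 1 (by decide)
  · rw [e1]; exact hq.ort 1 0 (by decide)
  · rw [hq2 0, h0]; push_cast; simp
  · rw [e1, hq2 1, h0]; push_cast; simp

/-- the tree -/
def exhT (p : A) (h : A → A) : ℕ → ℕ → A
  | 0, _ => p
  | k + 1, i => if i % 2 = 0 then h (exhT p h k (i / 2)) else exhT p h k (i / 2) - h (exhT p h k (i / 2))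

theorem exh_norm_prj {q : A} (hq : IsPrj q) : ‖q‖ ≤ 1 := by
  have h1 : ‖q‖ * ‖q‖ = ‖q‖ := by
    rw [← CStarRing.norm_star_mul_self, hq.1, hq.2]
  by_contra hcon
  push Not at hcon
  nlinarith

end exh

theorem p_EXH (hs : S_SPLIT) : S_EXH := by
  intro A _ τ hτ p hp
  classical
  have hh : ∀ e : A, ∃ q : A, IsPrj e → IsPrj q ∧ IsPrj (e - q) ∧ q * (e - q) = 0 ∧
      (e - q) * q = 0 ∧ τ q = τ e / 2 ∧ τ (e - q) = τ e / 2 := by
    intro e
    by_cases he : IsPrj e
    · obtain ⟨q, hq⟩ := exh_half hs hτ e he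
      exact ⟨q, fun _ => hq⟩
    · exact ⟨0, fun h => absurd h he⟩
  choose h hh using hh
  have hT1 : ∀ k i, IsPrj (exhT p h k i) := by
    intro k
    induction k with
    | zero => intro i; exact hp
    | succ k ih =>
      intro i
      unfold exhT
      split_ifs
      · exact (hh _ (ih _)).1
      · exact (hh _ (ih _)).2.1
  have hT4 : ∀ k i, τ (exhT p h k i) = τ p / 2 ^ k := by
    intro k
    induction k with
    | zero => intro i; simp [exhT]
    | succ k ih =>
      intro i
      unfold exhT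
      split_ifs
      · rw [(hh _ (hT1 k _)).2.2.2.2.1, ih, pow_succ, div_div]
      · rw [(hh _ (hT1 k _)).2.2.2.2.2, ih, pow_succ, div_div]
  have hT5 : ∀ k i, exhT p h (k + 1) (2 * i) + exhT p h (k + 1) (2 * i + 1) = exhT p h k i := by
    intro k i
    have e1 : (2 * i) % 2 = 0 := by omega
    have e2 : ¬ (2 * i + 1) % 2 = 0 := by omega
    have e3 : (2 * i) / 2 = i := by omega
    have e4 : (2 * i + 1) / 2 = i := by omega
    rw [exhT, exhT, if_pos e1, if_neg e2, e3, e4]
    abel
  have hT3 : ∀ k, ∑ i ∈ Finset.range (2 ^ k), exhT p h k i = p := by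
    intro k
    induction k with
    | zero => simp [exhT]
    | succ k ih =>
      rw [pow_succ, mul_comm, exh_sum2]
      simp only [hT5]
      exact ih
  have hsubl : ∀ k i, exhT p h k (i / 2) * exhT p h (k + 1) i = exhT p h (k + 1) i := by
    intro k i
    obtain ⟨a1, a2, a3, a4, -, -⟩ := hh _ (hT1 k (i / 2))
    rw [exhT]
    split_ifs
    · have : exhT p h k (i / 2) = h (exhT p h k (i / 2)) + (exhT p h k (i / 2) - h (exhT p h k (i / 2))) := by
        abel
      calc exhT p h k (i / 2) * h (exhT p h k (i / 2))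
          = (h (exhT p h k (i / 2)) + (exhT p h k (i / 2) - h (exhT p h k (i / 2)))) *
              h (exhT p h k (i / 2)) := by rw [← this]
        _ = h (exhT p h k (i / 2)) := by rw [add_mul, a1.2, a4, add_zero]
    · have : exhT p h k (i / 2) = h (exhT p h k (i / 2)) + (exhT p h k (i / 2) - h (exhT p h k (i / 2))) := by
        abel
      calc exhT p h k (i / 2) * (exhT p h k (i / 2) - h (exhT p h k (i / 2)))
          = (h (exhT p h k (i / 2)) + (exhT p h k (i / 2) - h (exhT p h k (i / 2)))) *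
              (exhT p h k (i / 2) - h (exhT p h k (i / 2))) := by rw [← this]
        _ = (exhT p h k (i / 2) - h (exhT p h k (i / 2))) := by rw [add_mul, a3, a2.2, zero_add]
  have hsubr : ∀ k i, exhT p h (k + 1) i * exhT p h k (i / 2) = exhT p h (k + 1) i := by
    intro k i
    have h1 := congrArg star (hsubl k i)
    rw [star_mul, (hT1 (k + 1) i).1, (hT1 k (i / 2)).1] at h1
    exact h1
  have hT2 : ∀ k i j, i < 2 ^ k → j < 2 ^ k → i ≠ j → exhT p h k i * exhT p h k j = 0 := by
    intro k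
    induction k with
    | zero => intro i j hi hj hij; simp at hi hj; omega
    | succ k ih =>
      intro i j hi hj hij
      have hi2 : i / 2 < 2 ^ k := by rw [pow_succ] at hi; omega
      have hj2 : j / 2 < 2 ^ k := by rw [pow_succ] at hj; omega
      by_cases hc : i / 2 = j / 2
      · obtain ⟨a1, a2, a3, a4, -, -⟩ := hh _ (hT1 k (i / 2))
        rw [exhT, exhT, ← hc]
        by_cases hi0 : i % 2 = 0
        · have hj0 : ¬ j % 2 = 0 := by omega
          rw [if_pos hi0, if_neg hj0]; exact a3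
        · have hj0 : j % 2 = 0 := by omega
          rw [if_neg hi0, if_pos hj0]; exact a4
      · calc exhT p h (k + 1) i * exhT p h (k + 1) j
            = (exhT p h (k + 1) i * exhT p h k (i / 2)) *
                (exhT p h k (j / 2) * exhT p h (k + 1) j) := by rw [hsubr, hsubl]
          _ = exhT p h (k + 1) i * (exhT p h k (i / 2) * exhT p h k (j / 2)) *
                exhT p h (k + 1) j := by noncomm_ring
          _ = 0 := by rw [ih _ _ hi2 hj2 hc, mul_zero, zero_mul]
  have hOP : ∀ k, exhOP (2 ^ k) (exhT p h k) := fun k => ⟨fun i _ => hT1 k i, hT2 k⟩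
  -- the roots of unity
  set z : ℕ → ℂ := fun k => Complex.exp ((2 * Real.pi / 2 ^ k : ℝ) * Complex.I) with hz
  have hz2 : ∀ k, z (k + 1) ^ 2 = z k := by
    intro k
    rw [hz]
    dsimp only
    rw [← Complex.exp_nat_mul]
    congr 1
    push_cast
    rw [pow_succ]
    field_simp
  have hzn : ∀ k, ‖z k‖ = 1 := fun k => Complex.norm_exp_ofReal_mul_I _
  have hzs : ∀ k i, star (z k ^ i) * z k ^ i = 1 := by
    intro k i
    have h1 : (starRingEnd ℂ) (z k ^ i) * z k ^ i = ((‖z k ^ i‖ ^ 2 : ℝ) : ℂ) := by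
      rw [mul_comm, Complex.mul_conj, Complex.normSq_eq_norm_sq]
    rw [norm_pow, hzn, one_pow, one_pow] at h1
    simpa using h1
  have hzprim : ∀ k, IsPrimitiveRoot (z k) (2 ^ k) := by
    intro k
    have h1 := Complex.isPrimitiveRoot_exp (2 ^ k) (by positivity)
    have h2 : z k = Complex.exp (2 * Real.pi * Complex.I / ((2 ^ k : ℕ) : ℂ)) := by
      rw [hz]
      dsimp only
      congr 1
      push_cast
      ring
    rw [h2]; exact h1
  have hz1 : ∀ k, ‖z (k + 1) - 1‖ ≤ 2 * Real.pi * (1 / 2) ^ (k + 1) := by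
    intro k
    have h1 : ‖Complex.exp (Complex.I * ((2 * Real.pi / 2 ^ (k + 1) : ℝ) : ℂ)) - 1‖ ≤
        ‖(2 * Real.pi / 2 ^ (k + 1) : ℝ)‖ := Real.norm_exp_I_mul_ofReal_sub_one_le
    have h2 : z (k + 1) = Complex.exp (Complex.I * ((2 * Real.pi / 2 ^ (k + 1) : ℝ) : ℂ)) := by
      rw [hz]; dsimp only; rw [mul_comm]
    rw [h2]
    refine h1.trans (le_of_eq ?_)
    rw [Real.norm_eq_abs, abs_of_nonneg (by positivity), one_div, inv_pow]
    rfl
  -- the approximations
  set U : ℕ → A := fun k => ∑ i ∈ Finset.range (2 ^ k), z k ^ i • exhT p h k i with hU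
  have hUstar : ∀ k, star (U k) = ∑ i ∈ Finset.range (2 ^ k), star (z k ^ i) • exhT p h k i :=
    fun k => exh_star (hOP k) _
  have hU1 : ∀ k, star (U k) * U k = p := by
    intro k
    rw [hUstar, exh_mul (hOP k)]
    simp only [hzs, one_smul]
    exact hT3 k
  have hU2 : ∀ k, U k * star (U k) = p := by
    intro k
    rw [hUstar, exh_mul (hOP k)]
    simp only [mul_comm _ (star (z k ^ _)), hzs, one_smul]
    exact hT3 k
  have hUtr : ∀ k j, 0 < j → j < 2 ^ k → τ (U k ^ j) = 0 := by
    intro k j hj hjk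
    obtain ⟨j, rfl⟩ : ∃ j', j = j' + 1 := ⟨j - 1, by omega⟩
    rw [exh_pow (hOP k), map_sum]
    simp only [map_smul, hT4, smul_eq_mul]
    rw [← Finset.sum_mul]
    have h1 : ∑ i ∈ Finset.range (2 ^ k), (z k ^ i) ^ (j + 1) =
        ∑ i ∈ Finset.range (2 ^ k), (z k ^ (j + 1)) ^ i := by
      refine Finset.sum_congr rfl fun i _ => ?_
      rw [← pow_mul, ← pow_mul, mul_comm]
    have h2 : z k ^ (j + 1) ≠ 1 := by
      intro h3
      have := (hzprim k).dvd_of_pow_eq_one _ h3
      have := Nat.le_of_dvd (by omega) this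
      omega
    rw [h1, geom_sum_eq h2]
    have h3 : (z k ^ (j + 1)) ^ (2 ^ k) = 1 := by
      rw [← pow_mul, mul_comm, pow_mul, (hzprim k).pow_eq_one, one_pow]
    rw [h3, sub_self, zero_div, zero_mul]
  -- the differences
  have hUd : ∀ k, ‖U (k + 1) - U k‖ ≤ 2 * Real.pi * (1 / 2) ^ (k + 1) := by
    intro k
    set w : A := ∑ i ∈ Finset.range (2 ^ k), z k ^ i • exhT p h (k + 1) (2 * i + 1) with hw
    have hOPo : exhOP (2 ^ k) (fun i => exhT p h (k + 1) (2 * i + 1)) :=
      ⟨fun i _ => hT1 _ _, fun i j hi hj hij => hT2 (k + 1) _ _ (by rw [pow_succ]; omega)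
        (by rw [pow_succ]; omega) (by omega)⟩
    have hd : U (k + 1) - U k = (z (k + 1) - 1) • w := by
      have e1 : U (k + 1) = ∑ i ∈ Finset.range (2 ^ k), (z k ^ i • exhT p h (k + 1) (2 * i) +
          (z (k + 1) * z k ^ i) • exhT p h (k + 1) (2 * i + 1)) := by
        rw [hU]
        dsimp only
        rw [show 2 ^ (k + 1) = 2 * 2 ^ k by rw [pow_succ, mul_comm], exh_sum2]
        refine Finset.sum_congr rfl fun i _ => ?_
        rw [pow_succ (z (k + 1)) (2 * i), pow_mul, hz2, mul_comm (z k ^ i)]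
      have e2 : U k = ∑ i ∈ Finset.range (2 ^ k), (z k ^ i • exhT p h (k + 1) (2 * i) +
          z k ^ i • exhT p h (k + 1) (2 * i + 1)) := by
        rw [hU]
        dsimp only
        refine Finset.sum_congr rfl fun i _ => ?_
        rw [← smul_add, hT5]
      rw [e1, e2, ← Finset.sum_sub_distrib, hw, Finset.smul_sum]
      refine Finset.sum_congr rfl fun i _ => ?_
      rw [add_sub_add_left_eq_sub, ← sub_smul, smul_smul]
      congr 1
      ring
    have hwn : ‖w‖ ≤ 1 := by
      have e1 : star w * w = ∑ i ∈ Finset.range (2 ^ k), exhT p h (k + 1) (2 * i + 1) := by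
        rw [hw, exh_star hOPo, exh_mul hOPo]
        simp only [hzs, one_smul]
      have e2 : IsPrj (star w * w) := by
        refine ⟨by rw [star_mul, star_star], ?_⟩
        have e3 := exh_mul hOPo (fun _ => 1) (fun _ => 1)
        simp only [one_smul, mul_one] at e3
        rw [e1, e3]
      have e4 := exh_norm_prj e2
      rw [CStarRing.norm_star_mul_self] at e4
      by_contra hcon
      push Not at hcon
      nlinarith
    rw [hd, norm_smul]
    calc ‖z (k + 1) - 1‖ * ‖w‖ ≤ ‖z (k + 1) - 1‖ * 1 :=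
          mul_le_mul_of_nonneg_left hwn (norm_nonneg _)
      _ ≤ _ := by rw [mul_one]; exact hz1 k
  have hcau : CauchySeq U := by
    refine cauchySeq_of_le_geometric (1 / 2) (Real.pi) (by norm_num) fun k => ?_
    rw [dist_comm, dist_eq_norm]
    refine (hUd k).trans (le_of_eq ?_)
    rw [pow_succ]; ring
  obtain ⟨u, hu⟩ := cauchySeq_tendsto_of_complete hcau
  have hb := tau_bounds hτ.fct.tw
  have hτc : Continuous τ := by
    refine AddMonoidHomClass.continuous_of_bound τ 1 fun x => ?_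
    rw [one_mul]
    exact (hb.1 x).trans (hb.2 x)
  refine ⟨u, ⟨?_, ?_⟩, ?_⟩
  · have h1 : Tendsto (fun k => star (U k) * U k) atTop (𝓝 (star u * u)) := hu.star.mul hu
    simp only [hU1] at h1
    exact tendsto_nhds_unique h1 tendsto_const_nhds
  · have h1 : Tendsto (fun k => U k * star (U k)) atTop (𝓝 (u * star u)) := hu.mul hu.star
    simp only [hU2] at h1
    exact tendsto_nhds_unique h1 tendsto_const_nhds
  · intro j hj
    have h1 : Tendsto (fun k => τ (U k ^ j)) atTop (𝓝 (τ (u ^ j))) :=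
      (hτc.tendsto _).comp (hu.pow j)
    have h2 : Tendsto (fun k => τ (U k ^ j)) atTop (𝓝 0) := by
      refine tendsto_const_nhds.congr' ?_
      filter_upwards [eventually_ge_atTop j] with k hk
      exact (hUtr k j hj (lt_of_le_of_lt hk Nat.lt_two_pow_self)).symm
    exact tendsto_nhds_unique h1 h2

end Pool.Agent.H518R5.SC
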