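import Pool.Agent.H518R5.SC.Stubs

/-!
# Enlarging the corner
-/

set_option autoImplicit false

open scoped ComplexOrder Topology
open Filter

noncomputable section

namespace Pool.Agent.H518R5.SC

open Pool.Agent.H467F Pool.Agent.H518R4.UG

variable {A : Type} [CStarAlgebra A]

theorem ext_right {p u : A} (hp : IsPrj p) (hu : UC p u) : u * p = u := by
  have h1 : star (u - u * p) * (u - u * p) = 0 := by
    rw [star_sub, star_mul, hp.1]
    calc (star u - p * star u) * (u - u * p)
        = star u * u - star u * u * p - p * (star u * u) + p * (star u * u) * p := by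
          noncomm_ring
      _ = 0 := by rw [hu.1, hp.2, hp.2]; noncomm_ring
  have h2 := CStarRing.star_mul_self_eq_zero_iff (u - u * p) |>.1 h1
  exact (sub_eq_zero.1 h2).symm

theorem ext_left {p u : A} (hp : IsPrj p) (hu : UC p u) : p * u = u := by
  have h1 : (u - p * u) * star (u - p * u) = 0 := by
    rw [star_sub, star_mul, hp.1]
    calc (u - p * u) * (star u - star u * p)
        = u * star u - u * star u * p - p * (u * star u) + p * (u * star u) * p := by
          noncomm_ring
      _ = 0 := by rw [hu.2, hp.2, hp.2]; noncomm_ring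
  have h2 := CStarRing.mul_star_self_eq_zero_iff (u - p * u) |>.1 h1
  exact (sub_eq_zero.1 h2).symm

theorem ext_zero {p r x b : A} (hp : IsPrj p) (hr : IsPrj r) (hpr : p * r = 0) (hx : UC p x)
    (hb : UC r b) : x * b = 0 ∧ b * x = 0 ∧ star x * b = 0 ∧ star b * x = 0 ∧
      x * star b = 0 ∧ b * star x = 0 := by
  have hrp : r * p = 0 := by
    have h := congrArg star hpr
    rwa [star_mul, hp.1, hr.1, star_zero] at h
  have x1 := ext_right hp hx
  have x2 := ext_left hp hx
  have b1 := ext_right hr hb
  have b2 := ext_left hr hb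
  have x3 : star x * p = star x := by
    have h := congrArg star x2
    rwa [star_mul, hp.1] at h
  have x4 : p * star x = star x := by
    have h := congrArg star x1
    rwa [star_mul, hp.1] at h
  have b3 : star b * r = star b := by
    have h := congrArg star b2
    rwa [star_mul, hr.1] at h
  have b4 : r * star b = star b := by
    have h := congrArg star b1
    rwa [star_mul, hr.1] at h
  refine ⟨?_, ?_, ?_, ?_, ?_, ?_⟩
  · calc x * b = (x * p) * (r * b) := by rw [x1, b2]
      _ = x * (p * r) * b := by noncomm_ring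
      _ = 0 := by rw [hpr, mul_zero, zero_mul]
  · calc b * x = (b * r) * (p * x) := by rw [b1, x2]
      _ = b * (r * p) * x := by noncomm_ring
      _ = 0 := by rw [hrp, mul_zero, zero_mul]
  · calc star x * b = (star x * p) * (r * b) := by rw [x3, b2]
      _ = star x * (p * r) * b := by noncomm_ring
      _ = 0 := by rw [hpr, mul_zero, zero_mul]
  · calc star b * x = (star b * r) * (p * x) := by rw [b3, x2]
      _ = star b * (r * p) * x := by noncomm_ring
      _ = 0 := by rw [hrp, mul_zero, zero_mul]
  · calc x * star b = (x * p) * (r * star b) := by rw [x1, b4]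
      _ = x * (p * r) * star b := by noncomm_ring
      _ = 0 := by rw [hpr, mul_zero, zero_mul]
  · calc b * star x = (b * r) * (p * star x) := by rw [b1, x4]
      _ = b * (r * p) * star x := by noncomm_ring
      _ = 0 := by rw [hrp, mul_zero, zero_mul]

theorem ext_uc {p r x b : A} (hp : IsPrj p) (hr : IsPrj r) (hpr : p * r = 0) (hx : UC p x)
    (hb : UC r b) : UC (p + r) (x + b) := by
  obtain ⟨-, -, h3, h4, h5, h6⟩ := ext_zero hp hr hpr hx hb
  constructor
  · rw [star_add]
    calc (star x + star b) * (x + b) = star x * x + star x * b + star b * x + star b * b := by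
          noncomm_ring
      _ = p + r := by rw [h3, h4, hx.1, hb.1, add_zero, add_zero]
  · rw [star_add]
    calc (x + b) * (star x + star b) = x * star x + x * star b + b * star x + b * star b := by
          noncomm_ring
      _ = p + r := by rw [h5, h6, hx.2, hb.2, add_zero, add_zero]

theorem ext_pow {x b : A} (h1 : x * b = 0) (h2 : b * x = 0) (k : ℕ) :
    (x + b) ^ (k + 1) = x ^ (k + 1) + b ^ (k + 1) := by
  induction k with
  | zero => simp
  | succ k ih =>
    have h3 : x ^ (k + 1) * b = 0 := by rw [pow_succ, mul_assoc, h1, mul_zero]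
    have h4 : b ^ (k + 1) * x = 0 := by rw [pow_succ, mul_assoc, h2, mul_zero]
    rw [pow_succ, ih, mul_add, add_mul, add_mul, h3, h4, pow_succ x (k + 1),
      pow_succ b (k + 1), add_zero, zero_add]

theorem ext_cm {x y b : A} (h1 : x * b = 0) (h2 : b * x = 0) (h3 : y * b = 0)
    (h4 : b * y = 0) : cm (x + b) (y + b) = cm x y := by
  unfold cm
  calc (x + b) * (y + b) - (y + b) * (x + b) =
      x * y + x * b + b * y + b * b - (y * x + y * b + b * x + b * b) := by noncomm_ring
    _ = x * y - y * x := by rw [h1, h2, h3, h4]; noncomm_ring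

theorem p_EXT : S_EXT := by
  intro A _ τ _ p r a c b hp hr hpr ha hc hb n hcc ε hε
  obtain ⟨w, hw1, hw2, hw3, hw4, hw5⟩ := hcc ε hε
  have za := ext_zero hp hr hpr ha hb.1
  have zc := ext_zero hp hr hpr hc hb.1
  have zw : ∀ i, w i * b = 0 ∧ b * w i = 0 := fun i =>
    ⟨(ext_zero hp hr hpr (hw1 i) hb.1).1, (ext_zero hp hr hpr (hw1 i) hb.1).2.1⟩
  refine ⟨fun i => w i + b, fun i => ext_uc hp hr hpr (hw1 i) hb.1, fun i k hk hkε => ?_, ?_,
    fun i => ?_, ?_⟩
  · obtain ⟨k', rfl⟩ : ∃ k', k = k' + 1 := ⟨k - 1, by omega⟩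
    have h1 := hw2 i (k' + 1) hk hkε
    change ‖τ ((w i + b) ^ (k' + 1))‖ ≤ ε
    rw [ext_pow (zw i).1 (zw i).2, map_add, hb.2 (k' + 1) hk, add_zero]
    exact h1
  · rw [ext_cm za.1 za.2.1 (zw 0).1 (zw 0).2]
    exact hw3
  · rw [ext_cm (zw _).1 (zw _).2 (zw _).1 (zw _).2]
    exact hw4 i
  · rw [ext_cm (zw _).1 (zw _).2 zc.1 zc.2.1]
    exact hw5

end Pool.Agent.H518R5.SC
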