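import Pool.Agent.H518R5.SC.Stubs

set_option autoImplicit false

open scoped ComplexOrder Topology
open Filter

namespace Pool.Agent.H518R5.SC

open Pool.Agent.H467F Pool.Agent.H518R4.UG

theorem EXTU_mul {A : Type} [CStarAlgebra A] {s e : A} (he : IsPrj e) (h : star s * s = e) :
    s * e = s := by
  have h1 : star (s * e - s) * (s * e - s) = 0 := by
    rw [star_sub, star_mul, he.1]
    calc (e * star s - star s) * (s * e - s)
        = e * (star s * s) * e - e * (star s * s) - (star s * s) * e + star s * s := by noncomm_ring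
      _ = 0 := by rw [h, he.2, he.2]; abel
  have h2 := (CStarRing.star_mul_self_eq_zero_iff _).1 h1
  exact sub_eq_zero.1 h2

theorem p_EXTU (hCMP : S_CMP) : S_EXTU := by
  intro A _ τ hII e f t he hf he1 hf1 hte hft hτ
  set e1 : A := star t * t with he1d
  set f1 : A := t * star t with hf1d
  have hte1 : t * e1 = t := EXTU_mul he1 rfl
  have hf1t : f1 * t = t := by rw [hf1d, mul_assoc]; exact hte1
  have h1 : e1 * e = e1 := by rw [he1d, mul_assoc, hte]
  have h2 : e * e1 = e1 := by
    have := congrArg star h1
    rwa [star_mul, he.1, he1.1] at this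
  have h3 : f * f1 = f1 := by rw [hf1d, ← mul_assoc, hft]
  have h4 : f1 * f = f1 := by
    have := congrArg star h3
    rwa [star_mul, hf.1, hf1.1] at this
  have he' : IsPrj (e - e1) := by
    refine ⟨?_, ?_⟩
    · rw [star_sub, he.1, he1.1]
    · rw [sub_mul, mul_sub, mul_sub, he.2, h2, h1, he1.2]; abel
  have hf' : IsPrj (f - f1) := by
    refine ⟨?_, ?_⟩
    · rw [star_sub, hf.1, hf1.1]
    · rw [sub_mul, mul_sub, mul_sub, hf.2, h3, h4, hf1.2]; abel
  have htr : τ e1 = τ f1 := hII.fct.tw.comm (star t) t
  obtain ⟨s, hs1, hs2, hs3, hs4⟩ := hCMP A τ hII (f - f1) (e - e1) hf' he' (by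
    rw [map_sub, map_sub, htr, Complex.sub_re, Complex.sub_re]
    linarith)
  have hse : s * (e - e1) = s := EXTU_mul he' hs1
  have z1 : star t * s = 0 := by
    have e1' : star t = star t * f1 := by
      have := congrArg star hf1t
      rw [star_mul, hf1.1] at this
      exact this.symm
    rw [e1', ← hs2, mul_assoc, ← mul_assoc f1, mul_sub, h4, hf1.2, sub_self, zero_mul, mul_zero]
  have z2 : star s * t = 0 := by
    have := congrArg star z1
    rwa [star_mul, star_star, star_zero] at this
  have z3 : e1 * (e - e1) = 0 := by rw [mul_sub, h1, he1.2, sub_self]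
  have z4 : (e - e1) * e1 = 0 := by rw [sub_mul, h2, he1.2, sub_self]
  have z5 : t * star s = 0 := by
    have e2 : star s = (e - e1) * star s := by
      have := congrArg star hse
      rw [star_mul, he'.1] at this
      exact this.symm
    rw [← hte1, e2, mul_assoc, ← mul_assoc e1, z3, zero_mul, mul_zero]
  have z6 : s * star t = 0 := by
    have := congrArg star z5
    rwa [star_mul, star_star, star_zero] at this
  have z7 : f1 * s = 0 := by
    rw [hf1d, mul_assoc, z1, mul_zero]
  have z8 : star s * f1 = 0 := by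
    rw [hf1d, ← mul_assoc, z2, zero_mul]
  have hgg : (t + s) * star (t + s) = f1 + s * star s := by
    rw [star_add, add_mul, mul_add, mul_add, z5, z6]
    rw [add_zero, zero_add]
  refine ⟨t + s, ?_, ?_, ?_, ?_, ?_⟩
  · rw [star_add, add_mul, mul_add, mul_add, z1, z2, hs1]
    rw [add_zero, zero_add]
    show e1 + (e - e1) = e
    abel
  · rw [mul_add, hft]
    have : f * s = s := by
      rw [← hs2, ← mul_assoc, mul_sub, hf.2, h3]
    rw [this]
  · rw [hgg]
    refine ⟨?_, ?_⟩
    · rw [star_add, hf1.1, hs3.1]
    · rw [add_mul, mul_add, mul_add, hf1.2, hs3.2, ← mul_assoc f1, z7, zero_mul, mul_assoc s, z8,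
        mul_zero]
      rw [add_zero, zero_add]
  · have : s * e1 = 0 := by rw [← hse, mul_assoc, z4, mul_zero]
    rw [add_mul, hte1, this, add_zero]
  · intro heq
    rw [hgg, hs4 (by
      rw [map_sub, map_sub, htr, Complex.sub_re, Complex.sub_re]
      linarith)]
    abel

end Pool.Agent.H518R5.SC
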