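import Mathlib
import Pool.Agent.H518R5.SC.Stubs
import Pool.Agent.H518R4.UG.Stubs

/-!
Sequential commutation orbits of corners (MP_52dd0f_an): the assembly (task FIN).
-/

set_option autoImplicit false

open scoped ComplexOrder Topology InnerProductSpace
open Filter

noncomputable section

namespace Pool.Agent.H518R5.SC

open Pool.Agent.H467F Pool.Agent.H518R4.UG

section general

variable {A : Type} [CStarAlgebra A]

theorem FIN_equiv (hJOIN : S_JOIN) (hREFL : S_REFL) (hTRANS : S_TRANS) (τ : A →ₗ[ℂ] ℂ)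
    (hτ : TW τ) (U : Ultrafilter ℕ) (hU : (U : Filter ℕ) ≤ Filter.cofinite) (p : A)
    (hp : IsPrj p) :
    Equivalence (fun u v : {u : A // HC τ p u} => Joined τ U p u v) where
  refl u := (hJOIN A τ hτ U hU p u u hp).2 ⟨0, (hREFL A τ hτ p hp).1 u u.2⟩
  symm := by
    intro u v h
    obtain ⟨n, hn⟩ := (hJOIN A τ hτ U hU p u v hp).1 h
    exact (hJOIN A τ hτ U hU p v u hp).2 ⟨n, (hREFL A τ hτ p hp).2.2 n _ _ hn⟩
  trans := by
    intro u v x h1 h2
    obtain ⟨n, hn⟩ := (hJOIN A τ hτ U hU p u v hp).1 h1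
    obtain ⟨m, hm⟩ := (hJOIN A τ hτ U hU p v x hp).1 h2
    exact (hJOIN A τ hτ U hU p u x hp).2 ⟨n + m + 2, hTRANS A τ hτ p hp n m u v x v.2 hn hm⟩

theorem FIN_mk_eq (hJOIN : S_JOIN) (hREFL : S_REFL) (hTRANS : S_TRANS) (τ : A →ₗ[ℂ] ℂ)
    (hτ : TW τ) (U : Ultrafilter ℕ) (hU : (U : Filter ℕ) ≤ Filter.cofinite) (p : A)
    (hp : IsPrj p) (u v : {u : A // HC τ p u})
    (h : Quot.mk (fun u v : {u : A // HC τ p u} => Joined τ U p u v) u = Quot.mk _ v) :
    Joined τ U p u v := by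
  rw [Quot.eq] at h
  exact (FIN_equiv hJOIN hREFL hTRANS τ hτ U hU p hp).eqvGen_iff.1 h

theorem FIN_uni (hJOIN : S_JOIN) (hEXH : S_EXH) (τ : A →ₗ[ℂ] ℂ) (hI : II τ)
    (U : Ultrafilter ℕ) (hU : (U : Filter ℕ) ≤ Filter.cofinite) (p : A) (hp : IsPrj p)
    (h : Uni τ p) : Cardinal.mk (Orb τ U p) = 1 := by
  rw [Cardinal.eq_one_iff_unique]
  obtain ⟨L, hL⟩ := h
  obtain ⟨u, hu⟩ := hEXH A τ hI p hp
  refine ⟨⟨?_⟩, ⟨Quot.mk _ ⟨u, hu⟩⟩⟩
  intro a b
  induction a using Quot.ind with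
  | mk a =>
    induction b using Quot.ind with
    | mk b =>
      exact Quot.sound ((hJOIN A τ hI.fct.tw U hU p a b hp).2 ⟨L, hL a b a.2 b.2⟩)

theorem FIN_not (hJOIN : S_JOIN) (hREFL : S_REFL) (hTRANS : S_TRANS) (hBAIRE : S_BAIRE)
    (hINTR : S_INTR) (hCARD : S_CARD) (hEXH : S_EXH) (τ : A →ₗ[ℂ] ℂ) (hI : II τ) (hS : Sep2 τ)
    (U : Ultrafilter ℕ) (hU : (U : Filter ℕ) ≤ Filter.cofinite) (p : A) (hp : IsPrj p)
    (h : ¬ Uni τ p) : Cardinal.mk (Orb τ U p) = Cardinal.continuum := by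
  apply le_antisymm
  · have h1 : Cardinal.mk (Orb τ U p) ≤ Cardinal.mk {u : A // HC τ p u} :=
      Cardinal.mk_le_of_surjective (f := Quot.mk _) Quot.mk_surjective
    have h2 : Cardinal.mk {u : A // HC τ p u} ≤ Cardinal.mk A := Cardinal.mk_subtype_le _
    exact (h1.trans h2).trans (hCARD A τ hI.fct.tw hS)
  · rcases hBAIRE A τ hI.fct.tw p hp (hEXH A τ hI p hp) with h1 | ⟨f, hf1, hf2⟩
    · exact absurd (hINTR A τ hI p hp h1) h
    · have hc : Cardinal.mk (ℕ → Bool) = Cardinal.continuum := by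
        rw [← Cardinal.power_def, Cardinal.mk_bool, Cardinal.mk_nat, Cardinal.two_power_aleph0]
      rw [← hc]
      refine Cardinal.mk_le_of_injective (f := fun b => (Quot.mk _ ⟨f b, hf1 b⟩ : Orb τ U p)) ?_
      intro b b' hbb
      by_contra hne
      have h2 := FIN_mk_eq hJOIN hREFL hTRANS τ hI.fct.tw U hU p hp _ _ hbb
      obtain ⟨n, hn⟩ := (hJOIN A τ hI.fct.tw U hU p _ _ hp).1 h2
      exact hf2 b b' hne n hn

end general

/-- FIN: the theorem. -/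
theorem p_FIN (hFCT : Pool.Agent.H518R4.UG.S_FCT) (hJOIN : S_JOIN) (hREFL : S_REFL)
    (hTRANS : S_TRANS) (hBAIRE : S_BAIRE) (hINTR : S_INTR) (hCARD : S_CARD) (hEXH : S_EXH)
    (hMONO : S_MONO) (hFSC : S_FSC) (hPOLC : S_POLC) (hSEPC : S_SEPC) : S_FIN := by
  intro H _ _ _ _ N t hN U hU p q hp hq hp0 hqp
  have hI : II t :=
    { fct := hFCT H N t hN
      fs2 := hFSC H N
      pol := hPOLC H N }
  have hS : Sep2 t := hSEPC H N t hN
  have key : ∀ e : Elt N, IsPrj e → (Uni t e → Cardinal.mk (Orb t U e) = 1) ∧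
      (¬ Uni t e → Cardinal.mk (Orb t U e) = Cardinal.continuum) := by
    intro e he
    exact ⟨FIN_uni hJOIN hEXH t hI U hU e he,
      FIN_not hJOIN hREFL hTRANS hBAIRE hINTR hCARD hEXH t hI hS U hU e he⟩
  have h1c : (1 : Cardinal) ≤ Cardinal.continuum := by
    have := (Cardinal.nat_lt_continuum 1).le
    simpa using this
  by_cases hu : Uni t p
  · have hp1 := (key p hp).1 hu
    have hq1 := (key q hq).1 (hMONO _ t hI p q hp hq hqp hp0 hu)
    refine ⟨Or.inl hp1, ?_⟩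
    rw [hp1, hq1]
  · have hp1 := (key p hp).2 hu
    refine ⟨Or.inr hp1, ?_⟩
    rw [hp1]
    by_cases huq : Uni t q
    · rw [(key q hq).1 huq]
      exact h1c
    · rw [(key q hq).2 huq]

end Pool.Agent.H518R5.SC
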