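import Mathlib
import Pool.Agent.H518R5.SC.Stubs
import Pool.Agent.H130R2.Kad5.C5
import Pool.Agent.H445R2.Kad4.Range
import Pool.Agent.H518R4.UG.FCT

/-!
Task FSC: approximation by elements with finite spectrum, the spectral projections commuting with
the commutant (adapted from FCT and Kad5.C5).
-/

set_option autoImplicit false

noncomputable section

namespace Pool.Agent.H518R5.SC.FSC

section kad

open H759R2.Kad
open scoped ComplexOrder InnerProductSpace ComplexConjugate

universe u

/-- Positive and negative parts. -/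
theorem partsc {A : Type u} [CStarAlgebra A] (x : A) (hx : star x = x) :
    ∃ c d : A, Pos c ∧ Pos d ∧ star c = c ∧ star d = d ∧ x = c - d ∧ c * d = 0 ∧ d * c = 0 ∧
      ∀ z : A, x * z = z * x → c * z = z * c := by
  have hsa : IsSelfAdjoint x := hx
  set y : A := cfc (fun r : ℝ => Real.sqrt (max r 0)) x with hy
  set z : A := cfc (fun r : ℝ => Real.sqrt (max (-r) 0)) x with hz
  have hys : star y = y := (cfc_predicate (R := ℝ) (fun r : ℝ => Real.sqrt (max r 0)) x : IsSelfAdjoint _)
  have hzs : star z = z := (cfc_predicate (R := ℝ) (fun r : ℝ => Real.sqrt (max (-r) 0)) x : IsSelfAdjoint _)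
  have hc : star y * y = cfc (fun r : ℝ => max r 0) x := by
    rw [hys, hy, ← cfc_mul _ _ x (by fun_prop) (by fun_prop)]
    congr 1
    ext r
    exact Real.mul_self_sqrt (le_max_right _ _)
  have hd : star z * z = cfc (fun r : ℝ => max (-r) 0) x := by
    rw [hzs, hz, ← cfc_mul _ _ x (by fun_prop) (by fun_prop)]
    congr 1
    ext r
    exact Real.mul_self_sqrt (le_max_right _ _)
  have hcs : star (star y * y) = star y * y := by rw [star_mul, star_star]
  have hds : star (star z * z) = star z * z := by rw [star_mul, star_star]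
  have h0 : (star y * y) * (star z * z) = 0 := by
    rw [hc, hd, ← cfc_mul _ _ x (by fun_prop) (by fun_prop)]
    have : (fun r : ℝ => max r 0 * max (-r) 0) = fun _ => (0 : ℝ) := by
      ext r
      rcases le_total r 0 with h | h
      · rw [max_eq_right h, zero_mul]
      · rw [max_eq_right (by linarith : -r ≤ 0), mul_zero]
    rw [this]
    exact cfc_const_zero ℝ x
  refine ⟨star y * y, star z * z, ⟨y, rfl⟩, ⟨z, rfl⟩, hcs, hds, ?_, h0, ?_, ?_⟩
  · rw [hc, hd, ← cfc_sub _ _ x (by fun_prop) (by fun_prop)]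
    conv_lhs => rw [← cfc_id' ℝ x]
    congr 1
    ext r
    rcases le_total r 0 with h | h
    · rw [max_eq_right h, max_eq_left (by linarith : 0 ≤ -r)]; ring
    · rw [max_eq_left h, max_eq_right (by linarith : -r ≤ 0)]; ring
  · have := congrArg star h0
    rw [star_mul, hcs, hds, star_zero] at this
    exact this
  · intro w hw
    rw [hc]
    exact (hsa.commute_cfc (show Commute x w from hw) _).eq

theorem specc (h : F_range.{u}) (H : Type u) [NormedAddCommGroup H] [InnerProductSpace ℂ H] [CompleteSpace H]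
    (M : VonNeumannAlgebra H) (s a : M.toStarSubalgebra) (t : ℝ) (hs : Prj s) (ha : star a = a)
      (hsa : s * a = a) : ∃ e, Prj e ∧ s * e = e ∧ e * a = a * e ∧ Pos (a * e - (t : ℂ) • e) ∧
        Pos ((t : ℂ) • (s - e) - a * (s - e)) ∧
        ∀ x : M.toStarSubalgebra, a * x = x * a → s * x = x * s → e * x = x * e := by
  obtain ⟨hs1, hs2⟩ := hs
  have has : a * s = a := by
    have := congrArg star hsa
    rwa [star_mul, ha, hs1] at this
  obtain ⟨c, d, hcp, hdp, hcs, hds, hx, hcd, hdc, hcx⟩ := partsc (a - (t : ℂ) • s) (by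
    rw [star_sub, star_smul, ha, hs1]
    simp)
  -- `s c = c`
  have hsx : s * (c - d) = c - d := by
    rw [← hx, mul_sub, hsa, mul_smul_comm, hs2]
  have hxs : (c - d) * s = c - d := by
    rw [← hx, sub_mul, has, smul_mul_assoc, hs2]
  have hcc : c * c = (c - d) * c := by rw [sub_mul, hdc, sub_zero]
  have hdd : d * d = -((c - d) * d) := by rw [sub_mul, hcd, zero_sub, neg_neg]
  have hsc : s * c = c := by
    have h1 : (c - s * c) * star (c - s * c) = 0 := by
      rw [star_sub, star_mul, hcs, hs1]
      have h2 : s * (c * c) = c * c := by rw [hcc, ← mul_assoc, hsx]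
      have h3 : (c - s * c) * c = 0 := by
        rw [sub_mul, mul_assoc, h2, sub_self]
      rw [mul_sub, ← mul_assoc, h3, zero_mul, sub_self]
    have h4 := (CStarRing.mul_star_self_eq_zero_iff _).mp h1
    exact (sub_eq_zero.mp h4).symm
  have hsd : s * d = d := by
    have h1 : (d - s * d) * star (d - s * d) = 0 := by
      rw [star_sub, star_mul, hds, hs1]
      have h2 : s * (d * d) = d * d := by rw [hdd, mul_neg, ← mul_assoc, hsx]
      have h3 : (d - s * d) * d = 0 := by
        rw [sub_mul, mul_assoc, h2, sub_self]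
      rw [mul_sub, ← mul_assoc, h3, zero_mul, sub_self]
    have h4 := (CStarRing.mul_star_self_eq_zero_iff _).mp h1
    exact (sub_eq_zero.mp h4).symm
  obtain ⟨p, hpM, hp, hpc, hpx⟩ := h H M (c : H →L[ℂ] H) c.2
  obtain ⟨hp1, hp2⟩ := hp
  let e : M.toStarSubalgebra := ⟨p, hpM⟩
  have he1 : star e = e := Subtype.ext hp1
  have he2 : e * e = e := Subtype.ext hp2
  have hec : e * c = c := Subtype.ext hpc
  have hex : ∀ x : M.toStarSubalgebra, x * c = 0 → x * e = 0 := by
    intro x hx
    have := hpx (x : H →L[ℂ] H) (congrArg Subtype.val hx)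
    exact Subtype.ext this
  have hce : c * e = c := by
    have := congrArg star hec
    rwa [star_mul, hcs, he1] at this
  have hde : d * e = 0 := hex d hdc
  have hed : e * d = 0 := by
    have := congrArg star hde
    rwa [star_mul, hds, he1, star_zero] at this
  have hse : s * e = e := by
    have h1 : (1 - s) * e = 0 := hex (1 - s) (by rw [sub_mul, one_mul, hsc, sub_self])
    rw [sub_mul, one_mul] at h1
    exact (sub_eq_zero.mp h1).symm
  have hes : e * s = e := by
    have := congrArg star hse
    rwa [star_mul, hs1, he1] at this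
  have ha' : a = c - d + (t : ℂ) • s := by rw [← hx]; abel
  have hea : e * a = c + (t : ℂ) • e := by
    rw [ha', mul_add, mul_sub, hec, hed, sub_zero, mul_smul_comm, hes]
  have hae : a * e = c + (t : ℂ) • e := by
    rw [ha', add_mul, sub_mul, hce, hde, sub_zero, smul_mul_assoc, hse]
  refine ⟨e, ⟨he1, he2⟩, hse, by rw [hea, hae], ?_, ?_, ?_⟩
  · rw [hae, add_sub_cancel_right]; exact hcp
  · have : (t : ℂ) • (s - e) - a * (s - e) = d := by
      rw [mul_sub, has, hae, smul_sub, ha']
      abel
    rw [this]; exact hdp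
  · intro x hax hsx
    have key : ∀ z : M.toStarSubalgebra, a * z = z * a → s * z = z * s → z * e = e * z * e := by
      intro z h1 h2
      have h3 : c * z = z * c := by
        refine hcx z ?_
        rw [sub_mul, mul_sub, h1, smul_mul_assoc, mul_smul_comm, h2]
      have h4 : ((1 - e) * z) * c = 0 := by
        rw [mul_assoc, ← h3, ← mul_assoc, sub_mul, one_mul, hec, sub_self, zero_mul]
      have h5 := hex _ h4
      rw [sub_mul, one_mul, sub_mul] at h5
      exact sub_eq_zero.1 h5
    have k1 := key x hax hsx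
    have hax' : a * star x = star x * a := by
      have := congrArg star hax
      rw [star_mul, star_mul, ha] at this
      exact this.symm
    have hsx' : s * star x = star x * s := by
      have := congrArg star hsx
      rw [star_mul, star_mul, hs1] at this
      exact this.symm
    have k2 := congrArg star (key (star x) hax' hsx')
    rw [star_mul, star_mul, star_mul, star_star, he1] at k2
    exact k2.trans ((mul_assoc e x e).symm.trans k1.symm)


end kad

open scoped ComplexOrder Topology InnerProductSpace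
open Filter
open Pool.Agent.H467F Pool.Agent.H518R4.UG Pool.Agent.H518R4.UG.FCT

section abstract

variable {A : Type} [CStarAlgebra A] [PartialOrder A] [StarOrderedRing A]

/-- the grid argument -/
theorem gridc (hspec : ∀ (s a : A) (t : ℝ), IsPrj s → star a = a → s * a = a →
      ∃ e, IsPrj e ∧ s * e = e ∧ e * a = a * e ∧ 0 ≤ a * e - (t : ℂ) • e ∧
        0 ≤ (t : ℂ) • (s - e) - a * (s - e) ∧
        ∀ x : A, a * x = x * a → s * x = x * s → e * x = x * e) (δ : ℝ) (hδ : 0 < δ) :
    ∀ (m : ℕ) (s a : A) (t : ℝ), IsPrj s → star a = a → s * a = a → 0 ≤ a - (t : ℂ) • s →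
      0 ≤ ((t + m * δ : ℝ) : ℂ) • s - a →
      ∃ (n : ℕ) (p : Fin n → A) (l : Fin n → ℝ), IsPart p s ∧
        0 ≤ a - ∑ i, (l i : ℂ) • p i ∧ 0 ≤ (δ : ℂ) • s - (a - ∑ i, (l i : ℂ) • p i) ∧
        ∀ (i : Fin n) (x : A), a * x = x * a → s * x = x * s → p i * x = x * p i := by
  intro m
  induction m with
  | zero =>
    intro s a t hs ha hsa h1 h2
    refine ⟨1, fun _ => s, fun _ => t, ⟨fun _ => hs, fun i j hij => absurd (Subsingleton.elim i j)
      hij, by simp⟩, ?_, ?_, fun _ x _ hx => hx⟩
    · simpa using h1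
    · have h3 : (δ : ℂ) • s - (a - ∑ i : Fin 1, (t : ℂ) • s) =
          (δ : ℂ) • s + (((t + ((0 : ℕ) : ℝ) * δ : ℝ) : ℂ) • s - a) := by
        simp
        abel
      rw [h3]
      exact add_nonneg (nn_smul δ hδ.le s (nn_prj hs)) h2
  | succ m ih =>
    intro s a t hs ha hsa h1 h2
    have has : a * s = a := by
      have := congrArg star hsa
      rwa [star_mul, ha, hs.1] at this
    obtain ⟨e, he, hse, hea, he1, he2, hecx⟩ := hspec s a (t + δ) hs ha hsa
    have hes : e * s = e := by
      have := congrArg star hse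
      rwa [star_mul, he.1, hs.1] at this
    -- the complement
    have hf : IsPrj (s - e) := by
      refine ⟨by rw [star_sub, hs.1, he.1], ?_⟩
      rw [sub_mul, mul_sub, mul_sub, hs.2, hse, hes, he.2]
      abel
    have hfe : (s - e) * e = 0 := by rw [sub_mul, hse, he.2, sub_self]
    have hef : e * (s - e) = 0 := by rw [mul_sub, hes, he.2, sub_self]
    have haf : a * (s - e) = (s - e) * a := by
      rw [mul_sub, sub_mul, has, hsa, hea]
    have hsf : s * (s - e) = s - e := by rw [mul_sub, hs.2, hse]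
    have hfa1 : 0 ≤ a * (s - e) - (t : ℂ) • (s - e) := by
      have h3 := star_left_conjugate_nonneg h1 (s - e)
      have h4 : star (s - e) * (a - (t : ℂ) • s) * (s - e) =
          a * (s - e) - (t : ℂ) • (s - e) := by
        have h5 : ∀ f : A, f * f = f → a * f = f * a → s * f = f →
            f * (a - (t : ℂ) • s) * f = a * f - (t : ℂ) • f := by
          intro f h1 h2 h3
          rw [mul_sub, sub_mul, ← h2, mul_assoc, h1, mul_smul_comm, smul_mul_assoc,
            mul_assoc, h3, h1]
        rw [hf.1]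
        exact h5 (s - e) hf.2 haf hsf
      rwa [h4] at h3
    -- the part of `e`
    have hae1 : star (a * e) = a * e := by rw [star_mul, he.1, ha, hea]
    have hae2 : e * (a * e) = a * e := by rw [← mul_assoc, hea, mul_assoc, he.2]
    have hae3 : 0 ≤ ((t + δ + m * δ : ℝ) : ℂ) • e - a * e := by
      have h3 := star_left_conjugate_nonneg h2 e
      have h4 : star e * (((t + ((m + 1 : ℕ) : ℝ) * δ : ℝ) : ℂ) • s - a) * e =
          ((t + δ + m * δ : ℝ) : ℂ) • e - a * e := by
        rw [he.1, mul_sub, sub_mul, mul_smul_comm, smul_mul_assoc, hes, he.2, hea, mul_assoc,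
          he.2]
        congr 2
        push_cast
        ring
      rwa [h4] at h3
    obtain ⟨n, p, l, hp, hp1, hp2, hpx⟩ := ih e (a * e) (t + δ) he hae1 hae2 he1 hae3
    have hep : ∀ i, e * p i = p i := by
      intro i
      rw [← hp.sum, Finset.sum_mul, Finset.sum_eq_single i]
      · exact (hp.prj i).2
      · intro j _ hj
        exact hp.ort j i hj
      · intro hi
        exact absurd (Finset.mem_univ i) hi
    have hpe : ∀ i, p i * e = p i := by
      intro i
      have := congrArg star (hep i)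
      rwa [star_mul, he.1, (hp.prj i).1] at this
    have hfp : ∀ i, (s - e) * p i = 0 := by
      intro i
      rw [← hep i, ← mul_assoc, hfe, zero_mul]
    have hpf : ∀ i, p i * (s - e) = 0 := by
      intro i
      rw [← hpe i, mul_assoc, hef, mul_zero]
    refine ⟨n + 1, Fin.cons (s - e) p, Fin.cons t l, ⟨?_, ?_, ?_⟩, ?_, ?_, ?_⟩
    · intro i
      refine Fin.cases ?_ (fun i => ?_) i
      · exact hf
      · exact hp.prj i
    · intro i j
      refine Fin.cases ?_ (fun i => ?_) i
      · refine Fin.cases ?_ (fun j => ?_) j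
        · intro h
          exact absurd rfl h
        · intro _
          exact hfp j
      · refine Fin.cases ?_ (fun j => ?_) j
        · intro _
          exact hpf i
        · intro h
          exact hp.ort i j fun h' => h (by rw [h'])
    · rw [Fin.sum_univ_succ]
      simp only [Fin.cons_zero, Fin.cons_succ]
      rw [hp.sum, sub_add_cancel]
    · rw [Fin.sum_univ_succ]
      simp only [Fin.cons_zero, Fin.cons_succ]
      have h3 : a - ((t : ℂ) • (s - e) + ∑ i, (l i : ℂ) • p i) =
          (a * e - ∑ i, (l i : ℂ) • p i) + (a * (s - e) - (t : ℂ) • (s - e)) := by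
        rw [mul_sub, has]
        abel
      rw [h3]
      exact add_nonneg hp1 hfa1
    · rw [Fin.sum_univ_succ]
      simp only [Fin.cons_zero, Fin.cons_succ]
      have h3 : (δ : ℂ) • s - (a - ((t : ℂ) • (s - e) + ∑ i, (l i : ℂ) • p i)) =
          ((δ : ℂ) • e - (a * e - ∑ i, (l i : ℂ) • p i)) +
            (((t + δ : ℝ) : ℂ) • (s - e) - a * (s - e)) := by
        rw [mul_sub a, has]
        push_cast
        rw [add_smul, smul_sub (δ : ℂ)]
        abel
      rw [h3]
      exact add_nonneg hp2 he2
    · intro i x hax hsx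
      have hex := hecx x hax hsx
      refine Fin.cases ?_ (fun i => ?_) i
      · simp only [Fin.cons_zero]
        rw [sub_mul, mul_sub, hsx, hex]
      · simp only [Fin.cons_succ]
        refine hpx i x ?_ hex
        rw [mul_assoc, hex, ← mul_assoc, hax, mul_assoc]

/-- approximation by elements with finite spectrum -/
theorem fsc (hspec : ∀ (s a : A) (t : ℝ), IsPrj s → star a = a → s * a = a →
      ∃ e, IsPrj e ∧ s * e = e ∧ e * a = a * e ∧ 0 ≤ a * e - (t : ℂ) • e ∧
        0 ≤ (t : ℂ) • (s - e) - a * (s - e) ∧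
        ∀ x : A, a * x = x * a → s * x = x * s → e * x = x * e) (e : A) (he : IsPrj e) (a : A) (ha : star a = a)
    (hea : e * a = a) (δ : ℝ) (hδ : 0 < δ) :
    ∃ (n : ℕ) (p : Fin n → A) (l : Fin n → ℝ), IsPart p e ∧ ‖a - ∑ i, (l i : ℂ) • p i‖ ≤ δ ∧
      ∀ (i : Fin n) (x : A), a * x = x * a → e * x = x * e → p i * x = x * p i := by
  have hae : a * e = a := by
    have := congrArg star hea
    rwa [star_mul, ha, he.1] at this
  have hsa : IsSelfAdjoint a := ha
  have hr : ∀ r : ℝ, algebraMap ℝ A r = (r : ℂ) • (1 : A) := by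
    intro r
    rw [Algebra.algebraMap_eq_smul_one]
    simp
  have h1 : a ≤ algebraMap ℝ A ‖a‖ := IsSelfAdjoint.le_algebraMap_norm_self hsa
  have h2 : -(algebraMap ℝ A ‖a‖) ≤ a := IsSelfAdjoint.neg_algebraMap_norm_le_self hsa
  rw [hr] at h1 h2
  have h3 : 0 ≤ ((‖a‖ : ℝ) : ℂ) • e - a := by
    have h4 := star_left_conjugate_nonneg (sub_nonneg.2 h1) e
    have h5 : star e * (((‖a‖ : ℝ) : ℂ) • (1 : A) - a) * e = ((‖a‖ : ℝ) : ℂ) • e - a := by
      rw [he.1, mul_sub, sub_mul, mul_smul_comm, smul_mul_assoc, mul_one, he.2, hea, hae]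
    rwa [h5] at h4
  have h4 : 0 ≤ a - ((-‖a‖ : ℝ) : ℂ) • e := by
    have h5 := star_left_conjugate_nonneg (sub_nonneg.2 h2) e
    have h6 : star e * (a - -(((‖a‖ : ℝ) : ℂ) • (1 : A))) * e = a - ((-‖a‖ : ℝ) : ℂ) • e := by
      rw [he.1, mul_sub, sub_mul, mul_neg, neg_mul, mul_smul_comm, smul_mul_assoc, mul_one,
        he.2, hea, hae]
      push_cast
      rw [neg_smul]
    rwa [h6] at h5
  obtain ⟨m, hm⟩ := exists_nat_ge (2 * ‖a‖ / δ)
  have hm' : 2 * ‖a‖ ≤ m * δ := by
    rwa [div_le_iff₀ hδ] at hm
  obtain ⟨n, p, l, hp, hp1, hp2, hpx⟩ := gridc hspec δ hδ m e a (-‖a‖) he ha hea h4 (by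
    have h5 : ((-‖a‖ + m * δ : ℝ) : ℂ) • e - a =
        ((m * δ - 2 * ‖a‖ : ℝ) : ℂ) • e + (((‖a‖ : ℝ) : ℂ) • e - a) := by
      rw [← add_sub_assoc, ← add_smul]
      congr 2
      push_cast
      ring
    rw [h5]
    exact add_nonneg (nn_smul _ (by linarith) e (nn_prj he)) h3)
  refine ⟨n, p, l, hp, ?_, hpx⟩
  rw [CStarAlgebra.norm_le_iff_le_algebraMap _ hδ.le hp1, hr]
  have h5 : (a - ∑ i, (l i : ℂ) • p i) ≤ (δ : ℂ) • e := sub_nonneg.1 hp2
  refine h5.trans ?_
  rw [← sub_nonneg, ← smul_sub]
  refine nn_smul δ hδ.le _ (nn_prj ⟨?_, ?_⟩)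
  · rw [star_sub, star_one, he.1]
  · rw [sub_mul, mul_sub, mul_sub, one_mul, mul_one, one_mul, he.2, sub_self, sub_zero]


end abstract

end Pool.Agent.H518R5.SC.FSC

namespace Pool.Agent.H518R5.SC

open Pool.Agent.H467F Pool.Agent.H518R4.UG
open scoped ComplexOrder

theorem p_FSC : S_FSC := by
  intro H _ _ _ N e he a ha hea δ hδ
  have hrange : H759R2.Kad.F_range.{0} := H759R2.Kad.prove5_range
  let _ : PartialOrder (Elt N) := CStarAlgebra.spectralOrder (Elt N)
  let _ : StarOrderedRing (Elt N) := CStarAlgebra.spectralOrderedRing (Elt N)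
  refine FSC.fsc ?_ e he a ha hea δ hδ
  intro s b r hs hb hsb
  obtain ⟨e, he1, he2, he3, ⟨y, hy⟩, ⟨z, hz⟩, hx⟩ :=
    FSC.specc hrange H N s b r hs hb hsb
  refine ⟨e, he1, he2, he3, ?_, ?_, hx⟩
  · rw [hy]
    exact star_mul_self_nonneg _
  · rw [hz]
    exact star_mul_self_nonneg _

end Pool.Agent.H518R5.SC
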