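import Mathlib
import Pool.Agent.H518R5.SC.Stubs
import Pool.Agent.Helper467.FP.P_n2_mul_le
import Pool.Agent.Helper467.FP.P_tau_bounds

/-!
Task HP (helper365): Haar unitaries are close to unitaries of order `n` with equal spectral
projections.
-/

set_option autoImplicit false

open scoped ComplexOrder Topology
open Filter

noncomputable section

namespace Pool.Agent.H518R5.SC

open Pool.Agent.H467F Pool.Agent.H518R4.UG

section HP

variable {A : Type} [CStarAlgebra A]

theorem HP_prj_norm {p : A} (hp : IsPrj p) : ‖p‖ ≤ 1 := by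
  have h1 : ‖star p * p‖ = ‖p‖ * ‖p‖ := CStarRing.norm_star_mul_self
  rw [hp.1, hp.2] at h1
  by_contra h
  push Not at h
  nlinarith

theorem HP_uc_norm {p u : A} (hp : IsPrj p) (hu : star u * u = p) : ‖u‖ ≤ 1 := by
  have h1 : ‖star u * u‖ = ‖u‖ * ‖u‖ := CStarRing.norm_star_mul_self
  rw [hu] at h1
  have h2 := HP_prj_norm hp
  by_contra h
  push Not at h
  nlinarith

theorem HP_one_norm : ‖(1 : A)‖ ≤ 1 := HP_prj_norm ⟨star_one A, mul_one 1⟩

theorem HP_pow_norm {a : A} (ha : ‖a‖ ≤ 1) (k : ℕ) : ‖a ^ k‖ ≤ 1 := by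
  induction k with
  | zero => rw [pow_zero]; exact HP_one_norm
  | succ k ih =>
    rw [pow_succ]
    calc ‖a ^ k * a‖ ≤ ‖a ^ k‖ * ‖a‖ := norm_mul_le _ _
      _ ≤ 1 * 1 := mul_le_mul ih ha (norm_nonneg _) zero_le_one
      _ = 1 := one_mul 1

theorem HP_pow_sub {a b : A} (ha : ‖a‖ ≤ 1) (hb : ‖b‖ ≤ 1) (k : ℕ) :
    ‖a ^ k - b ^ k‖ ≤ k * ‖a - b‖ := by
  induction k with
  | zero => simp
  | succ k ih =>
    have e : a ^ (k + 1) - b ^ (k + 1) = a ^ k * (a - b) + (a ^ k - b ^ k) * b := by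
      rw [pow_succ, pow_succ]
      noncomm_ring
    rw [e]
    have h1 : ‖a ^ k * (a - b)‖ ≤ 1 * ‖a - b‖ :=
      (norm_mul_le _ _).trans (mul_le_mul_of_nonneg_right (HP_pow_norm ha k) (norm_nonneg _))
    have h2 : ‖(a ^ k - b ^ k) * b‖ ≤ (k * ‖a - b‖) * 1 :=
      (norm_mul_le _ _).trans (mul_le_mul ih hb (norm_nonneg _) (by positivity))
    refine (norm_add_le _ _).trans ?_
    push_cast
    linarith

variable {J K : Type} [Fintype J] [Fintype K]

theorem HP_mul {q : J → A} {e : A} (h : IsPart q e) (a b : J → ℂ) :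
    (∑ j, a j • q j) * (∑ j, b j • q j) = ∑ j, (a j * b j) • q j := by
  classical
  rw [Finset.sum_mul_sum]
  refine Finset.sum_congr rfl fun i _ => ?_
  rw [Finset.sum_eq_single i]
  · rw [smul_mul_smul_comm, (h.prj i).2]
  · intro j _ hj
    rw [smul_mul_smul_comm, h.ort i j (Ne.symm hj), smul_zero]
  · simp

theorem HP_star {q : J → A} {e : A} (h : IsPart q e) (a : J → ℂ) :
    star (∑ j, a j • q j) = ∑ j, (star (a j)) • q j := by
  rw [star_sum]
  refine Finset.sum_congr rfl fun i _ => ?_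
  rw [star_smul, (h.prj i).1]

theorem HP_pow {q : J → A} {e : A} (h : IsPart q e) (a : J → ℂ) (k : ℕ) :
    (∑ j, a j • q j) ^ (k + 1) = ∑ j, (a j ^ (k + 1)) • q j := by
  induction k with
  | zero => simp
  | succ k ih =>
    rw [pow_succ, ih, HP_mul h]
    refine Finset.sum_congr rfl fun i _ => ?_
    rw [← pow_succ]

theorem HP_n2 {τ : A →ₗ[ℂ] ℂ} (tw : TW τ) {q : J → A} {e : A} (h : IsPart q e) (a : J → ℂ) :
    n2 τ (∑ j, a j • q j) ^ 2 = ∑ j, ‖a j‖ ^ 2 * (τ (q j)).re := by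
  rw [tw.n2_sq, HP_star h, HP_mul h, map_sum, Complex.re_sum]
  refine Finset.sum_congr rfl fun i _ => ?_
  have h1 : star (a i) * a i = ((‖a i‖ ^ 2 : ℝ) : ℂ) := by
    rw [Complex.star_def, ← Complex.normSq_eq_conj_mul_self, Complex.normSq_eq_norm_sq]
  rw [h1, map_smul, smul_eq_mul, Complex.re_ofReal_mul]

theorem HP_tau_prj {τ : A →ₗ[ℂ] ℂ} (tw : TW τ) {p : A} (hp : IsPrj p) :
    τ p = ((τ p).re : ℂ) ∧ 0 ≤ (τ p).re := by
  have h1 := tw.n2_sq' p
  have h2 := tw.re_nonneg p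
  rw [hp.1, hp.2] at h1 h2
  refine ⟨?_, h2⟩
  rw [h1, Complex.ofReal_re]

theorem HP_tau_le {τ : A →ₗ[ℂ] ℂ} (tw : TW τ) {p : A} (hp : IsPrj p) : (τ p).re ≤ 1 := by
  have h1 : IsPrj (1 - p) := by
    refine ⟨by rw [star_sub, star_one, hp.1], ?_⟩
    rw [sub_mul, mul_sub, mul_sub, hp.2]
    simp
  have h2 := (HP_tau_prj tw h1).2
  rw [map_sub, tw.one, Complex.sub_re, Complex.one_re] at h2
  linarith

theorem HP_refine {q : J → A} {e : A} (h : IsPart q e) {Q : J → K → A}
    (hQ : ∀ j, IsPart (Q j) (q j)) : IsPart (fun x : J × K => Q x.1 x.2) e := by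
  classical
  have hr : ∀ i s, Q i s * q i = Q i s := by
    intro i s
    rw [← (hQ i).sum, Finset.mul_sum, Finset.sum_eq_single s]
    · exact ((hQ i).prj s).2
    · intro b _ hb
      exact (hQ i).ort s b (Ne.symm hb)
    · simp
  have hl : ∀ i s, q i * Q i s = Q i s := by
    intro i s
    rw [← (hQ i).sum, Finset.sum_mul, Finset.sum_eq_single s]
    · exact ((hQ i).prj s).2
    · intro b _ hb
      exact (hQ i).ort b s hb
    · simp
  refine ⟨fun x => (hQ x.1).prj x.2, ?_, ?_⟩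
  · rintro ⟨i, s⟩ ⟨j, t⟩ hne
    by_cases hij : i = j
    · subst hij
      refine (hQ i).ort s t ?_
      rintro rfl
      exact hne rfl
    · show Q i s * Q j t = 0
      rw [← hr i s, ← hl j t]
      calc Q i s * q i * (q j * Q j t) = Q i s * (q i * q j) * Q j t := by noncomm_ring
        _ = 0 := by rw [h.ort i j hij, mul_zero, zero_mul]
  · rw [Fintype.sum_prod_type]
    simp only
    rw [← h.sum]
    exact Finset.sum_congr rfl fun i _ => (hQ i).sum

open Classical in
theorem HP_rows {R : J × K → A} {e : A} (h : IsPart R e) :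
    IsPart (fun s : K => ∑ x : J × K, (if x.2 = s then (1 : ℂ) else 0) • R x) e := by
  refine ⟨fun s => ⟨?_, ?_⟩, ?_, ?_⟩
  · rw [HP_star h]
    refine Finset.sum_congr rfl fun x _ => ?_
    split_ifs <;> simp
  · rw [HP_mul h]
    refine Finset.sum_congr rfl fun x _ => ?_
    split_ifs <;> simp
  · intro s t hst
    show (∑ x : J × K, (if x.2 = s then (1 : ℂ) else 0) • R x) *
      (∑ x : J × K, (if x.2 = t then (1 : ℂ) else 0) • R x) = 0
    rw [HP_mul h]
    refine Finset.sum_eq_zero fun x _ => ?_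
    by_cases h1 : x.2 = s
    · have h2 : x.2 ≠ t := fun h3 => hst (h1.symm.trans h3)
      rw [if_neg h2, mul_zero, zero_smul]
    · rw [if_neg h1, zero_mul, zero_smul]
  · rw [Finset.sum_comm, ← h.sum]
    refine Finset.sum_congr rfl fun x _ => ?_
    rw [← Finset.sum_smul, Finset.sum_ite_eq]
    simp

end HP

theorem p_HP (hU : S_USP) (hA : S_ARC) (hS : S_SPLIT) : S_HP := by
  classical
  intro A _ τ h p u hp hu n hn
  have tw := h.fct.tw
  obtain ⟨K, d0, hd0, harc⟩ := hA n hn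
  have hn0 : (0 : ℝ) < n := by exact_mod_cast hn
  have hK0 : (0 : ℝ) < K + 1 := by positivity
  have hδ : 0 < min (10 / (n : ℝ)) (d0 / (K + 1)) := lt_min (by positivity) (by positivity)
  obtain ⟨m, q, l, hq, hqu⟩ := hU A τ h p u hp hu.1 _ hδ
  set u' : A := ∑ i, Complex.exp (l i * Complex.I) • q i with hu'
  -- norms
  have hnu : ‖u‖ ≤ 1 := HP_uc_norm hp hu.1.1
  have hexp : ∀ i, star (Complex.exp (l i * Complex.I)) * Complex.exp (l i * Complex.I) = 1 := by
    intro i
    rw [Complex.star_def, ← Complex.normSq_eq_conj_mul_self, Complex.normSq_eq_norm_sq,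
      Complex.norm_exp_ofReal_mul_I]
    simp
  have hsu' : star u' * u' = p := by
    rw [hu', HP_star hq, HP_mul hq, ← hq.sum]
    refine Finset.sum_congr rfl fun i _ => ?_
    rw [hexp, one_smul]
  have hnu' : ‖u'‖ ≤ 1 := HP_uc_norm hp hsu'
  -- moments
  have hmom : ∀ k : ℕ, 0 < k → k ≤ K →
      ‖∑ i, (((τ (q i)).re : ℝ) : ℂ) * Complex.exp (k * l i * Complex.I)‖ ≤ d0 := by
    intro k hk hkK
    have e1 : ∑ i, (((τ (q i)).re : ℝ) : ℂ) * Complex.exp (k * l i * Complex.I) = τ (u' ^ k) := by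
      obtain ⟨k', rfl⟩ : ∃ k', k = k' + 1 := ⟨k - 1, by omega⟩
      rw [hu', HP_pow hq, map_sum]
      refine Finset.sum_congr rfl fun i _ => ?_
      rw [map_smul, smul_eq_mul, ← (HP_tau_prj tw (hq.prj i)).1, mul_comm, ← Complex.exp_nat_mul]
      congr 2
      ring
    have e2 : τ (u' ^ k) = τ (u' ^ k - u ^ k) := by
      rw [map_sub, hu.2 k hk, sub_zero]
    rw [e1, e2]
    have h1 := (tau_bounds tw).1 (u' ^ k - u ^ k)
    have h2 := (tau_bounds tw).2 (u' ^ k - u ^ k)
    have h3 := HP_pow_sub hnu' hnu k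
    have h4 : ‖u' - u‖ ≤ d0 / (K + 1) := by
      rw [norm_sub_rev]
      exact hqu.trans (min_le_right _ _)
    have h5 : (k : ℝ) ≤ K + 1 := by
      have : (k : ℝ) ≤ K := by exact_mod_cast hkK
      linarith
    calc ‖τ (u' ^ k - u ^ k)‖ ≤ k * ‖u' - u‖ := h1.trans (h2.trans h3)
      _ ≤ (K + 1) * (d0 / (K + 1)) := mul_le_mul h5 h4 (norm_nonneg _) hK0.le
      _ = d0 := by field_simp
  have hsum : ∑ i, (τ (q i)).re = (τ p).re := by
    rw [← hq.sum, map_sum, Complex.re_sum]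
  obtain ⟨y, hy0, hyt, hyT, hyd⟩ := harc (τ p).re m (fun i => (τ (q i)).re) l
    (HP_tau_prj tw hp).2 (HP_tau_le tw hp) (fun i => (HP_tau_prj tw (hq.prj i)).2) hsum hmom
  have hsplit : ∀ i, ∃ Q : Fin n → A, IsPart Q (q i) ∧ ∀ s, τ (Q s) = (y i s : ℂ) :=
    fun i => hS A τ h (q i) (hq.prj i) n (y i) hn (hy0 i) (hyt i)
  choose Q hQ hQt using hsplit
  have hR := HP_refine hq hQ
  have hW := HP_rows hR
  set R : Fin m × Fin n → A := fun x => Q x.1 x.2 with hRdef
  refine ⟨fun s : Fin n => ∑ x : Fin m × Fin n, (if x.2 = s then (1 : ℂ) else 0) • R x,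
    ?_, ?_, ?_⟩
  · convert hW
  · intro s
    rw [map_sum]
    have e1 : ∀ x : Fin m × Fin n, τ ((if x.2 = s then (1 : ℂ) else 0) • R x) =
        if x.2 = s then (y x.1 x.2 : ℂ) else 0 := by
      intro x
      rw [map_smul, smul_eq_mul]
      split_ifs
      · rw [one_mul]; exact hQt x.1 x.2
      · rw [zero_mul]
    rw [Finset.sum_congr rfl fun x _ => e1 x, Fintype.sum_prod_type]
    have e2 : ∀ i : Fin m, ∑ t : Fin n, (if t = s then (y i t : ℂ) else 0) = (y i s : ℂ) := by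
      intro i
      rw [Finset.sum_ite_eq']
      simp
    rw [Finset.sum_congr rfl fun i _ => e2 i, ← Complex.ofReal_sum, hyT s,
      (HP_tau_prj tw hp).1]
    push_cast
    simp
  · have e1 : ∑ s : Fin n, Complex.exp (2 * Real.pi * (s : ℕ) / n * Complex.I) •
        (∑ x : Fin m × Fin n, (if x.2 = s then (1 : ℂ) else 0) • R x) =
        ∑ x : Fin m × Fin n, Complex.exp (2 * Real.pi * (x.2 : ℕ) / n * Complex.I) • R x := by
      simp only [Finset.smul_sum]
      rw [Finset.sum_comm]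
      refine Finset.sum_congr rfl fun x _ => ?_
      rw [Finset.sum_eq_single x.2]
      · rw [if_pos rfl, one_smul]
      · intro s _ hs
        rw [if_neg (Ne.symm hs), zero_smul, smul_zero]
      · simp
    have e2 : u' = ∑ x : Fin m × Fin n, Complex.exp (l x.1 * Complex.I) • R x := by
      rw [hu', Fintype.sum_prod_type]
      refine Finset.sum_congr rfl fun i _ => ?_
      show Complex.exp (l i * Complex.I) • q i =
        ∑ s : Fin n, Complex.exp (l i * Complex.I) • Q i s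
      rw [← Finset.smul_sum, (hQ i).sum]
    have e3 : n2 τ (u' - ∑ x : Fin m × Fin n,
        Complex.exp (2 * Real.pi * (x.2 : ℕ) / n * Complex.I) • R x) ≤ 10 / n := by
      have e4 : u' - ∑ x : Fin m × Fin n,
          Complex.exp (2 * Real.pi * (x.2 : ℕ) / n * Complex.I) • R x =
          ∑ x : Fin m × Fin n, (Complex.exp (l x.1 * Complex.I) -
            Complex.exp (2 * Real.pi * (x.2 : ℕ) / n * Complex.I)) • R x := by
        rw [e2, ← Finset.sum_sub_distrib]
        refine Finset.sum_congr rfl fun x _ => ?_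
        rw [sub_smul]
      rw [e4]
      have h10 : (0 : ℝ) ≤ 10 / n := by positivity
      refine abs_le_of_sq_le_sq' ?_ h10 |>.2
      rw [HP_n2 tw hR, Fintype.sum_prod_type]
      refine le_trans (le_of_eq ?_) hyd
      refine Finset.sum_congr rfl fun i _ => Finset.sum_congr rfl fun s _ => ?_
      have h11 : τ (R (i, s)) = (y i s : ℂ) := hQt i s
      rw [h11, Complex.ofReal_re, mul_comm]
    rw [e1]
    have h12 := tw.n2_tri u u' (∑ x : Fin m × Fin n,
      Complex.exp (2 * Real.pi * (x.2 : ℕ) / n * Complex.I) • R x)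
    have h13 : n2 τ (u - u') ≤ 10 / n :=
      ((tau_bounds tw).2 _).trans (hqu.trans (min_le_left _ _))
    have h14 : (20 : ℝ) / n = 10 / n + 10 / n := by ring
    rw [h14]
    linarith

end Pool.Agent.H518R5.SC
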