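import Mathlib
import Pool.Agent.H518R5.SC.Stubs
import Pool.Agent.Helper467.FP.P_n2_mul_le
import Pool.Agent.Helper467.FP.P_tau_bounds

/-!
INTR: an open set of connected pairs gives a uniform bound for all pairs.
-/

set_option autoImplicit false

open scoped ComplexOrder Topology InnerProductSpace
open Filter

namespace Pool.Agent.H518R5.SC

open Pool.Agent.H467F Pool.Agent.H518R4.UG

section aux

variable {A : Type} [CStarAlgebra A]

theorem intr_lr {p u : A} (hp : IsPrj p) (hu : UC p u) : p * u = u ∧ u * p = u := by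
  obtain ⟨h1, h2⟩ := hu
  obtain ⟨h3, h4⟩ := hp
  have e1 : u * p = p * u := by rw [← h1, ← mul_assoc, h2, h1]
  have e2 : star u * p * u = p := by
    calc star u * p * u = (star u * u) * (star u * u) := by rw [← h2]; simp only [mul_assoc]
      _ = p := by rw [h1, h4]
  have e3 : u - p * u = 0 := by
    rw [← CStarRing.star_mul_self_eq_zero_iff, star_sub, star_mul, h3]
    have e4 : star u * p * (p * u) = star u * p * u := by
      rw [← mul_assoc, mul_assoc (star u) p p, h4]
    have e5 : star u * (p * u) = p := by rw [← mul_assoc, e2]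
    rw [sub_mul, mul_sub, mul_sub, e4, e5, e2, h1, sub_self]
  have e4 : p * u = u := (sub_eq_zero.1 e3).symm
  exact ⟨e4, e1.trans e4⟩

theorem intr_star {p u : A} (hp : IsPrj p) (hu : UC p u) : UC p (star u) := by
  refine ⟨?_, ?_⟩
  · rw [star_star]; exact hu.2
  · rw [star_star]; exact hu.1

theorem intr_mul {p u v : A} (hp : IsPrj p) (hu : UC p u) (hv : UC p v) : UC p (u * v) := by
  refine ⟨?_, ?_⟩
  · rw [star_mul]
    calc star v * star u * (u * v) = star v * ((star u * u) * v) := by simp only [mul_assoc]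
      _ = p := by rw [hu.1, (intr_lr hp hv).1, hv.1]
  · rw [star_mul]
    calc u * v * (star v * star u) = (u * (v * star v)) * star u := by simp only [mul_assoc]
      _ = p := by rw [hv.2, (intr_lr hp hu).2, hu.2]

theorem intr_norm {p u : A} (hp : IsPrj p) (hu : UC p u) : ‖u‖ ≤ 1 := by
  have h1 : ‖p‖ ≤ 1 := by
    have h2 : ‖star p * p‖ = ‖p‖ * ‖p‖ := CStarRing.norm_star_mul_self
    rw [hp.1, hp.2] at h2
    by_contra hcon
    push Not at hcon
    nlinarith
  have h3 : ‖star u * u‖ = ‖u‖ * ‖u‖ := CStarRing.norm_star_mul_self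
  rw [hu.1] at h3
  by_contra hcon
  push Not at hcon
  nlinarith

theorem intr_conj {τ : A →ₗ[ℂ] ℂ} (tw : TW τ) {p g x : A} (hp : IsPrj p) (hg : UC p g)
    (h1 : p * x = x) (h2 : x * p = x) : n2 τ (g * x * star g) = n2 τ x := by
  have e : star (g * x * star g) * (g * x * star g) = g * (star x * x * star g) := by
    rw [star_mul, star_mul, star_star]
    calc g * (star x * star g) * (g * x * star g)
        = g * (star x * ((star g * g) * x) * star g) := by simp only [mul_assoc]
      _ = g * (star x * x * star g) := by rw [hg.1, h1]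
  unfold n2
  rw [e, tw.comm, mul_assoc, hg.1, mul_assoc, h2]

theorem intr_cc {p u : A} (hp : IsPrj p) (hu : UC p u) {g : A} (hg : UC p g) :
    g * (star g * u * g) * star g = u := by
  calc g * (star g * u * g) * star g = (g * star g) * u * (g * star g) := by
        simp only [mul_assoc]
    _ = u := by rw [hg.2, (intr_lr hp hu).1, (intr_lr hp hu).2]

end aux

theorem p_INTR (hREFL : S_REFL) (hTRANS : S_TRANS) (hCONJ : S_CONJ) (hDENSE : S_DENSE)
    (hPATH : S_PATH) : S_INTR := by
  intro A _ τ hII p hp ⟨n, u₀, v₀, r, hr, hu₀, hv₀, H⟩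
  have tw : TW τ := hII.fct.tw
  have hsym : ∀ m u v, CC τ p m u v → CC τ p m v u := (hREFL A τ tw p hp).2.2
  have htr := hTRANS A τ tw p hp
  have hz : ∀ x : A, n2 τ (x - x) < r := by
    intro x
    rw [sub_self, n2_zero]
    exact hr
  -- step 1
  have H1 : ∀ u u', HC τ p u → HC τ p u' → n2 τ (u - u₀) < r → n2 τ (u' - u₀) < r →
      CC τ p (n + n + 2) u u' := fun u u' hu hu' h1 h2 =>
    htr n n u v₀ u' hv₀ (H u v₀ hu hv₀ h1 (hz v₀)) (hsym _ _ _ (H u' v₀ hu' hv₀ h2 (hz v₀)))
  -- step 2
  have H2 : ∀ g, UC p g → ∀ u u', HC τ p u → HC τ p u' → n2 τ (u - g * u₀ * star g) < r →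
      n2 τ (u' - g * u₀ * star g) < r → CC τ p (n + n + 2) u u' := by
    intro g hg u u' hu hu' h1 h2
    have hgs := intr_star hp hg
    have c1 := hCONJ A τ tw p (star g) hp hgs
    have c2 := hCONJ A τ tw p g hp hg
    rw [star_star] at c1
    have hb : ∀ w, HC τ p w → n2 τ (w - g * u₀ * star g) < r →
        n2 τ (star g * w * g - u₀) < r := by
      intro w hw h3
      have e1 : g * u₀ * star g * 1 = g * u₀ * star g := mul_one _
      have e2 : star g * (g * u₀ * star g) * g = u₀ := by
        have := intr_cc hp hu₀.1 hgs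
        rwa [star_star] at this
      have e3 : star g * w * g - u₀ = star g * (w - g * u₀ * star g) * star (star g) := by
        rw [star_star, mul_sub, sub_mul, e2]
      have hUC2 : UC p (g * u₀ * star g) :=
        intr_mul hp (intr_mul hp hg hu₀.1) hgs
      rw [e3, intr_conj tw hp hgs]
      · exact h3
      · rw [mul_sub, (intr_lr hp hw.1).1, (intr_lr hp hUC2).1]
      · rw [sub_mul, (intr_lr hp hw.1).2, (intr_lr hp hUC2).2]
    have h3 := H1 _ _ (c1.1 u hu) (c1.1 u' hu') (hb u hu h1) (hb u' hu' h2)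
    have h4 := c2.2 _ _ _ (c1.1 u hu).1 (c1.1 u' hu').1 h3
    rw [intr_cc hp hu.1 hg, intr_cc hp hu'.1 hg] at h4
    exact h4
  obtain ⟨N, hN⟩ := hPATH (r / 8) (by positivity)
  refine ⟨n + n + 2 + (n + n + 2 + N * (n + n + 4)) + 2 + (n + n + 2) + 2, ?_⟩
  intro u v hu hv
  obtain ⟨g, hg, hgu⟩ := hDENSE A τ hII p u₀ u hp hu₀ hu (r / 4) (by positivity)
  obtain ⟨g', hg', hgv⟩ := hDENSE A τ hII p u₀ v hp hu₀ hv (r / 4) (by positivity)
  obtain ⟨k, hk0, hkU, hkd, hkN⟩ := hN A τ hII p (g' * star g) hp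
    (intr_mul hp hg' (intr_star hp hg))
  set y : A := g * u₀ * star g with hy
  have hyH : HC τ p y := (hCONJ A τ tw p g hp hg).1 u₀ hu₀
  let x : ℕ → A := fun i => k i * y * star (k i)
  have hxH : ∀ i, HC τ p (x i) := fun i => (hCONJ A τ tw p (k i) hp (hkU i)).1 y hyH
  have hxe : ∀ i, x i = (k i * g) * u₀ * star (k i * g) := by
    intro i
    show k i * y * star (k i) = _
    rw [hy, star_mul]
    simp only [mul_assoc]
  have hxd : ∀ i, n2 τ (x (i + 1) - x i) < r := by
    intro i
    have e1 : x (i + 1) - x i = (k (i + 1) - k i) * (y * star (k (i + 1))) +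
        (k i * y) * star (k (i + 1) - k i) := by
      show k (i + 1) * y * star (k (i + 1)) - k i * y * star (k i) = _
      rw [star_sub]
      noncomm_ring
    have hyU := hyH.1
    have b1 : n2 τ (y * star (k (i + 1))) ≤ 1 :=
      ((tau_bounds tw).2 _).trans (intr_norm hp (intr_mul hp hyU (intr_star hp (hkU (i + 1)))))
    have b2 : n2 τ (k i * y) ≤ 1 :=
      ((tau_bounds tw).2 _).trans (intr_norm hp (intr_mul hp (hkU i) hyU))
    have b3 := (n2_mul_le tw (k (i + 1) - k i) (y * star (k (i + 1)))).1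
    have b4 := (n2_mul_le tw (star (k (i + 1) - k i)) (k i * y)).2
    rw [norm_star] at b4
    have b5 := hkd i
    have b6 := tw.n2_add_le ((k (i + 1) - k i) * (y * star (k (i + 1))))
      ((k i * y) * star (k (i + 1) - k i))
    rw [e1]
    have b7 := norm_nonneg (k (i + 1) - k i)
    have b8 : ‖k (i + 1) - k i‖ * n2 τ (y * star (k (i + 1))) ≤ ‖k (i + 1) - k i‖ * 1 :=
      mul_le_mul_of_nonneg_left b1 b7
    have b9 : n2 τ (k i * y) * ‖k (i + 1) - k i‖ ≤ 1 * ‖k (i + 1) - k i‖ :=
      mul_le_mul_of_nonneg_right b2 b7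
    linarith
  have hstep : ∀ i, CC τ p (n + n + 2) (x i) (x (i + 1)) := by
    intro i
    have hgi : UC p (k i * g) := intr_mul hp (hkU i) hg
    refine H2 (k i * g) hgi _ _ (hxH i) (hxH (i + 1)) ?_ ?_
    · rw [← hxe i]; exact hz _
    · rw [← hxe i]; exact hxd i
  have hchain : ∀ i, CC τ p (n + n + 2 + i * (n + n + 4)) (x 0) (x i) := by
    intro i
    induction i with
    | zero =>
      have hgi : UC p (k 0 * g) := intr_mul hp (hkU 0) hg
      have := H2 (k 0 * g) hgi _ _ (hxH 0) (hxH 0) (by rw [← hxe 0]; exact hz _)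
        (by rw [← hxe 0]; exact hz _)
      have e : n + n + 2 + 0 * (n + n + 4) = n + n + 2 := by ring
      rw [e]
      exact this
    | succ i ih =>
      have := htr _ _ _ _ _ (hxH i) ih (hstep i)
      have e : n + n + 2 + (i + 1) * (n + n + 4) =
          n + n + 2 + i * (n + n + 4) + (n + n + 2) + 2 := by ring
      rw [e]
      exact this
  have hx0 : x 0 = y := by
    show k 0 * y * star (k 0) = y
    rw [hk0, hp.1, (intr_lr hp hyH.1).1, (intr_lr hp hyH.1).2]
  have hxN : x N = g' * u₀ * star g' := by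
    show k N * y * star (k N) = _
    rw [hkN, hy, star_mul, star_star]
    calc g' * star g * (g * u₀ * star g) * (g * star g')
        = g' * (((star g * g) * u₀) * (star g * g)) * star g' := by simp only [mul_assoc]
      _ = g' * u₀ * star g' := by rw [hg.1, (intr_lr hp hu₀.1).1, (intr_lr hp hu₀.1).2]
  have s1 : CC τ p (n + n + 2) u (x 0) := by
    rw [hx0]
    refine H2 g hg u y hu hyH ?_ (hz y)
    rw [n2_sub_comm]
    linarith
  have s3 : CC τ p (n + n + 2) (x N) v := by
    refine H2 g' hg' (x N) v (hxH N) hv ?_ ?_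
    · rw [hxN]; exact hz _
    · rw [n2_sub_comm]
      linarith
  have s2 := hchain N
  have t1 := htr _ _ _ _ _ (hxH 0) s1 s2
  exact htr _ _ _ _ _ (hxH N) t1 s3

end Pool.Agent.H518R5.SC
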