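import Pool.Agent.H518R5.SC.Stubs

set_option autoImplicit false

open scoped ComplexOrder Topology
open Filter

noncomputable section

namespace Pool.Agent.H518R5.SC

open Pool.Agent.H467F Pool.Agent.H518R4.UG

theorem JOIN_lim {U : Ultrafilter ℕ} (hU : (U : Filter ℕ) ≤ Filter.cofinite) :
    Tendsto (fun m : ℕ => 1 / ((m : ℝ) + 1)) (U : Filter ℕ) (𝓝 0) := by
  rw [Nat.cofinite_eq_atTop] at hU
  exact tendsto_one_div_add_atTop_nhds_zero_nat.mono_left hU

theorem JOIN_lim2 {U : Ultrafilter ℕ} (hU : (U : Filter ℕ) ≤ Filter.cofinite) (f : ℕ → ℝ)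
    (h0 : ∀ m, 0 ≤ f m) (h1 : ∀ m, f m ≤ 1 / ((m : ℝ) + 1)) :
    Tendsto f (U : Filter ℕ) (𝓝 0) :=
  squeeze_zero h0 h1 (JOIN_lim hU)

theorem JOIN_n2_nonneg {A : Type} [CStarAlgebra A] (τ : A →ₗ[ℂ] ℂ) (x : A) : 0 ≤ n2 τ x := by
  unfold n2
  exact Real.sqrt_nonneg _

theorem p_JOIN : S_JOIN := by
  intro A _ τ hτ U hU p u v hp
  constructor
  · rintro ⟨n, w, hw, h1, h2, h3⟩
    refine ⟨n, ?_⟩
    intro ε hε
    have e1 : ∀ᶠ m in (U : Filter ℕ), n2 τ (u * w 0 m - w 0 m * u) < ε :=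
      h1.eventually_lt_const hε
    have e3 : ∀ᶠ m in (U : Filter ℕ), n2 τ (w (Fin.last n) m * v - v * w (Fin.last n) m) < ε :=
      h3.eventually_lt_const hε
    have e2 : ∀ᶠ m in (U : Filter ℕ), ∀ i : Fin n,
        n2 τ (w i.castSucc m * w i.succ m - w i.succ m * w i.castSucc m) < ε := by
      rw [Filter.eventually_all]
      intro i
      exact (h2 i).eventually_lt_const hε
    have e4 : ∀ᶠ m in (U : Filter ℕ), ∀ i : Fin (n + 1), ∀ k ∈ Finset.range (⌊1 / ε⌋₊ + 1), 0 < k →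
        ‖τ (w i m ^ k)‖ < ε := by
      rw [Filter.eventually_all]
      intro i
      rw [Filter.eventually_all_finset]
      intro k _
      by_cases hk : 0 < k
      · have h5 := ((hw i).2 k hk).norm
        rw [norm_zero] at h5
        filter_upwards [h5.eventually_lt_const hε] with m hm _
        exact hm
      · exact Filter.Eventually.of_forall (fun m h => absurd h hk)
    obtain ⟨m, hm1, hm2, hm3, hm4⟩ := (e1.and (e2.and (e3.and e4))).exists
    refine ⟨fun i => w i m, fun i => (hw i).1 m, ?_, hm1.le, fun i => (hm2 i).le, hm3.le⟩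
    intro i k hk hkε
    refine (hm4 i k ?_ hk).le
    rw [Finset.mem_range, Nat.lt_succ_iff]
    apply Nat.le_floor
    rw [le_div_iff₀ hε]
    exact hkε
  · rintro ⟨n, hn⟩
    have hex : ∀ m : ℕ, AC τ p n (1 / ((m : ℝ) + 1)) u v := fun m => hn _ (by positivity)
    choose w hw1 hw2 hw3 hw4 hw5 using hex
    refine ⟨n, fun i m => w m i, ?_, ?_, ?_, ?_⟩
    · intro i
      refine ⟨fun m => hw1 m i, fun k hk => ?_⟩
      rw [tendsto_zero_iff_norm_tendsto_zero]
      have h6 : ∀ᶠ m : ℕ in (U : Filter ℕ), ‖τ (w m i ^ k)‖ ≤ 1 / ((m : ℝ) + 1) := by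
        have h7 : ∀ᶠ m : ℕ in atTop, ‖τ (w m i ^ k)‖ ≤ 1 / ((m : ℝ) + 1) := by
          filter_upwards [Filter.eventually_ge_atTop k] with m hm
          refine hw2 m i k hk ?_
          rw [mul_one_div, div_le_one (by positivity)]
          have : (k : ℝ) ≤ m := by exact_mod_cast hm
          linarith
        rw [Nat.cofinite_eq_atTop] at hU
        exact hU h7
      exact squeeze_zero' (Filter.Eventually.of_forall fun m => norm_nonneg _) h6 (JOIN_lim hU)
    · exact JOIN_lim2 hU _ (fun m => JOIN_n2_nonneg τ _) (fun m => hw3 m)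
    · intro i
      exact JOIN_lim2 hU _ (fun m => JOIN_n2_nonneg τ _) (fun m => hw4 m i)
    · exact JOIN_lim2 hU _ (fun m => JOIN_n2_nonneg τ _) (fun m => hw5 m)

end Pool.Agent.H518R5.SC
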