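import Mathlib
import Pool.Agent.H518R5.SC.Stubs
import Pool.Agent.Helper467.FP.P_n2_mul_le
import Pool.Agent.Helper467.FP.P_tau_bounds
import Pool.Agent.Helper467.FP.P_exists_lim

set_option autoImplicit false

open scoped ComplexOrder Topology InnerProductSpace
open Filter

noncomputable section

namespace Pool.Agent.H518R5.SC

open Pool.Agent.H467F Pool.Agent.H518R4.UG

variable {A : Type} [CStarAlgebra A] {τ : A →ₗ[ℂ] ℂ}

theorem metric_prod (h : TW τ) {a b : ℕ → A} {a' b' : A} (hb : ∀ n, ‖b n‖ ≤ 1)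
    (h1 : Tendsto (fun n => n2 τ (a n - a')) atTop (𝓝 0))
    (h2 : Tendsto (fun n => n2 τ (b n - b')) atTop (𝓝 0)) :
    Tendsto (fun n => n2 τ (a n * b n - a' * b')) atTop (𝓝 0) := by
  have h3 : Tendsto (fun n => n2 τ (a n - a') + ‖a'‖ * n2 τ (b n - b')) atTop (𝓝 0) := by
    have := h1.add (h2.const_mul ‖a'‖)
    simpa using this
  refine squeeze_zero (fun n => n2_nonneg _ _) (fun n => ?_) h3
  have e : a n * b n - a' * b' = (a n - a') * b n + a' * (b n - b') := by noncomm_ring
  rw [e]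
  refine (h.n2_add_le _ _).trans ?_
  have h4 := (n2_mul_le h (b n) (a n - a')).2
  have h5 := (n2_mul_le h a' (b n - b')).1
  have h6 : n2 τ (a n - a') * ‖b n‖ ≤ n2 τ (a n - a') * 1 :=
    mul_le_mul_of_nonneg_left (hb n) (n2_nonneg _ _)
  linarith

theorem metric_norm_prj {p : A} (hp : IsPrj p) : ‖p‖ ≤ 1 := by
  have h1 : ‖star p * p‖ = ‖p‖ * ‖p‖ := CStarRing.norm_star_mul_self
  rw [hp.1, hp.2] at h1
  by_contra hc
  push Not at hc
  nlinarith

theorem metric_norm_uc {p u : A} (hp : IsPrj p) (hu : UC p u) : ‖u‖ ≤ 1 := by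
  have h1 : ‖star u * u‖ = ‖u‖ * ‖u‖ := CStarRing.norm_star_mul_self
  rw [hu.1] at h1
  have h2 := metric_norm_prj hp
  by_contra hc
  push Not at hc
  nlinarith

theorem metric_eq (h : TW τ) {x y : A} (hn : Tendsto (fun _ : ℕ => n2 τ (x - y)) atTop (𝓝 0)) :
    x = y := by
  have h1 : n2 τ (x - y) = 0 := tendsto_nhds_unique tendsto_const_nhds hn
  exact sub_eq_zero.1 (h.eq_zero h1)

theorem metric_limit (h : TW τ) {p : A} (hp : IsPrj p) (x : ℕ → A) (hx : ∀ n, HC τ p (x n))
    (y : A) (hlim : Tendsto (fun n => n2 τ (x n - y)) atTop (𝓝 0)) : HC τ p y := by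
  have hb : ∀ n, ‖x n‖ ≤ 1 := fun n => metric_norm_uc hp (hx n).1
  have hstar : Tendsto (fun n => n2 τ (star (x n) - star y)) atTop (𝓝 0) := by
    refine hlim.congr fun n => ?_
    rw [← star_sub, h.n2_star]
  have hbs : ∀ n, ‖star (x n)‖ ≤ 1 := fun n => by rw [norm_star]; exact hb n
  refine ⟨⟨?_, ?_⟩, ?_⟩
  · have h1 := metric_prod h hb hstar hlim
    have h2 : Tendsto (fun _ : ℕ => n2 τ (p - star y * y)) atTop (𝓝 0) := by
      refine h1.congr fun n => ?_
      rw [(hx n).1.1]
    exact (metric_eq h h2).symm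
  · have h1 := metric_prod h hbs hlim hstar
    have h2 : Tendsto (fun _ : ℕ => n2 τ (p - y * star y)) atTop (𝓝 0) := by
      refine h1.congr fun n => ?_
      rw [(hx n).1.2]
    exact (metric_eq h h2).symm
  · have hpow : ∀ k : ℕ, Tendsto (fun n => n2 τ (x n ^ k - y ^ k)) atTop (𝓝 0) := by
      intro k
      induction k with
      | zero =>
        refine tendsto_const_nhds.congr fun n => ?_
        rw [pow_zero, pow_zero, sub_self, n2_zero]
      | succ k ih =>
        refine (metric_prod h hb ih hlim).congr fun n => ?_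
        rw [pow_succ, pow_succ]
    intro k hk
    have h1 : Tendsto (fun _ : ℕ => ‖τ (y ^ k)‖) atTop (𝓝 0) := by
      refine squeeze_zero (fun n => norm_nonneg _) (fun n => ?_) (hpow k)
      have h2 := (tau_bounds h).1 (x n ^ k - y ^ k)
      rw [map_sub, (hx n).2 k hk, zero_sub, norm_neg] at h2
      exact h2
    exact norm_eq_zero.1 (tendsto_nhds_unique tendsto_const_nhds h1)

theorem metric_complete {X : Type} [PseudoMetricSpace X]
    (H : ∀ x : ℕ → X, (∀ ε > 0, ∃ N : ℕ, ∀ a ≥ N, ∀ b ≥ N, dist (x a) (x b) < ε) →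
      ∃ y, Tendsto (fun n => dist (x n) y) atTop (𝓝 0)) : CompleteSpace X := by
  refine Metric.complete_of_cauchySeq_tendsto fun x hx => ?_
  obtain ⟨y, hy⟩ := H x (Metric.cauchySeq_iff.1 hx)
  exact ⟨y, tendsto_iff_dist_tendsto_zero.2 hy⟩

theorem p_METRIC : S_METRIC := by
  intro A _ τ h p hp
  let m : MetricSpace {u : A // HC τ p u} :=
    { dist := fun u v => n2 τ ((u : A) - (v : A))
      dist_self := by
        intro u
        show n2 τ ((u : A) - (u : A)) = 0
        rw [sub_self, n2_zero]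
      dist_comm := by
        intro u v
        exact n2_sub_comm τ _ _
      dist_triangle := by
        intro u v w
        exact h.n2_tri _ _ _
      eq_of_dist_eq_zero := by
        intro u v huv
        have h1 : n2 τ ((u : A) - (v : A)) = 0 := huv
        exact Subtype.ext (sub_eq_zero.1 (h.eq_zero h1)) }
  refine ⟨m, fun u v => rfl, ?_⟩
  refine @metric_complete _ m.toPseudoMetricSpace ?_
  intro x hx
  obtain ⟨y, _, hy2⟩ := exists_lim h (fun n => (x n : A)) 1
    (fun n => metric_norm_uc hp (x n).2.1) (by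
      intro ε hε
      obtain ⟨N, hN⟩ := hx ε hε
      exact ⟨N, fun a ha b hb => hN a ha b hb⟩)
  have hHC := metric_limit h hp (fun n => (x n : A)) (fun n => (x n).2) y hy2
  exact ⟨⟨y, hHC⟩, hy2⟩

end Pool.Agent.H518R5.SC
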