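import Pool.Agent.H518R5.SC.Stubs

/-!
Task MONO: a uniform length passes from a corner to every larger corner.
-/

set_option autoImplicit false

open scoped ComplexOrder Topology InnerProductSpace
open Filter

noncomputable section

namespace Pool.Agent.H518R5.SC

open Pool.Agent.H467F Pool.Agent.H518R4.UG

theorem MONO_pos {A : Type} [CStarAlgebra A] {τ : A →ₗ[ℂ] ℂ} (h : TW τ) {p : A} (hp : IsPrj p)
    (h0 : p ≠ 0) : 0 < (τ p).re := by
  have h1 : (τ (star p * p)).re = (τ p).re := by rw [hp.1, hp.2]
  have h2 := h.n2_sq p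
  rw [h1] at h2
  rw [← h2]
  have h3 : n2 τ p ≠ 0 := fun h4 => h0 (h.eq_zero h4)
  positivity

theorem MONO_ind (hD : S_DBL) (hC : S_CMP) {A : Type} [CStarAlgebra A] {τ : A →ₗ[ℂ] ℂ}
    (hI : II τ) (k : ℕ) : ∀ p q : A, IsPrj p → IsPrj q → q * p = p → p ≠ 0 → Uni τ p →
      (τ q).re ≤ 2 ^ k * (τ p).re → Uni τ q := by
  have hT : TW τ := hI.fct.tw
  have hdbl : ∀ p q : A, IsPrj p → IsPrj q → q * p = p → Uni τ p →
      (τ (q - p)).re ≤ (τ p).re → Uni τ q := by
    intro p q hp hq hqp hU hle
    have hpq : p * q = p := by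
      have := congrArg star hqp
      rwa [star_mul, hp.1, hq.1] at this
    have hr : IsPrj (q - p) := by
      refine ⟨by rw [star_sub, hp.1, hq.1], ?_⟩
      rw [sub_mul, mul_sub, mul_sub, hq.2, hqp, hpq, hp.2, sub_self, sub_zero]
    have hpr : p * (q - p) = 0 := by rw [mul_sub, hpq, hp.2, sub_self]
    have h1 := hD A τ hI p (q - p) hp hr hpr hle hU
    rwa [add_sub_cancel] at h1
  induction k with
  | zero =>
    intro p q hp hq hqp h0 hU hle
    refine hdbl p q hp hq hqp hU ?_
    have h1 := MONO_pos hT hp h0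
    rw [map_sub, Complex.sub_re]
    rw [pow_zero, one_mul] at hle
    linarith
  | succ k ih =>
    intro p q hp hq hqp h0 hU hle
    rcases le_or_gt (τ (q - p)).re (τ p).re with hc | hc
    · exact hdbl p q hp hq hqp hU hc
    · have hpq : p * q = p := by
        have := congrArg star hqp
        rwa [star_mul, hp.1, hq.1] at this
      have hr : IsPrj (q - p) := by
        refine ⟨by rw [star_sub, hp.1, hq.1], ?_⟩
        rw [sub_mul, mul_sub, mul_sub, hq.2, hqp, hpq, hp.2, sub_self, sub_zero]
      obtain ⟨s, hs1, hs2, hs3, _⟩ := hC A τ hI (q - p) p hr hp hc.le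
      have hps : p * s = 0 := by
        rw [← hs2, ← mul_assoc, mul_sub, hpq, hp.2, sub_self, zero_mul]
      have hqs : q * s = s := by
        have h1 : (q - p) * s = q * s - p * s := sub_mul _ _ _
        rw [hs2, hps, sub_zero] at h1
        exact h1.symm
      have hpr : p * (s * star s) = 0 := by rw [← mul_assoc, hps, zero_mul]
      have hrp : (s * star s) * p = 0 := by
        have := congrArg star hpr
        rwa [star_mul, hs3.1, hp.1, star_zero] at this
      have htr : τ (s * star s) = τ p := by rw [hT.comm, hs1]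
      have hU2 : Uni τ (p + s * star s) :=
        hD A τ hI p (s * star s) hp hs3 hpr (by rw [htr]) hU
      have hp2 : IsPrj (p + s * star s) := by
        refine ⟨by rw [star_add, hp.1, hs3.1], ?_⟩
        rw [add_mul, mul_add, mul_add, hp.2, hpr, hrp, hs3.2, add_zero, zero_add]
      have hpos := MONO_pos hT hp h0
      have hre : (τ (p + s * star s)).re = 2 * (τ p).re := by
        rw [map_add, htr, Complex.add_re]
        ring
      refine ih (p + s * star s) q hp2 hq ?_ ?_ hU2 ?_
      · rw [mul_add, hqp, ← mul_assoc, hqs]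
      · intro h1
        rw [h1, map_zero, Complex.zero_re] at hre
        linarith
      · rw [hre]
        calc (τ q).re ≤ 2 ^ (k + 1) * (τ p).re := hle
          _ = 2 ^ k * (2 * (τ p).re) := by ring

theorem p_MONO (hD : S_DBL) (hC : S_CMP) : S_MONO := by
  intro A _ τ hI p q hp hq hqp h0 hU
  have hpos := MONO_pos hI.fct.tw hp h0
  obtain ⟨k, hk⟩ := pow_unbounded_of_one_lt ((τ q).re / (τ p).re) (one_lt_two : (1 : ℝ) < 2)
  refine MONO_ind hD hC hI k p q hp hq hqp h0 hU ?_
  exact ((div_lt_iff₀ hpos).1 hk).le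

end Pool.Agent.H518R5.SC
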