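import Pool.Agent.H518R5.SC.Stubs

/-!
# Paths of unitaries (task PATH)
-/

set_option autoImplicit false

open scoped ComplexOrder Topology
open Filter

noncomputable section

namespace Pool.Agent.H518R5.SC

open Pool.Agent.H467F Pool.Agent.H518R4.UG

section

variable {A : Type} [CStarAlgebra A]

theorem PATH_mul {m : ℕ} {q : Fin m → A} {e : A} (hq : IsPart q e) (f g : Fin m → ℂ) :
    (∑ i, f i • q i) * (∑ j, g j • q j) = ∑ j, (f j * g j) • q j := by
  rw [Finset.sum_mul_sum]
  apply Finset.sum_congr rfl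
  intro i _
  rw [Finset.sum_eq_single i]
  · rw [smul_mul_smul_comm, (hq.prj i).2]
  · intro j _ hj
    rw [smul_mul_smul_comm, hq.ort i j hj.symm, smul_zero]
  · intro h
    exact absurd (Finset.mem_univ i) h

theorem PATH_star {m : ℕ} {q : Fin m → A} {e : A} (hq : IsPart q e) (f : Fin m → ℂ) :
    star (∑ i, f i • q i) = ∑ j, star (f j) • q j := by
  rw [star_sum]
  apply Finset.sum_congr rfl
  intro i _
  rw [star_smul, (hq.prj i).1]

theorem PATH_prj {p : A} (hp : IsPrj p) : ‖p‖ ≤ 1 := by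
  have h := CStarRing.norm_star_mul_self (x := p)
  rw [hp.1, hp.2] at h
  by_contra hcon
  push Not at hcon
  nlinarith [norm_nonneg p]

theorem PATH_norm {m : ℕ} {q : Fin m → A} {e : A} (he : IsPrj e) (hq : IsPart q e)
    (d : Fin m → ℂ) (B : ℝ) (hB : 0 ≤ B) (hd : ∀ j, ‖d j‖ ≤ B) : ‖∑ j, d j • q j‖ ≤ B := by
  letI : PartialOrder A := CStarAlgebra.spectralOrder A
  haveI : StarOrderedRing A := CStarAlgebra.spectralOrderedRing A
  set x : A := ∑ j, d j • q j with hx
  set z : A := ∑ j, ((Real.sqrt (B ^ 2 - ‖d j‖ ^ 2) : ℝ) : ℂ) • q j with hz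
  have h1 : star x * x = ∑ j, ((‖d j‖ ^ 2 : ℝ) : ℂ) • q j := by
    rw [hx, PATH_star hq, PATH_mul hq]
    apply Finset.sum_congr rfl
    intro j _
    congr 1
    have h := Complex.conj_mul' (d j)
    rw [Complex.ofReal_pow]
    exact h
  have h2 : star z * z = ∑ j, ((B ^ 2 - ‖d j‖ ^ 2 : ℝ) : ℂ) • q j := by
    rw [hz, PATH_star hq, PATH_mul hq]
    apply Finset.sum_congr rfl
    intro j _
    congr 1
    have h0 : 0 ≤ B ^ 2 - ‖d j‖ ^ 2 := by
      have := hd j
      nlinarith [norm_nonneg (d j)]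
    have h3 : star ((Real.sqrt (B ^ 2 - ‖d j‖ ^ 2) : ℝ) : ℂ) =
        ((Real.sqrt (B ^ 2 - ‖d j‖ ^ 2) : ℝ) : ℂ) := Complex.conj_ofReal _
    rw [h3, ← Complex.ofReal_mul, Real.mul_self_sqrt h0]
  have h3 : ((B ^ 2 : ℝ) : ℂ) • e - star x * x = star z * z := by
    rw [h1, h2, ← hq.sum, Finset.smul_sum, ← Finset.sum_sub_distrib]
    apply Finset.sum_congr rfl
    intro j _
    rw [← sub_smul]
    congr 1
    push_cast
    ring
  have h4 : star x * x ≤ ((B ^ 2 : ℝ) : ℂ) • e := by
    rw [← sub_nonneg, h3]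
    exact star_mul_self_nonneg z
  have h5 : ‖star x * x‖ ≤ ‖((B ^ 2 : ℝ) : ℂ) • e‖ :=
    CStarAlgebra.norm_le_norm_of_nonneg_of_le (star_mul_self_nonneg x) h4
  rw [CStarRing.norm_star_mul_self, norm_smul, Complex.norm_real, Real.norm_of_nonneg (by positivity)]
    at h5
  have h6 := PATH_prj he
  have h7 : ‖x‖ * ‖x‖ ≤ B ^ 2 := by
    calc _ ≤ _ := h5
      _ ≤ B ^ 2 * 1 := mul_le_mul_of_nonneg_left h6 (by positivity)
      _ = B ^ 2 := mul_one _
  exact abs_le_of_sq_le_sq' (by nlinarith) hB |>.2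

theorem PATH_exp (x y : ℝ) :
    ‖Complex.exp ((x : ℂ) * Complex.I) - Complex.exp ((y : ℂ) * Complex.I)‖ ≤ |x - y| := by
  have e1 : Complex.exp ((x : ℂ) * Complex.I) - Complex.exp ((y : ℂ) * Complex.I) =
      Complex.exp ((y : ℂ) * Complex.I) * (Complex.exp (Complex.I * ((x - y : ℝ) : ℂ)) - 1) := by
    rw [mul_sub, mul_one, ← Complex.exp_add]
    congr 2
    push_cast
    ring
  rw [e1, norm_mul, Complex.norm_exp_ofReal_mul_I, one_mul]
  exact Real.norm_exp_I_mul_ofReal_sub_one_le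

theorem PATH_unit {m : ℕ} {q : Fin m → A} {e : A} (hq : IsPart q e) (t : Fin m → ℝ) :
    UC e (∑ j, Complex.exp ((t j : ℂ) * Complex.I) • q j) := by
  have h : ∀ j, star (Complex.exp ((t j : ℂ) * Complex.I)) * Complex.exp ((t j : ℂ) * Complex.I) = 1 := by
    intro j
    have := Complex.conj_mul' (Complex.exp ((t j : ℂ) * Complex.I))
    rw [Complex.norm_exp_ofReal_mul_I] at this
    simpa using this
  constructor
  · rw [PATH_star hq, PATH_mul hq, ← hq.sum]
    apply Finset.sum_congr rfl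
    intro j _
    rw [h, one_smul]
  · rw [PATH_star hq, PATH_mul hq, ← hq.sum]
    apply Finset.sum_congr rfl
    intro j _
    rw [mul_comm, h, one_smul]

end

theorem p_PATH (hUSP : S_USP) : S_PATH := by
  intro ε hε
  set N : ℕ := ⌈Real.pi / ε⌉₊ + 1 with hN
  have hN0 : (0 : ℝ) < N := by rw [hN]; positivity
  have hN1 : Real.pi / N ≤ ε := by
    rw [div_le_iff₀ hN0]
    have h1 : Real.pi / ε ≤ (⌈Real.pi / ε⌉₊ : ℝ) := Nat.le_ceil _
    have h2 : (⌈Real.pi / ε⌉₊ : ℝ) ≤ N := by rw [hN]; push_cast; linarith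
    have h3 := h1.trans h2
    rw [div_le_iff₀ hε] at h3
    linarith
  refine ⟨N + 1, fun A _ τ hτ p g hp hg => ?_⟩
  obtain ⟨m, q, l, hq, hql⟩ := hUSP A τ hτ p g hp hg ε hε
  set a : Fin m → ℝ := fun j => Complex.arg (Complex.exp ((l j : ℂ) * Complex.I)) with ha
  have ha1 : ∀ j, |a j| ≤ Real.pi := fun j => Complex.abs_arg_le_pi _
  have ha2 : ∀ j, Complex.exp ((a j : ℂ) * Complex.I) = Complex.exp ((l j : ℂ) * Complex.I) := by
    intro j
    have h := Complex.norm_mul_exp_arg_mul_I (Complex.exp ((l j : ℂ) * Complex.I))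
    rw [Complex.norm_exp_ofReal_mul_I] at h
    simpa using h
  set k : ℕ → A := fun i => if i ≤ N then
    ∑ j, Complex.exp (((a j * (i / N) : ℝ) : ℂ) * Complex.I) • q j else g with hk
  refine ⟨k, ?_, ?_, ?_, ?_⟩
  · simp only [hk]
    rw [if_pos (Nat.zero_le _), ← hq.sum]
    apply Finset.sum_congr rfl
    intro j _
    simp
  · intro i
    simp only [hk]
    split_ifs with h
    · exact PATH_unit hq _
    · exact hg
  · intro i
    rcases lt_trichotomy i N with h | h | h
    · simp only [hk]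
      rw [if_pos (by omega : i + 1 ≤ N), if_pos h.le, ← Finset.sum_sub_distrib]
      have e : ∀ j, Complex.exp (((a j * ((i + 1 : ℕ) / N) : ℝ) : ℂ) * Complex.I) • q j -
          Complex.exp (((a j * (i / N) : ℝ) : ℂ) * Complex.I) • q j =
          (Complex.exp (((a j * ((i + 1 : ℕ) / N) : ℝ) : ℂ) * Complex.I) -
            Complex.exp (((a j * (i / N) : ℝ) : ℂ) * Complex.I)) • q j :=
        fun j => (sub_smul _ _ _).symm
      rw [Finset.sum_congr rfl (fun j _ => e j)]
      apply PATH_norm hp hq _ ε hε.le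
      intro j
      refine (PATH_exp _ _).trans ?_
      have e2 : a j * (((i + 1 : ℕ) : ℝ) / N) - a j * ((i : ℝ) / N) = a j / N := by
        push_cast
        field_simp
        ring
      rw [e2, abs_div, abs_of_pos hN0]
      exact (div_le_div_of_nonneg_right (ha1 j) hN0.le).trans hN1
    · subst h
      simp only [hk]
      rw [if_neg (by omega), if_pos le_rfl]
      have e : ∑ j, Complex.exp (((a j * ((N : ℝ) / N) : ℝ) : ℂ) * Complex.I) • q j =
          ∑ j, Complex.exp ((l j : ℂ) * Complex.I) • q j := by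
        apply Finset.sum_congr rfl
        intro j _
        rw [div_self hN0.ne', mul_one, ha2]
      rw [e]
      exact hql
    · simp only [hk]
      rw [if_neg (by omega), if_neg (by omega), sub_self, norm_zero]
      exact hε.le
  · simp only [hk]
    rw [if_neg (by omega)]

end Pool.Agent.H518R5.SC
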