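import Pool.Agent.H518R5.SC.Stubs

set_option autoImplicit false
set_option linter.unusedSimpArgs false

open scoped ComplexOrder Topology
open Filter

noncomputable section

namespace Pool.Agent.H518R5.SC

open Pool.Agent.H467F Pool.Agent.H518R4.UG

theorem PPU_a {A : Type} [CStarAlgebra A] {x y z : A} (h : x * y = z) (w : A) :
    x * (y * w) = z * w := by
  rw [← mul_assoc, h]

theorem PPU_c : (((Real.sqrt 2 : ℝ) : ℂ)⁻¹ * ((Real.sqrt 2 : ℝ) : ℂ)⁻¹) = 1 / 2 := by
  rw [← mul_inv, ← Complex.ofReal_mul, Real.mul_self_sqrt (by norm_num)]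
  norm_num

theorem p_PPU : S_PPU := by
  intro A _ p r s hp hr hpr hsr hps
  obtain ⟨hp1, hp2⟩ := hp
  obtain ⟨hr1, hr2⟩ := hr
  -- basic rules
  have hrp : r * p = 0 := by
    have := congrArg star hpr
    rwa [star_mul, star_zero, hp1, hr1] at this
  have hsr2 : s * r = s := by
    have h : star (s - s * r) * (s - s * r) = 0 := by
      have e1 : star (s - s * r) * (s - s * r)
          = star s * s - star s * s * r - star r * (star s * s) + star r * (star s * s) * r := by
        rw [star_sub, star_mul]
        noncomm_ring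
      rw [e1, hsr, hr1, hr2]
      simp [hr2]
    have h2 := (CStarRing.star_mul_self_eq_zero_iff _).mp h
    exact (sub_eq_zero.mp h2).symm
  have hrs : r * s = 0 := by
    rw [← hps, ← mul_assoc, hrp, zero_mul]
  have hss : s * s = 0 := by
    calc s * s = (s * r) * s := by rw [hsr2]
      _ = 0 := by rw [mul_assoc, hrs, mul_zero]
  have hsp : s * p = 0 := by
    calc s * p = (s * r) * p := by rw [hsr2]
      _ = 0 := by rw [mul_assoc, hrp, mul_zero]
  have htp : star s * p = star s := by
    have := congrArg star hps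
    rwa [star_mul, hp1] at this
  have hpt : p * star s = 0 := by
    have := congrArg star hsp
    rwa [star_mul, hp1, star_zero] at this
  have hrt : r * star s = star s := by
    have := congrArg star hsr2
    rwa [star_mul, hr1] at this
  have htr : star s * r = 0 := by
    have := congrArg star hrs
    rwa [star_mul, hr1, star_zero] at this
  have htt : star s * star s = 0 := by
    have := congrArg star hss
    rwa [star_mul, star_zero] at this
  have hII : Complex.I * Complex.I = -1 := Complex.I_mul_I
  have hPP : PP p s = ((Real.sqrt 2 : ℝ) : ℂ)⁻¹ • (s * star s + s - Complex.I • star s +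
      Complex.I • r) + (p - s * star s) := by
    unfold PP
    rw [hsr]
  have hPPs : star (PP p s) = ((Real.sqrt 2 : ℝ) : ℂ)⁻¹ • (s * star s + star s + Complex.I • s -
      Complex.I • r) + (p - s * star s) := by
    rw [hPP]
    have hc : star (((Real.sqrt 2 : ℝ) : ℂ)⁻¹) = ((Real.sqrt 2 : ℝ) : ℂ)⁻¹ := by
      rw [star_inv₀]
      congr 1
      exact Complex.conj_ofReal _
    have hI : star Complex.I = -Complex.I := Complex.conj_I
    simp only [star_add, star_sub, star_smul, star_mul, star_star, hp1, hr1, hc, hI]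
    module
  set c2 : ℂ := ((Real.sqrt 2 : ℝ) : ℂ)⁻¹ with hc2
  have hcc2 : c2 ^ 2 = 1 / 2 := by rw [sq]; exact PPU_c
  clear_value c2
  clear hc2
  refine ⟨⟨?_, ?_⟩, ⟨?_, ?_⟩, ?_, ?_⟩
  · rw [hPPs, hPP]
    simp only [mul_add, add_mul, mul_sub, sub_mul, smul_mul_assoc, mul_smul_comm, mul_assoc,
      hss, hsr2, hsp, hrs, hr2, hrp, hrt, hps, hp2, hpr, hpt, hsr, htt, htr, htp,
      PPU_a hss, PPU_a hsr2, PPU_a hsp, PPU_a hrs, PPU_a hr2, PPU_a hrp, PPU_a hrt, PPU_a hps,
      PPU_a hp2, PPU_a hpr, PPU_a hpt, PPU_a hsr, PPU_a htt, PPU_a htr, PPU_a htp,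
      mul_zero, zero_mul, smul_zero, add_zero, zero_add, sub_zero, zero_sub, smul_add, smul_sub,
      smul_neg, smul_smul]
    match_scalars <;> (ring_nf; try simp only [Complex.I_sq, hcc2]; try norm_num)
  · rw [hPPs, hPP]
    simp only [mul_add, add_mul, mul_sub, sub_mul, smul_mul_assoc, mul_smul_comm, mul_assoc,
      hss, hsr2, hsp, hrs, hr2, hrp, hrt, hps, hp2, hpr, hpt, hsr, htt, htr, htp,
      PPU_a hss, PPU_a hsr2, PPU_a hsp, PPU_a hrs, PPU_a hr2, PPU_a hrp, PPU_a hrt, PPU_a hps,
      PPU_a hp2, PPU_a hpr, PPU_a hpt, PPU_a hsr, PPU_a htt, PPU_a htr, PPU_a htp,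
      mul_zero, zero_mul, smul_zero, add_zero, zero_add, sub_zero, zero_sub, smul_add, smul_sub,
      smul_neg, smul_smul]
    match_scalars <;> (ring_nf; try simp only [Complex.I_sq, hcc2]; try norm_num)
  · rw [star_mul, star_star]
  · simp only [mul_assoc, PPU_a hsr, hrt]
  · intro a b hea hae heb hbe hpb hbp
    rw [hPP]
    have hea' : s * (star s * a) = a := by rw [← mul_assoc]; exact hea
    have hsa : s * a = 0 := by
      rw [← hea']
      simp only [PPU_a hss, zero_mul]
    have hra : r * a = 0 := by
      rw [← hea']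
      simp only [PPU_a hrs, zero_mul]
    have hpa : p * a = a := by
      rw [← hea', PPU_a hps]
    have hta : a * star s = 0 := by
      rw [← hae]
      simp only [mul_assoc, htt, mul_zero]
    have har : a * r = 0 := by
      rw [← hae]
      simp only [mul_assoc, htr, mul_zero]
    have hap : a * p = a := by
      rw [← hae]
      simp only [mul_assoc, htp]
    have hsb : s * b = 0 := by
      rw [← hsr2, mul_assoc, ← hpb, ← mul_assoc r, hrp, zero_mul, mul_zero]
    have htb : star s * b = 0 := by
      have h1 : star s * (s * star s * b) = star s * b := by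
        simp only [mul_assoc, PPU_a hsr, PPU_a hrt]
      rw [← h1, heb, mul_zero]
    have hrb : r * b = 0 := by
      rw [← hpb, ← mul_assoc, hrp, zero_mul]
    have hbs : b * s = 0 := by
      have h1 : b * (s * star s) * s = b * s := by
        simp only [mul_assoc, hsr, hsr2]
      rw [← h1, hbe, zero_mul]
    have hbt : b * star s = 0 := by
      rw [← hbp, mul_assoc, hpt, mul_zero]
    have hbr : b * r = 0 := by
      rw [← hbp, mul_assoc, hpr, mul_zero]
    have hae' : a * (s * star s) = a := hae
    have hae2 : ∀ x, a * (s * (star s * x)) = a * x := by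
      intro x
      rw [← mul_assoc s, ← mul_assoc, hae]
    have hea2 : ∀ x, s * (star s * (a * x)) = a * x := by
      intro x
      rw [← mul_assoc (star s), ← mul_assoc, hea']
    simp only [mul_add, add_mul, mul_sub, sub_mul, smul_mul_assoc, mul_smul_comm, mul_assoc,
      hss, hsr2, hsp, hrs, hr2, hrp, hrt, hps, hp2, hpr, hpt, hsr, htt, htr, htp,
      PPU_a hss, PPU_a hsr2, PPU_a hsp, PPU_a hrs, PPU_a hr2, PPU_a hrp, PPU_a hrt, PPU_a hps,
      PPU_a hp2, PPU_a hpr, PPU_a hpt, PPU_a hsr, PPU_a htt, PPU_a htr, PPU_a htp,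
      mul_zero, zero_mul, smul_zero, add_zero, zero_add, sub_zero, zero_sub, smul_add, smul_sub,
      smul_neg, smul_smul,
      hea', hsa, hra, hpa, hta, har, hap, hsb, htb, hrb, hpb, hbs, hbt, hbr, hbp, hae', hae2, hea2,
      PPU_a hsa, PPU_a hra, PPU_a hpa, PPU_a hta, PPU_a har, PPU_a hap, PPU_a hsb, PPU_a htb,
      PPU_a hrb, PPU_a hpb, PPU_a hbs, PPU_a hbt, PPU_a hbr, PPU_a hbp]
    match_scalars <;> (ring_nf; try simp only [Complex.I_sq, hcc2]; try norm_num)
  · intro c g hc hg hrc hrg hcg hcgr
    have hcr : c * r = c := by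
      have := congrArg star hrc
      rwa [star_mul, hc, hr1] at this
    have hgr : g * r = g := by
      have := congrArg star hrg
      rwa [star_mul, hg, hr1] at this
    have hpc : p * c = 0 := by rw [← hrc, ← mul_assoc, hpr, zero_mul]
    have hpg : p * g = 0 := by rw [← hrg, ← mul_assoc, hpr, zero_mul]
    have hcp : c * p = 0 := by rw [← hcr, mul_assoc, hrp, mul_zero]
    have hgp : g * p = 0 := by rw [← hgr, mul_assoc, hrp, mul_zero]
    have hcs : c * s = 0 := by rw [← hcr, mul_assoc, hrs, mul_zero]
    have hgs : g * s = 0 := by rw [← hgr, mul_assoc, hrs, mul_zero]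
    have htc : star s * c = 0 := by rw [← hrc, ← mul_assoc, htr, zero_mul]
    have htg : star s * g = 0 := by rw [← hrg, ← mul_assoc, htr, zero_mul]
    have hI : star Complex.I = -Complex.I := Complex.conj_I
    have hD : star (s * c * star s + Complex.I • (s * g * star s))
        = s * c * star s - Complex.I • (s * g * star s) := by
      simp only [star_add, star_mul, star_smul, star_star, hc, hg, hI, mul_assoc]
      module
    rw [hD]
    refine ⟨⟨?_, ?_⟩, ?_⟩
    · rw [hD]
      have e1 : (s * c * star s - Complex.I • (s * g * star s)) *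
          (s * c * star s + Complex.I • (s * g * star s))
          = s * (c * c + g * g) * star s + Complex.I • (s * (c * g - g * c) * star s) := by
        simp only [mul_add, add_mul, mul_sub, sub_mul, smul_mul_assoc, mul_smul_comm, mul_assoc,
          PPU_a hsr, PPU_a hrc, PPU_a hrg, smul_add, smul_sub, smul_smul]
        match_scalars <;> (ring_nf; try simp only [Complex.I_sq]; try norm_num)
      rw [e1, hcgr, hcg, sub_self, mul_zero, zero_mul, smul_zero, add_zero, hsr2]
    · rw [hD]
      have e1 : (s * c * star s + Complex.I • (s * g * star s)) *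
          (s * c * star s - Complex.I • (s * g * star s))
          = s * (c * c + g * g) * star s - Complex.I • (s * (c * g - g * c) * star s) := by
        simp only [mul_add, add_mul, mul_sub, sub_mul, smul_mul_assoc, mul_smul_comm, mul_assoc,
          PPU_a hsr, PPU_a hrc, PPU_a hrg, smul_add, smul_sub, smul_smul]
        match_scalars <;> (ring_nf; try simp only [Complex.I_sq]; try norm_num)
      rw [e1, hcgr, hcg, sub_self, mul_zero, zero_mul, smul_zero, sub_zero, hsr2]
    · rw [hPPs, hPP]
      simp only [mul_add, add_mul, mul_sub, sub_mul, smul_mul_assoc, mul_smul_comm, mul_assoc,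
        hss, hsr2, hsp, hrs, hr2, hrp, hrt, hps, hp2, hpr, hpt, hsr, htt, htr, htp,
        PPU_a hss, PPU_a hsr2, PPU_a hsp, PPU_a hrs, PPU_a hr2, PPU_a hrp, PPU_a hrt, PPU_a hps,
        PPU_a hp2, PPU_a hpr, PPU_a hpt, PPU_a hsr, PPU_a htt, PPU_a htr, PPU_a htp,
        mul_zero, zero_mul, smul_zero, add_zero, zero_add, sub_zero, zero_sub, smul_add, smul_sub,
        smul_neg, smul_smul,
        hcr, hgr, hrc, hrg, hpc, hpg, hcp, hgp, hcs, hgs, htc, htg,
        PPU_a hcr, PPU_a hgr, PPU_a hrc, PPU_a hrg, PPU_a hpc, PPU_a hpg, PPU_a hcp, PPU_a hgp,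
        PPU_a hcs, PPU_a hgs, PPU_a htc, PPU_a htg]
      match_scalars <;> (ring_nf; try simp only [Complex.I_sq, hcc2]; try norm_num)

end Pool.Agent.H518R5.SC
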