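import Mathlib
import Pool.Agent.H518R5.SC.Stubs

/-!
Sequential commutation orbits of corners: reflexivity and symmetry of the chain relations.
-/

set_option autoImplicit false

open scoped ComplexOrder Topology
open Filter

noncomputable section

namespace Pool.Agent.H518R5.SC

open Pool.Agent.H467F Pool.Agent.H518R4.UG

theorem REFL_cm_swap {A : Type} [CStarAlgebra A] (τ : A →ₗ[ℂ] ℂ) (x y : A) :
    n2 τ (cm x y) = n2 τ (cm y x) := by
  have : cm x y = -cm y x := by
    unfold cm
    rw [neg_sub]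
  rw [this, n2_neg]

theorem REFL_const {A : Type} [CStarAlgebra A] (τ : A →ₗ[ℂ] ℂ) (p u x : A) (hu : HC τ p u)
    (hx : u * x = x * u) : CC τ p 0 u x := by
  intro ε hε
  refine ⟨fun _ => u, fun _ => hu.1, ?_, ?_, ?_, ?_⟩
  · intro _ k hk _
    rw [hu.2 k hk, norm_zero]
    exact hε.le
  · have : cm u u = 0 := by
      unfold cm
      rw [sub_self]
    rw [this, n2_zero]
    exact hε.le
  · intro i
    exact i.elim0
  · have : cm u x = 0 := by
      unfold cm
      rw [hx, sub_self]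
    rw [this, n2_zero]
    exact hε.le

theorem REFL_symm {A : Type} [CStarAlgebra A] (τ : A →ₗ[ℂ] ℂ) (p : A) (n : ℕ) (u v : A)
    (h : CC τ p n u v) : CC τ p n v u := by
  intro ε hε
  obtain ⟨w, h1, h2, h3, h4, h5⟩ := h ε hε
  refine ⟨fun i => w (Fin.rev i), fun i => h1 _, fun i => h2 _, ?_, ?_, ?_⟩
  · rw [REFL_cm_swap]
    change n2 τ (cm (w (Fin.rev 0)) v) ≤ ε
    rw [Fin.rev_zero]
    exact h5
  · intro i
    rw [REFL_cm_swap]
    change n2 τ (cm (w (Fin.rev i.succ)) (w (Fin.rev i.castSucc))) ≤ ε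
    rw [Fin.rev_castSucc, Fin.rev_succ]
    exact h4 _
  · rw [REFL_cm_swap]
    change n2 τ (cm u (w (Fin.rev (Fin.last n)))) ≤ ε
    rw [Fin.rev_last]
    exact h3

theorem p_REFL : S_REFL := by
  intro A _ τ _ p _
  exact ⟨fun u hu => REFL_const τ p u u hu rfl, fun u x hu hx => REFL_const τ p u x hu hx,
    fun n u v h => REFL_symm τ p n u v h⟩

end Pool.Agent.H518R5.SC
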