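import Mathlib
import Pool.Agent.H518R5.SC.Stubs

/-! SEPC (helper483): a II_1 factor on a separable Hilbert space is separable in the 2-norm. -/

set_option autoImplicit false

open scoped ComplexOrder Topology InnerProductSpace
open Filter

noncomputable section

namespace Pool.Agent.H518R5.SC

open Pool.Agent.H467F Pool.Agent.H518R4.UG

theorem SEPC_cover {S Y : Type*} [TopologicalSpace Y] [SecondCountableTopology Y] (Φ : S → Y) :
    ∃ C : Set S, C.Countable ∧ ∀ x : S, ∀ U : Set Y, IsOpen U → Φ x ∈ U → ∃ c ∈ C, Φ c ∈ U := by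
  letI : TopologicalSpace S := TopologicalSpace.induced Φ inferInstance
  haveI := TopologicalSpace.secondCountableTopology_induced S Y Φ
  obtain ⟨C, hC, hd⟩ := TopologicalSpace.exists_countable_dense S
  refine ⟨C, hC, fun x U hU hx => ?_⟩
  obtain ⟨c, hc1, hc2⟩ := hd.inter_open_nonempty (Φ ⁻¹' U) (hU.preimage continuous_induced_dom)
    ⟨x, hx⟩
  exact ⟨c, hc2, hc1⟩

theorem SEPC_val {H : Type} [NormedAddCommGroup H] [InnerProductSpace ℂ H] [CompleteSpace H]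
    (N : VonNeumannAlgebra H) (t : Elt N → ℂ) (ξ : ℕ → H)
    (hx : ∀ x : Elt N, t x = ∑' k, ⟪ξ k, (x : H →L[ℂ] H) (ξ k)⟫_ℂ) (y : Elt N) :
    (t (star y * y)).re = ∑' k, ‖(y : H →L[ℂ] H) (ξ k)‖ ^ 2 := by
  have h1 : t (star y * y) = ((∑' k, ‖(y : H →L[ℂ] H) (ξ k)‖ ^ 2 : ℝ) : ℂ) := by
    rw [hx, Complex.ofReal_tsum]
    apply tsum_congr
    intro k
    have h2 : ((star y * y : Elt N) : H →L[ℂ] H) (ξ k) =
        ContinuousLinearMap.adjoint (y : H →L[ℂ] H) ((y : H →L[ℂ] H) (ξ k)) := rfl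
    rw [h2, ContinuousLinearMap.adjoint_inner_right, inner_self_eq_norm_sq_to_K]
    push_cast
    rfl
  rw [h1, Complex.ofReal_re]

theorem p_SEPC : S_SEPC := by
  intro H _ _ _ _ N t hN
  obtain ⟨ξ, hξ, hx⟩ := hN.normal
  haveI : SecondCountableTopology H := UniformSpace.secondCountable_of_separable H
  have hC := fun m : ℕ => SEPC_cover (S := {x : Elt N // ‖x‖ ≤ (m : ℝ)}) (Y := ℕ → H)
    (fun x k => ((x : Elt N) : H →L[ℂ] H) (ξ k))
  choose C hC1 hC2 using hC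
  have hcount : (⋃ m : ℕ, (fun x : {x : Elt N // ‖x‖ ≤ (m : ℝ)} => (x : Elt N)) '' C m).Countable :=
    Set.countable_iUnion fun m => (hC1 m).image _
  have hne : (⋃ m : ℕ, (fun x : {x : Elt N // ‖x‖ ≤ (m : ℝ)} => (x : Elt N)) '' C m).Nonempty := by
    obtain ⟨c, hc, _⟩ := hC2 0 ⟨0, by simp⟩ Set.univ isOpen_univ trivial
    exact ⟨c, Set.mem_iUnion.2 ⟨0, c, hc, rfl⟩⟩
  obtain ⟨s, hs⟩ := hcount.exists_eq_range hne
  refine ⟨s, ?_⟩
  intro x ε hε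
  obtain ⟨m, hm⟩ := exists_nat_ge ‖x‖
  have htail : Tendsto (fun K : ℕ => (2 * (m : ℝ)) ^ 2 * ∑' k, ‖ξ (k + K)‖ ^ 2) atTop (𝓝 0) := by
    have h1 := tendsto_sum_nat_add (fun k => ‖ξ k‖ ^ 2)
    have h2 := h1.const_mul ((2 * (m : ℝ)) ^ 2)
    rwa [mul_zero] at h2
  have hε2 : 0 < ε ^ 2 / 2 := by positivity
  obtain ⟨K, hK⟩ := (htail.eventually (eventually_lt_nhds hε2)).exists
  obtain ⟨η, hη⟩ : ∃ η : ℝ, η = ε / (2 * ((K : ℝ) + 1)) := ⟨_, rfl⟩
  have hK0 : (0 : ℝ) ≤ K := Nat.cast_nonneg K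
  have hη0 : 0 < η := by rw [hη]; positivity
  have hηK : (K : ℝ) * η ^ 2 < ε ^ 2 / 2 := by
    have h1 : (K : ℝ) * η ^ 2 ≤ (((K : ℝ) + 1) * η) ^ 2 := by nlinarith [sq_nonneg η, mul_nonneg hK0 (sq_nonneg η), mul_nonneg (mul_nonneg hK0 hK0) (sq_nonneg η)]
    have h2 : ((K : ℝ) + 1) * η = ε / 2 := by
      rw [hη]
      field_simp
    rw [h2] at h1
    nlinarith
  obtain ⟨c, hc, hcU⟩ := hC2 m ⟨x, hm⟩
    {f : ℕ → H | ∀ k ∈ Finset.range K, ‖f k - (x : H →L[ℂ] H) (ξ k)‖ < η}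
    (by
      have : {f : ℕ → H | ∀ k ∈ Finset.range K, ‖f k - (x : H →L[ℂ] H) (ξ k)‖ < η} =
          ⋂ k ∈ Finset.range K, {f : ℕ → H | ‖f k - (x : H →L[ℂ] H) (ξ k)‖ < η} := by
        ext f
        simp only [Set.mem_iInter, Set.mem_ofPred_eq]
      rw [this]
      apply isOpen_biInter_finset
      intro k _
      apply isOpen_lt
      · exact ((continuous_apply k).sub continuous_const).norm
      · exact continuous_const)
    (by
      intro k _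
      simpa using hη0)
  have hcs : (c : Elt N) ∈ Set.range s := by
    rw [← hs]
    exact Set.mem_iUnion.2 ⟨m, c, hc, rfl⟩
  obtain ⟨n, hn⟩ := hcs
  refine ⟨n, ?_⟩
  rw [hn]
  unfold n2
  rw [Real.sqrt_lt' hε, SEPC_val N t ξ hx]
  have hop : ∀ v : H, ‖((x - (c : Elt N) : Elt N) : H →L[ℂ] H) v‖ ≤ (2 * m) * ‖v‖ := by
    intro v
    refine (ContinuousLinearMap.le_opNorm _ v).trans ?_
    apply mul_le_mul_of_nonneg_right _ (norm_nonneg v)
    have h1 : ‖((x - (c : Elt N) : Elt N) : H →L[ℂ] H)‖ = ‖x - (c : Elt N)‖ := rfl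
    rw [h1]
    refine (norm_sub_le _ _).trans ?_
    have := c.2
    linarith
  have hsum : Summable (fun k => ‖((x - (c : Elt N) : Elt N) : H →L[ℂ] H) (ξ k)‖ ^ 2) := by
    refine Summable.of_nonneg_of_le (fun k => by positivity) (fun k => ?_)
      (hξ.mul_left ((2 * (m : ℝ)) ^ 2))
    rw [← mul_pow]
    exact pow_le_pow_left₀ (norm_nonneg _) (hop (ξ k)) 2
  rw [← hsum.sum_add_tsum_nat_add K]
  have hA : ∑ k ∈ Finset.range K, ‖((x - (c : Elt N) : Elt N) : H →L[ℂ] H) (ξ k)‖ ^ 2 ≤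
      (K : ℝ) * η ^ 2 := by
    have h1 : ∀ k ∈ Finset.range K,
        ‖((x - (c : Elt N) : Elt N) : H →L[ℂ] H) (ξ k)‖ ^ 2 ≤ η ^ 2 := by
      intro k hk
      have h2 := hcU k hk
      have h3 : ((x - (c : Elt N) : Elt N) : H →L[ℂ] H) (ξ k) =
          (x : H →L[ℂ] H) (ξ k) - ((c : Elt N) : H →L[ℂ] H) (ξ k) := rfl
      rw [h3, norm_sub_rev]
      exact pow_le_pow_left₀ (norm_nonneg _) h2.le 2
    refine (Finset.sum_le_sum h1).trans ?_
    rw [Finset.sum_const, Finset.card_range, nsmul_eq_mul]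
  have hB : ∑' k, ‖((x - (c : Elt N) : Elt N) : H →L[ℂ] H) (ξ (k + K))‖ ^ 2 ≤
      (2 * (m : ℝ)) ^ 2 * ∑' k, ‖ξ (k + K)‖ ^ 2 := by
    have hs1 : Summable (fun k => ‖ξ (k + K)‖ ^ 2) := (summable_nat_add_iff K).2 hξ
    rw [← tsum_mul_left]
    refine Summable.tsum_le_tsum (fun k => ?_) ((summable_nat_add_iff K).2 hsum)
      (hs1.mul_left _)
    rw [← mul_pow]
    exact pow_le_pow_left₀ (norm_nonneg _) (hop (ξ (k + K))) 2
  linarith

end Pool.Agent.H518R5.SC
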