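import Mathlib
import Pool.Agent.H518R5.SC.Stubs

set_option autoImplicit false

open scoped ComplexOrder Topology InnerProductSpace
open Filter

noncomputable section

namespace Pool.Agent.H518R5.SC

open Pool.Agent.H467F Pool.Agent.H518R4.UG

theorem SUM_right {A : Type} [CStarAlgebra A] {p a : A} (hp : IsPrj p) (h : star a * a = p) :
    a * p = a := by
  have h0 : star (a - a * p) * (a - a * p) = 0 := by
    rw [star_sub, star_mul, hp.1]
    have e : (star a - p * star a) * (a - a * p) =
        star a * a - star a * a * p - p * (star a * a) + p * (star a * a) * p := by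
      noncomm_ring
    rw [e, h, hp.2, hp.2]
    abel
  have h1 : a - a * p = 0 := CStarRing.star_mul_self_eq_zero_iff _ |>.1 h0
  exact (sub_eq_zero.1 h1).symm

theorem SUM_left {A : Type} [CStarAlgebra A] {p a : A} (hp : IsPrj p) (h : a * star a = p) :
    p * a = a := by
  have h1 : star (star a) * star a = p := by rw [star_star]; exact h
  have h2 := congrArg star (SUM_right hp h1)
  rw [star_mul, star_star, hp.1] at h2
  exact h2

theorem SUM_pow {A : Type} [CStarAlgebra A] {a b : A} (h1 : a * b = 0) (h2 : b * a = 0) (k : ℕ) :
    (a + b) ^ (k + 1) = a ^ (k + 1) + b ^ (k + 1) := by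
  induction k with
  | zero => simp
  | succ k ih =>
    rw [pow_succ, ih, add_mul, mul_add, mul_add]
    have e1 : a ^ (k + 1) * b = 0 := by rw [pow_succ, mul_assoc, h1, mul_zero]
    have e2 : b ^ (k + 1) * a = 0 := by rw [pow_succ, mul_assoc, h2, mul_zero]
    rw [e1, e2, ← pow_succ, ← pow_succ]
    simp

theorem p_SUM : S_SUM := by
  intro A _ τ hτ p r a b s hp hr hpr
  have hrp : r * p = 0 := by
    have h := congrArg star hpr
    rw [star_mul, hp.1, hr.1, star_zero] at h
    exact h
  constructor
  · rintro ⟨⟨ha1, ha2⟩, ha3⟩ ⟨⟨hb1, hb2⟩, hb3⟩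
    have ar := SUM_right hp ha1
    have al := SUM_left hp ha2
    have br := SUM_right hr hb1
    have bl := SUM_left hr hb2
    have asl : star a * p = star a := by
      have h := congrArg star al
      rwa [star_mul, hp.1] at h
    have asr : p * star a = star a := by
      have h := congrArg star ar
      rwa [star_mul, hp.1] at h
    have bsl : star b * r = star b := by
      have h := congrArg star bl
      rwa [star_mul, hr.1] at h
    have bsr : r * star b = star b := by
      have h := congrArg star br
      rwa [star_mul, hr.1] at h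
    have z1 : star a * b = 0 := by
      rw [← asl, ← bl, mul_assoc, ← mul_assoc p r b, hpr, zero_mul, mul_zero]
    have z2 : star b * a = 0 := by
      rw [← bsl, ← al, mul_assoc, ← mul_assoc r p a, hrp, zero_mul, mul_zero]
    have z3 : a * star b = 0 := by
      rw [← ar, ← bsr, mul_assoc, ← mul_assoc p r (star b), hpr, zero_mul, mul_zero]
    have z4 : b * star a = 0 := by
      rw [← br, ← asr, mul_assoc, ← mul_assoc r p (star a), hrp, zero_mul, mul_zero]
    have z5 : a * b = 0 := by
      rw [← ar, ← bl, mul_assoc, ← mul_assoc p r b, hpr, zero_mul, mul_zero]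
    have z6 : b * a = 0 := by
      rw [← br, ← al, mul_assoc, ← mul_assoc r p a, hrp, zero_mul, mul_zero]
    refine ⟨⟨?_, ?_⟩, ?_⟩
    · rw [star_add, add_mul, mul_add, mul_add, ha1, hb1, z1, z2]
      simp
    · rw [star_add, add_mul, mul_add, mul_add, ha2, hb2, z3, z4]
      simp
    · intro k hk
      obtain ⟨j, rfl⟩ : ∃ j, k = j + 1 := ⟨k - 1, by omega⟩
      rw [SUM_pow z5 z6, map_add, ha3 _ hk, hb3 _ hk, add_zero]
  · rintro ⟨⟨ha1, ha2⟩, ha3⟩ hs1 hs2
    have ar := SUM_right hp ha1
    have al := SUM_left hp ha2
    have sl : p * s = s := SUM_left hp hs1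
    have asl : star a * p = star a := by
      have h := congrArg star al
      rwa [star_mul, hp.1] at h
    have asr : p * star a = star a := by
      have h := congrArg star ar
      rwa [star_mul, hp.1] at h
    have hst : star (star s * a * s) = star s * star a * s := by
      rw [star_mul, star_mul, star_star, mul_assoc]
    have hpow : ∀ k : ℕ, (star s * a * s) ^ (k + 1) = star s * a ^ (k + 1) * s := by
      intro k
      induction k with
      | zero => simp
      | succ k ih =>
        rw [pow_succ, ih]
        have e : star s * a ^ (k + 1) * s * (star s * a * s) =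
            star s * (a ^ (k + 1) * ((s * star s) * a)) * s := by
          noncomm_ring
        rw [e, hs1, al, ← pow_succ]
    refine ⟨⟨?_, ?_⟩, ?_⟩
    · rw [hst]
      have e : star s * star a * s * (star s * a * s) =
          star s * (star a * ((s * star s) * a)) * s := by
        noncomm_ring
      rw [e, hs1, al, ha1, mul_assoc, sl, hs2]
    · rw [hst]
      have e : star s * a * s * (star s * star a * s) =
          star s * (a * ((s * star s) * star a)) * s := by
        noncomm_ring
      rw [e, hs1, asr, ha2, mul_assoc, sl, hs2]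
    · intro k hk
      obtain ⟨j, rfl⟩ : ∃ j, k = j + 1 := ⟨k - 1, by omega⟩
      rw [hpow, mul_assoc, hτ.comm, mul_assoc, hs1]
      have e : a ^ (j + 1) * p = a ^ (j + 1) := by rw [pow_succ, mul_assoc, ar]
      rw [e]
      exact ha3 _ hk

end Pool.Agent.H518R5.SC
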