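import Pool.Agent.H518R5.SC.Stubs

set_option autoImplicit false

open scoped ComplexOrder Topology
open Filter

noncomputable section

namespace Pool.Agent.H518R5.SC

open Pool.Agent.H467F Pool.Agent.H518R4.UG

/-- TRANS: concatenation of chains. -/
theorem p_TRANS : S_TRANS := by
  intro A _ τ _ p _ n m u v x hv h1 h2 ε hε
  obtain ⟨w, w1, w2, w3, w4, w5⟩ := h1 ε hε
  obtain ⟨w', v1, v2, v3, v4, v5⟩ := h2 ε hε
  let W : ℕ → A := fun i => if h : i < n + 1 then w ⟨i, h⟩ else
    if i = n + 1 then v else if h' : i - (n + 2) < m + 1 then w' ⟨i - (n + 2), h'⟩ else v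
  have W1 : ∀ (i : ℕ) (h : i < n + 1), W i = w ⟨i, h⟩ := by
    intro i h
    simp only [W]
    rw [dif_pos h]
  have W2 : W (n + 1) = v := by
    simp only [W]
    rw [dif_neg (by omega), if_pos trivial]
  have W3 : ∀ (i : ℕ) (h : i < m + 1), W (n + 2 + i) = w' ⟨i, h⟩ := by
    intro i h
    simp only [W]
    rw [dif_neg (by omega), if_neg (by omega), dif_pos (by omega)]
    congr 2
    omega
  have cases : ∀ i, i < n + m + 3 → i < n + 1 ∨ i = n + 1 ∨ ∃ j, j < m + 1 ∧ i = n + 2 + j := by
    intro i hi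
    by_cases h : i < n + 1
    · exact Or.inl h
    · by_cases h' : i = n + 1
      · exact Or.inr (Or.inl h')
      · exact Or.inr (Or.inr ⟨i - (n + 2), by omega, by omega⟩)
  refine ⟨fun i => W i.val, ?_, ?_, ?_, ?_, ?_⟩
  · rintro ⟨i, hi⟩
    rcases cases i (by omega) with h | h | ⟨j, hj, h⟩
    · change UC p (W i)
      rw [W1 i h]; exact w1 _
    · change UC p (W i)
      rw [h, W2]; exact hv.1
    · change UC p (W i)
      rw [h, W3 j hj]; exact v1 _
  · rintro ⟨i, hi⟩ k hk hk'
    change ‖τ (W i ^ k)‖ ≤ ε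
    rcases cases i (by omega) with h | h | ⟨j, hj, h⟩
    · rw [W1 i h]; exact w2 _ k hk hk'
    · rw [h, W2, hv.2 k hk, norm_zero]; exact hε.le
    · rw [h, W3 j hj]; exact v2 _ k hk hk'
  · change n2 τ (cm u (W 0)) ≤ ε
    rw [W1 0 (by omega)]
    exact w3
  · rintro ⟨i, hi⟩
    change n2 τ (cm (W i) (W (i + 1))) ≤ ε
    rcases cases i (by omega) with h | h | ⟨j, hj, h⟩
    · by_cases hn : i = n
      · subst hn
        rw [W2, W1 i h]
        exact w5
      · have := w4 ⟨i, by omega⟩
        rw [W1 i h, W1 (i + 1) (by omega)]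
        exact this
    · subst h
      rw [W2]
      have e : W (n + 1 + 1) = w' 0 := W3 0 (by omega)
      rw [e]
      exact v3
    · subst h
      have := v4 ⟨j, by omega⟩
      rw [W3 j hj]
      have e : W (n + 2 + j + 1) = w' ⟨j + 1, by omega⟩ := W3 (j + 1) (by omega)
      rw [e]
      exact this
  · change n2 τ (cm (W (n + m + 2)) x) ≤ ε
    have e : n + m + 2 = n + 2 + m := by omega
    rw [e, W3 m (by omega)]
    exact v5

end Pool.Agent.H518R5.SC
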