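import Mathlib
import Pool.Agent.H518R5.SC.Stubs

/-!
USP: unitaries are close to unitaries with finite spectrum.
-/

set_option autoImplicit false

open scoped ComplexOrder Topology
open Filter

noncomputable section

namespace Pool.Agent.H518R5.SC

open Pool.Agent.H467F Pool.Agent.H518R4.UG

section

variable {A : Type} [CStarAlgebra A]

theorem usp_prj_norm {e : A} (he : IsPrj e) : ‖e‖ ≤ 1 := by
  have h1 : ‖e‖ = ‖e‖ * ‖e‖ := by
    conv_lhs => rw [← he.2]
    conv_lhs => rw [← he.1]
    rw [he.1]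
    conv_lhs => rw [show e * e = star e * e by rw [he.1]]
    exact CStarRing.norm_star_mul_self
  by_contra hc
  push Not at hc
  nlinarith

theorem usp_prj_norm_one {e : A} (he : IsPrj e) (h0 : e ≠ 0) : ‖e‖ = 1 := by
  have h1 : ‖e‖ = ‖e‖ * ‖e‖ := by
    conv_lhs => rw [← he.2]
    rw [show e * e = star e * e by rw [he.1]]
    exact CStarRing.norm_star_mul_self
  have h2 : 0 < ‖e‖ := norm_pos_iff.mpr h0
  nlinarith

theorem usp_le {ι : Type} [Fintype ι] {q : ι → A} {e : A} (h : IsPart q e) (j : ι) :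
    q j * e = q j ∧ e * q j = q j := by
  classical
  constructor
  · rw [← h.sum, Finset.mul_sum, Finset.sum_eq_single j]
    · exact (h.prj j).2
    · intro b _ hb
      exact h.ort j b (Ne.symm hb)
    · intro hj
      exact absurd (Finset.mem_univ j) hj
  · rw [← h.sum, Finset.sum_mul, Finset.sum_eq_single j]
    · exact (h.prj j).2
    · intro b _ hb
      exact h.ort b j hb
    · intro hj
      exact absurd (Finset.mem_univ j) hj

/-- the norm of a diagonal element -/
theorem usp_norm {ι : Type} [Fintype ι] {q : ι → A} {e : A} (h : IsPart q e) (he : IsPrj e)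
    (c : ι → ℂ) (M : ℝ) (hM : 0 ≤ M) (hc : ∀ i, q i ≠ 0 → ‖c i‖ ≤ M) :
    ‖∑ i, c i • q i‖ ≤ M := by
  classical
  letI := CStarAlgebra.spectralOrder A
  haveI := CStarAlgebra.spectralOrderedRing A
  have h1 : star (∑ i, c i • q i) * (∑ i, c i • q i) = ∑ i, (‖c i‖ ^ 2 : ℝ) • q i := by
    rw [star_sum, Finset.sum_mul]
    refine Finset.sum_congr rfl fun i _ => ?_
    rw [Finset.mul_sum, Finset.sum_eq_single i]
    · rw [star_smul, (h.prj i).1, smul_mul_smul_comm, (h.prj i).2]
      rw [show (star (c i) * c i : ℂ) = ((‖c i‖ ^ 2 : ℝ) : ℂ) by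
        rw [Complex.star_def, ← Complex.normSq_eq_conj_mul_self, Complex.normSq_eq_norm_sq]]
      rw [Complex.coe_smul]
    · intro b _ hb
      rw [star_smul, (h.prj i).1, smul_mul_smul_comm, h.ort i b (Ne.symm hb), smul_zero]
    · intro hi
      exact absurd (Finset.mem_univ i) hi
  have hq0 : ∀ i, 0 ≤ q i := fun i => by
    rw [← (h.prj i).2]
    nth_rewrite 1 [← (h.prj i).1]
    exact star_mul_self_nonneg _
  have h2 : ∑ i, (‖c i‖ ^ 2 : ℝ) • q i ≤ ∑ i, (M ^ 2 : ℝ) • q i := by
    refine Finset.sum_le_sum fun i _ => ?_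
    by_cases hi : q i = 0
    · rw [hi, smul_zero, smul_zero]
    · exact smul_le_smul_of_nonneg_right (pow_le_pow_left₀ (norm_nonneg _) (hc i hi) 2) (hq0 i)
  have h3 : 0 ≤ ∑ i, (‖c i‖ ^ 2 : ℝ) • q i :=
    Finset.sum_nonneg fun i _ => smul_nonneg (by positivity) (hq0 i)
  have h4 := CStarAlgebra.norm_le_norm_of_nonneg_of_le h3 h2
  rw [← Finset.smul_sum, h.sum, norm_smul, ← h1, CStarRing.norm_star_mul_self] at h4
  have h5 := usp_prj_norm he
  have h6 : ‖(M ^ 2 : ℝ)‖ = M ^ 2 := by
    rw [Real.norm_eq_abs, abs_of_nonneg (by positivity)]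
  rw [h6] at h4
  have h7 : M ^ 2 * ‖e‖ ≤ M ^ 2 * 1 := mul_le_mul_of_nonneg_left h5 (by positivity)
  have h8 := norm_nonneg (∑ i, c i • q i)
  nlinarith

theorem usp_unit {p u : A} (hp : IsPrj p) (hu : UC p u) : u * p = u ∧ p * u = u := by
  have h1 : u * p = u := by
    have h2 : star (u - u * p) * (u - u * p) = 0 := by
      have : star (u - u * p) * (u - u * p)
          = star u * u - star u * u * p - star p * (star u * u) + star p * (star u * u) * p := by
        rw [star_sub, star_mul]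
        noncomm_ring
      rw [this, hu.1, hp.1, hp.2, hp.2]
      abel
    have h3 := CStarRing.star_mul_self_eq_zero_iff (u - u * p) |>.mp h2
    exact (sub_eq_zero.mp h3).symm
  refine ⟨h1, ?_⟩
  calc p * u = u * star u * u := by rw [hu.2]
    _ = u * (star u * u) := mul_assoc _ _ _
    _ = u := by rw [hu.1, h1]

end

theorem usp_gen (A : Type) [CStarAlgebra A] (τ : A →ₗ[ℂ] ℂ) (hII : II τ) (p u : A)
    (hp : IsPrj p) (hu : UC p u) (δ : ℝ) (hδ : 0 < δ) :
    ∃ (ι : Type) (_ : Fintype ι) (q : ι → A) (l : ι → ℝ), IsPart q p ∧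
      ‖u - ∑ i, Complex.exp (l i * Complex.I) • q i‖ ≤ δ := by
  classical
  obtain ⟨hup, hpu⟩ := usp_unit hp hu
  have hsp : star u * p = star u := by
    have := congrArg star hpu
    rwa [star_mul, hp.1] at this
  have hps : p * star u = star u := by
    have := congrArg star hup
    rwa [star_mul, hp.1] at this
  have hd : 0 < δ / 4 := by positivity
  obtain ⟨d, hdd⟩ : ∃ d : ℝ, d = δ / 4 := ⟨_, rfl⟩
  rw [← hdd] at hd
  -- the real and the imaginary part
  obtain ⟨a, ha⟩ : ∃ a : A, a = (1 / 2 : ℂ) • (u + star u) := ⟨_, rfl⟩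
  obtain ⟨b, hb⟩ : ∃ b : A, b = (-(1 / 2) * Complex.I : ℂ) • (u - star u) := ⟨_, rfl⟩
  have hab : u = a + Complex.I • b := by
    rw [ha, hb, smul_smul]
    have h1 : Complex.I * (-(1 / 2) * Complex.I) = (1 / 2 : ℂ) := by
      have := Complex.I_mul_I
      linear_combination (-(1 / 2) : ℂ) * this
    rw [h1, ← smul_add]
    have h2 : u + star u + (u - star u) = (2 : ℂ) • u := by
      rw [two_smul]
      abel
    rw [h2, smul_smul]
    norm_num
  have hsa : star a = a := by
    rw [ha, star_smul, star_add, star_star, add_comm]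
    congr 1
    simp
  have hsb : star b = b := by
    rw [hb, star_smul, star_sub, star_star, ← neg_sub u (star u), smul_neg, ← neg_smul]
    congr 1
    simp
  have hpa : p * a = a := by
    rw [ha, mul_smul_comm, mul_add, hpu, hps]
  have hpb : p * b = b := by
    rw [hb, mul_smul_comm, mul_sub, hpu, hps]
  have hbp : b * p = b := by
    rw [hb, smul_mul_assoc, sub_mul, hup, hsp]
  have hcomm : a * b = b * a := by
    rw [ha, hb, smul_mul_smul_comm, smul_mul_smul_comm, mul_comm (1 / 2 : ℂ)]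
    congr 1
    have h1 : (u + star u) * (u - star u) = u * u - u * star u + star u * u - star u * star u := by
      noncomm_ring
    have h2 : (u - star u) * (u + star u) = u * u + u * star u - star u * u - star u * star u := by
      noncomm_ring
    rw [h1, h2, hu.1, hu.2]
    abel
  obtain ⟨n, q, l, hq, hqn, hqc⟩ := hII.fs2 p hp a hsa hpa d hd
  have hqb : ∀ i, q i * b = b * q i := fun i => hqc i b hcomm (by rw [hpb, hbp])
  have hd' : 0 < d / (n + 1) := by positivity
  have hsec : ∀ i : Fin n, ∃ (m : ℕ) (r : Fin m → A) (t : Fin m → ℝ), IsPart r (q i) ∧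
      ‖b * q i - ∑ j, (t j : ℂ) • r j‖ ≤ d / (n + 1) := by
    intro i
    have hs : star (b * q i) = b * q i := by
      rw [star_mul, hsb, (hq.prj i).1, hqb]
    obtain ⟨m, r, t, h1, h2, -⟩ := hII.fs2 (q i) (hq.prj i) (b * q i) hs
      (by rw [← mul_assoc, hqb i, mul_assoc, (hq.prj i).2]) (d / (n + 1)) hd'
    exact ⟨m, r, t, h1, h2⟩
  choose m r t hr hrn using hsec
  have hri : ∀ i j, r i j * q i = r i j ∧ q i * r i j = r i j := fun i j => usp_le (hr i) j
  have hpart : IsPart (fun x : (i : Fin n) × Fin (m i) => r x.1 x.2) p := by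
    refine ⟨fun x => (hr x.1).prj x.2, ?_, ?_⟩
    · rintro ⟨i, j⟩ ⟨i', j'⟩ hne
      show r i j * r i' j' = 0
      by_cases hi : i = i'
      · subst hi
        refine (hr i).ort j j' ?_
        rintro rfl
        exact hne rfl
      · rw [← (hri i j).1, ← (hri i' j').2, mul_assoc, ← mul_assoc (q i) (q i'), hq.ort i i' hi,
          zero_mul, mul_zero]
    · rw [Fintype.sum_sigma]
      rw [Finset.sum_congr rfl fun i _ => (hr i).sum]
      exact hq.sum
  obtain ⟨z, hz⟩ : ∃ z : ((i : Fin n) × Fin (m i)) → ℂ,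
      z = fun x => (l x.1 : ℂ) + Complex.I * (t x.1 x.2 : ℂ) := ⟨_, rfl⟩
  have hzsum : ∑ x : (i : Fin n) × Fin (m i), z x • r x.1 x.2
      = ∑ i, (l i : ℂ) • q i + Complex.I • ∑ i, ∑ j, (t i j : ℂ) • r i j := by
    rw [Fintype.sum_sigma, Finset.smul_sum, ← Finset.sum_add_distrib]
    refine Finset.sum_congr rfl fun i _ => ?_
    have h1 : (l i : ℂ) • q i = ∑ j, (l i : ℂ) • r i j := by
      rw [← Finset.smul_sum, (hr i).sum]
    rw [h1, Finset.smul_sum, ← Finset.sum_add_distrib]
    refine Finset.sum_congr rfl fun j _ => ?_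
    rw [hz, smul_smul, ← add_smul]
  have hbsum : b = ∑ i, b * q i := by
    rw [← Finset.mul_sum, hq.sum, hbp]
  have herrb : ‖b - ∑ i, ∑ j, (t i j : ℂ) • r i j‖ ≤ d := by
    conv_lhs => rw [hbsum]
    rw [← Finset.sum_sub_distrib]
    refine (norm_sum_le _ _).trans ?_
    refine (Finset.sum_le_sum fun i _ => hrn i).trans ?_
    rw [Finset.sum_const, Finset.card_univ, Fintype.card_fin, nsmul_eq_mul,
      ← mul_div_assoc, div_le_iff₀ (by positivity)]
    nlinarith
  have herr : ‖u - ∑ x : (i : Fin n) × Fin (m i), z x • r x.1 x.2‖ ≤ 2 * d := by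
    rw [hzsum, hab]
    have h1 : a + Complex.I • b - (∑ i, (l i : ℂ) • q i +
        Complex.I • ∑ i, ∑ j, (t i j : ℂ) • r i j)
        = (a - ∑ i, (l i : ℂ) • q i) + Complex.I • (b - ∑ i, ∑ j, (t i j : ℂ) • r i j) := by
      rw [smul_sub]
      abel
    rw [h1]
    refine (norm_add_le _ _).trans ?_
    rw [norm_smul, Complex.norm_I, one_mul]
    linarith
  have hznorm : ∀ x : (i : Fin n) × Fin (m i), r x.1 x.2 ≠ 0 → |‖z x‖ - 1| ≤ 2 * d := by
    intro x hx
    have hpr := hpart.prj x
    have hn1 : ‖r x.1 x.2‖ = 1 := usp_prj_norm_one hpr hx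
    have h1 : (∑ y : (i : Fin n) × Fin (m i), z y • r y.1 y.2) * r x.1 x.2 = z x • r x.1 x.2 := by
      rw [Finset.sum_mul, Finset.sum_eq_single x]
      · rw [smul_mul_assoc, hpr.2]
      · intro y _ hy
        rw [smul_mul_assoc]
        have := hpart.ort y x hy
        rw [this, smul_zero]
      · intro hx'
        exact absurd (Finset.mem_univ x) hx'
    have h2 : ‖u * r x.1 x.2‖ = 1 := by
      have h3 : star (u * r x.1 x.2) * (u * r x.1 x.2) = r x.1 x.2 := by
        rw [star_mul, hpr.1]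
        calc r x.1 x.2 * star u * (u * r x.1 x.2)
            = r x.1 x.2 * (star u * u) * r x.1 x.2 := by noncomm_ring
          _ = r x.1 x.2 := by rw [hu.1, (usp_le hpart x).1, hpr.2]
      have h4 := CStarRing.norm_star_mul_self (x := u * r x.1 x.2)
      rw [h3, hn1] at h4
      have h5 := norm_nonneg (u * r x.1 x.2)
      nlinarith
    have h3 : ‖u * r x.1 x.2 - z x • r x.1 x.2‖ ≤ 2 * d := by
      rw [← h1, ← sub_mul]
      refine (norm_mul_le _ _).trans ?_
      rw [hn1, mul_one]
      exact herr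
    have h4 : ‖z x • r x.1 x.2‖ = ‖z x‖ := by rw [norm_smul, hn1, mul_one]
    have h5 := abs_norm_sub_norm_le (u * r x.1 x.2) (z x • r x.1 x.2)
    rw [h2, h4, abs_sub_comm] at h5
    exact h5.trans h3
  refine ⟨(i : Fin n) × Fin (m i), inferInstance, fun x => r x.1 x.2, fun x => Complex.arg (z x),
    hpart, ?_⟩
  have hfin : ‖∑ x : (i : Fin n) × Fin (m i), (z x - Complex.exp (Complex.arg (z x) * Complex.I)) •
      r x.1 x.2‖ ≤ 2 * d := by
    refine usp_norm hpart hp _ _ (by positivity) fun x hx => ?_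
    have h1 : z x - Complex.exp (Complex.arg (z x) * Complex.I)
        = ((‖z x‖ - 1 : ℝ) : ℂ) * Complex.exp (Complex.arg (z x) * Complex.I) := by
      have := Complex.norm_mul_exp_arg_mul_I (z x)
      push_cast
      rw [sub_mul, this, one_mul]
    rw [h1, norm_mul, Complex.norm_exp_ofReal_mul_I, mul_one, Complex.norm_real,
      Real.norm_eq_abs]
    exact hznorm x hx
  have hsplit : u - ∑ x : (i : Fin n) × Fin (m i),
      Complex.exp (Complex.arg (z x) * Complex.I) • r x.1 x.2
      = (u - ∑ x : (i : Fin n) × Fin (m i), z x • r x.1 x.2) +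
        ∑ x : (i : Fin n) × Fin (m i), (z x - Complex.exp (Complex.arg (z x) * Complex.I)) •
          r x.1 x.2 := by
    simp only [sub_smul, Finset.sum_sub_distrib]
    abel
  rw [hsplit]
  refine (norm_add_le _ _).trans ?_
  linarith

theorem p_USP : S_USP := by
  intro A _ τ hII p u hp hu δ hδ
  obtain ⟨ι, _, q, l, hq, hn⟩ := usp_gen A τ hII p u hp hu δ hδ
  let e := Fintype.equivFin ι
  refine ⟨Fintype.card ι, fun i => q (e.symm i), fun i => l (e.symm i), ⟨?_, ?_, ?_⟩, ?_⟩
  · intro j
    exact hq.prj _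
  · intro i j hij
    exact hq.ort _ _ fun h => hij (e.symm.injective h)
  · rw [← hq.sum]
    exact Equiv.sum_comp e.symm q
  · have : ∑ i : Fin (Fintype.card ι),
        Complex.exp (l (e.symm i) * Complex.I) • q (e.symm i)
        = ∑ i, Complex.exp (l i * Complex.I) • q i :=
      Equiv.sum_comp e.symm fun i => Complex.exp (l i * Complex.I) • q i
    rw [this]
    exact hn

end Pool.Agent.H518R5.SC
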