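import Pool.Agent.H518R5.SC.JOIN
import Pool.Agent.H518R5.SC.REFL
import Pool.Agent.H518R5.SC.TRANS
import Pool.Agent.H518R5.SC.CONJ
import Pool.Agent.H518R5.SC.CLOSED
import Pool.Agent.H518R5.SC.EXT
import Pool.Agent.H518R5.SC.SUM
import Pool.Agent.H518R5.SC.METRIC
import Pool.Agent.H518R5.SC.BAIRE
import Pool.Agent.H518R5.SC.INTR
import Pool.Agent.H518R5.SC.CARD
import Pool.Agent.H518R5.SC.USP
import Pool.Agent.H518R5.SC.ARC
import Pool.Agent.H518R5.SC.SPLITz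
import Pool.Agent.H518R5.SC.HP
import Pool.Agent.H518R5.SC.CMP
import Pool.Agent.H518R5.SC.EXTU
import Pool.Agent.H518R5.SC.EQ
import Pool.Agent.H518R5.SC.DENSE
import Pool.Agent.H518R5.SC.PATH
import Pool.Agent.H518R5.SC.EXH
import Pool.Agent.H518R5.SC.PPU
import Pool.Agent.H518R5.SC.CS
import Pool.Agent.H518R5.SC.DBL
import Pool.Agent.H518R5.SC.MONO
import Pool.Agent.H518R5.SC.FSC
import Pool.Agent.H518R5.SC.POLC
import Pool.Agent.H518R5.SC.SEPC
import Pool.Agent.H518R5.SC.FIN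
import Pool.Agent.H518R4.UG.FCT

/-!
Sequential commutation orbits of corners (MP_52dd0f_an): assembly.
-/

set_option autoImplicit false

noncomputable section

namespace Pool.Agent.H518R5.SC

theorem fin_main : S_FIN := by
  have hHP := p_HP p_USP p_ARC (p_SPLIT p_CMP)
  have hDENSE := p_DENSE hHP (p_EQ p_CMP)
  have hEXTU := p_EXTU p_CMP
  have hCS := p_CS hEXTU p_PPU
  have hEXH := p_EXH (p_SPLIT p_CMP)
  have hBAIRE := p_BAIRE p_METRIC p_CLOSED
  have hINTR := p_INTR p_REFL p_TRANS p_CONJ hDENSE (p_PATH p_USP)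
  have hDBL := p_DBL p_REFL p_TRANS p_CONJ p_CLOSED p_EXT p_SUM hDENSE hEXH p_CMP p_PPU hCS
  have hMONO := p_MONO hDBL p_CMP
  exact p_FIN Pool.Agent.H518R4.UG.p_FCT p_JOIN p_REFL p_TRANS hBAIRE hINTR p_CARD hEXH hMONO p_FSC
    p_POLC p_SEPC

end Pool.Agent.H518R5.SC
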