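import Pool.Agent.H518R5.SC.Stubs
import Pool.Agent.H518R4.UG.LIMP

/-! SPLIT (helper21): projections of a II_1 factor can be divided in prescribed proportions. -/

set_option autoImplicit false

open scoped ComplexOrder Topology InnerProductSpace
open Filter

noncomputable section

namespace Pool.Agent.H518R5.SC

open Pool.Agent.H467F Pool.Agent.H518R4.UG

namespace SPLITx

variable {A : Type} [CStarAlgebra A] {τ : A →ₗ[ℂ] ℂ}

theorem swap {p q : A} (hp : IsPrj p) (hq : IsPrj q) (h : p * q = q) : q * p = q := by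
  have h1 := congrArg star h
  rwa [star_mul, hp.1, hq.1] at h1

theorem sub_prj {p q : A} (hp : IsPrj p) (hq : IsPrj q) (h : p * q = q) : IsPrj (p - q) := by
  have h' := swap hp hq h
  refine ⟨by rw [star_sub, hp.1, hq.1], ?_⟩
  rw [sub_mul, mul_sub, mul_sub, hp.2, h, h', hq.2]
  abel

theorem tr_eq (h : TW τ) {p : A} (hp : IsPrj p) : τ p = (((τ p).re : ℝ) : ℂ) := by
  have h2 := h.im_zero p
  rw [hp.1, hp.2] at h2
  exact Complex.ext rfl (by rw [h2]; simp)

theorem tr_nonneg (h : TW τ) {p : A} (hp : IsPrj p) : 0 ≤ (τ p).re := by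
  have := h.re_nonneg p
  rwa [hp.1, hp.2] at this

theorem tr_le_one (h : TW τ) {p : A} (hp : IsPrj p) : (τ p).re ≤ 1 := by
  have h1 : IsPrj (1 : A) := ⟨star_one A, mul_one 1⟩
  have h2 := tr_nonneg h (sub_prj h1 hp (one_mul p))
  rw [map_sub, h.one, Complex.sub_re, Complex.one_re] at h2
  linarith

theorem tr_zero (h : TW τ) {p : A} (hp : IsPrj p) (h0 : (τ p).re = 0) : p = 0 := by
  apply h.faithful
  rw [hp.1, hp.2, tr_eq h hp, h0]
  simp

/-- projections of dyadic trace -/
theorem dyadic (h : Fct τ) (k j : ℕ) (hj : j ≤ 2 ^ k) :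
    ∃ P : A, IsPrj P ∧ (τ P).re = (j : ℝ) / 2 ^ k := by
  classical
  obtain ⟨v, g, hv⟩ := h.mu k
  have hvg : ∀ i, v i * g = v i := by
    intro i
    have h1 : v i * g = (∑ l, v l * star (v l)) * v i := by
      rw [Finset.sum_mul, Finset.sum_eq_single i]
      · rw [mul_assoc, hv.ini]
      · intro l _ hl
        rw [mul_assoc, hv.ort l i hl, mul_zero]
      · intro hi
        exact absurd (Finset.mem_univ i) hi
    rw [h1, hv.sum, one_mul]
  have hd : ∀ i l, (v i * star (v i)) * (v l * star (v l)) =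
      if i = l then v i * star (v i) else 0 := by
    intro i l
    have e1 : (v i * star (v i)) * (v l * star (v l)) = v i * (star (v i) * v l) * star (v l) := by
      noncomm_ring
    rw [e1]
    by_cases hil : i = l
    · subst hil
      rw [if_pos rfl, hv.ini, hvg]
    · rw [if_neg hil, hv.ort i l hil, mul_zero, zero_mul]
  set S : Finset (Fin (2 ^ k)) := Finset.univ.filter (fun i => (i : ℕ) < j) with hS
  have hcard : S.card = j := by
    have h2 : (Finset.univ.filter (fun i : Fin (2 ^ k) => (i : ℕ) < j)).card =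
        min (2 ^ k) j := Fin.card_filter_val_lt
    rw [hS, h2]
    exact min_eq_right hj
  have htr : ∀ i, τ (v i * star (v i)) = τ g := by
    intro i
    rw [h.tw.comm, hv.ini]
  have hg : (2 : ℂ) ^ k * τ g = 1 := by
    have h1 := congrArg τ hv.sum
    rw [map_sum, h.tw.one, Finset.sum_congr rfl fun i _ => htr i, Finset.sum_const,
      Finset.card_univ, Fintype.card_fin, nsmul_eq_mul] at h1
    push_cast at h1
    exact h1
  have hg2 : τ g = (((1 : ℝ) / 2 ^ k : ℝ) : ℂ) := by
    have h2 : (2 : ℂ) ^ k ≠ 0 := pow_ne_zero _ two_ne_zero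
    push_cast
    rw [eq_div_iff h2, mul_comm]
    exact hg
  refine ⟨∑ i ∈ S, v i * star (v i), ⟨?_, ?_⟩, ?_⟩
  · rw [star_sum]
    refine Finset.sum_congr rfl fun i _ => ?_
    rw [star_mul, star_star]
  · rw [Finset.sum_mul]
    refine Finset.sum_congr rfl fun i hi => ?_
    rw [Finset.mul_sum, Finset.sum_eq_single i]
    · rw [hd, if_pos rfl]
    · intro l _ hl
      rw [hd, if_neg (Ne.symm hl)]
    · intro hi'
      exact absurd hi hi'
  · rw [map_sum, Finset.sum_congr rfl fun i _ => htr i, Finset.sum_const, hcard, hg2,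
      nsmul_eq_mul]
    have h3 : ((j : ℂ) * (((1 : ℝ) / 2 ^ k : ℝ) : ℂ)) = (((j : ℝ) * (1 / 2 ^ k) : ℝ) : ℂ) := by
      push_cast
      ring
    rw [h3, Complex.ofReal_re]
    ring

/-- one step of the approximation -/
theorem step (hC : S_CMP) (h : II τ) (y : ℝ) (hy : 0 ≤ y) (r : A) (hr : IsPrj r)
    (hyr : y ≤ (τ r).re) (n : ℕ) :
    ∃ r' : A, IsPrj r' ∧ y ≤ (τ r').re ∧ r * r' = r' ∧ (τ r').re ≤ y + (1 / 2) ^ n := by
  have htw := h.fct.tw
  have h2n : (0 : ℝ) < 2 ^ n := by positivity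
  set j : ℕ := ⌊((τ r).re - y) * 2 ^ n⌋₊ with hj
  have hnn : 0 ≤ ((τ r).re - y) * 2 ^ n := mul_nonneg (by linarith) h2n.le
  have hj1 : (j : ℝ) ≤ ((τ r).re - y) * 2 ^ n := Nat.floor_le hnn
  have hj2 : ((τ r).re - y) * 2 ^ n < j + 1 := Nat.lt_floor_add_one _
  have hle1 := tr_le_one htw hr
  have hj3 : j ≤ 2 ^ n := by
    have h1 : (j : ℝ) ≤ 2 ^ n := by
      refine hj1.trans ?_
      have : ((τ r).re - y) * 2 ^ n ≤ 1 * 2 ^ n :=
        mul_le_mul_of_nonneg_right (by linarith) h2n.le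
      linarith
    exact_mod_cast h1
  obtain ⟨P, hP, hPt⟩ := dyadic h.fct n j hj3
  have hdiv : (j : ℝ) / 2 ^ n ≤ (τ r).re - y := by
    rw [div_le_iff₀ h2n]
    exact hj1
  have hdiv2 : (τ r).re - y < (j : ℝ) / 2 ^ n + (1 / 2) ^ n := by
    have h1 : (j : ℝ) / 2 ^ n + (1 / 2) ^ n = ((j : ℝ) + 1) / 2 ^ n := by
      rw [one_div, inv_pow]
      field_simp
    rw [h1, lt_div_iff₀ h2n]
    exact hj2
  obtain ⟨s, hs1, hs2, hs3, -⟩ := hC A τ h r P hr hP (by rw [hPt]; linarith)
  have hrs : r * (s * star s) = s * star s := by rw [← mul_assoc, hs2]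
  have hts : (τ (s * star s)).re = (j : ℝ) / 2 ^ n := by
    rw [htw.comm, hs1, hPt]
  refine ⟨r - s * star s, sub_prj hr hs3 hrs, ?_, ?_, ?_⟩
  · rw [map_sub, Complex.sub_re, hts]
    linarith
  · rw [mul_sub, hr.2, hrs]
  · rw [map_sub, Complex.sub_re, hts]
    linarith

/-- subprojections of every trace -/
theorem subprj (hC : S_CMP) (h : II τ) (e : A) (he : IsPrj e) (x : ℝ) (hx : 0 ≤ x)
    (hxe : x ≤ (τ e).re) : ∃ q : A, IsPrj q ∧ e * q = q ∧ (τ q).re = x := by
  have htw := h.fct.tw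
  set y : ℝ := (τ e).re - x with hy
  have hy0 : 0 ≤ y := by rw [hy]; linarith
  have hst : ∀ (r : {r : A // IsPrj r ∧ y ≤ (τ r).re}) (n : ℕ),
      ∃ r' : {r : A // IsPrj r ∧ y ≤ (τ r).re}, (r : A) * (r' : A) = (r' : A) ∧
        (τ (r' : A)).re ≤ y + (1 / 2) ^ n := by
    intro r n
    obtain ⟨r', h1, h2, h3, h4⟩ := step hC h y hy0 r.1 r.2.1 r.2.2 n
    exact ⟨⟨r', h1, h2⟩, h3, h4⟩
  choose F hF1 hF2 using hst
  have hye0 : y ≤ (τ e).re := by rw [hy]; linarith
  obtain ⟨R, hR0', hRs⟩ : ∃ R : ℕ → {r : A // IsPrj r ∧ y ≤ (τ r).re},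
      R 0 = ⟨e, he, hye0⟩ ∧ ∀ n, R (n + 1) = F (R n) n :=
    ⟨fun n => Nat.rec (motive := fun _ => {r : A // IsPrj r ∧ y ≤ (τ r).re}) ⟨e, he, hye0⟩
      (fun n r => F r n) n, rfl, fun _ => rfl⟩
  have hR0 : (R 0 : A) = e := by rw [hR0']
  obtain ⟨e', he', hle, hlim⟩ := p_LIMP A τ htw (fun n => (R n : A)) (fun n => (R n).2.1) (by
    intro n
    rw [hRs]
    exact hF1 (R n) n)
  have hn1 : n2 τ (1 : A) = 1 := by
    unfold n2
    rw [star_one, mul_one, htw.one]
    simp
  have htlim : Tendsto (fun n => (τ (R n : A)).re) atTop (𝓝 (τ e').re) := by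
    rw [tendsto_iff_norm_sub_tendsto_zero]
    refine squeeze_zero (fun n => norm_nonneg _) (fun n => ?_) hlim
    have h1 : (τ (R n : A)).re - (τ e').re = (τ ((R n : A) - e')).re := by
      rw [map_sub, Complex.sub_re]
    rw [h1, Real.norm_eq_abs]
    refine (Complex.abs_re_le_norm _).trans ?_
    have h2 := htw.cauchy' (1 : A) ((R n : A) - e')
    rwa [one_mul, hn1, one_mul] at h2
  have htlim2 : Tendsto (fun n => (τ (R (n + 1) : A)).re) atTop (𝓝 y) := by
    have h1 : Tendsto (fun n : ℕ => y + (1 / 2 : ℝ) ^ n) atTop (𝓝 (y + 0)) :=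
      tendsto_const_nhds.add (tendsto_pow_atTop_nhds_zero_of_lt_one (by norm_num) (by norm_num))
    rw [add_zero] at h1
    refine tendsto_of_tendsto_of_tendsto_of_le_of_le tendsto_const_nhds h1 ?_ ?_
    · intro n
      exact (R (n + 1)).2.2
    · intro n
      change (τ (R (n + 1) : A)).re ≤ y + (1 / 2) ^ n
      rw [hRs]
      exact hF2 (R n) n
  have hye : (τ e').re = y :=
    tendsto_nhds_unique ((tendsto_add_atTop_iff_nat 1).2 htlim) htlim2
  have hee' : e * e' = e' := by
    have h1 := hle 0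
    rwa [hR0] at h1
  refine ⟨e - e', sub_prj he he' hee', ?_, ?_⟩
  · rw [mul_sub, he.2, hee']
  · rw [map_sub, Complex.sub_re, hye, hy]
    ring

/-- the induction -/
theorem split (hC : S_CMP) (h : II τ) : ∀ (n : ℕ) (e : A), IsPrj e → ∀ x : Fin n → ℝ,
    (∀ s, 0 ≤ x s) → ∑ s, x s = (τ e).re →
    ∃ q : Fin n → A, IsPart q e ∧ ∀ s, τ (q s) = (x s : ℂ) := by
  intro n
  induction n with
  | zero =>
    intro e he x _ hsum
    have htw := h.fct.tw
    have he0 : e = 0 := by
      apply tr_zero htw he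
      rw [← hsum]
      simp
    refine ⟨fun i => i.elim0, ⟨fun i => i.elim0, fun i => i.elim0, ?_⟩, fun i => i.elim0⟩
    rw [he0]
    simp
  | succ n ih =>
    intro e he x hx hsum
    have htw := h.fct.tw
    rw [Fin.sum_univ_succ] at hsum
    have hrest : 0 ≤ ∑ i : Fin n, x i.succ := Finset.sum_nonneg fun i _ => hx _
    obtain ⟨q0, hq0, heq, ht0⟩ := subprj hC h e he (x 0) (hx 0) (by linarith)
    have hf : IsPrj (e - q0) := sub_prj he hq0 heq
    have hqe : q0 * e = q0 := swap he hq0 heq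
    obtain ⟨q, hq, hqt⟩ := ih (e - q0) hf (fun i => x i.succ) (fun i => hx _) (by
      rw [map_sub, Complex.sub_re, ht0]
      linarith)
    have hfq : ∀ i, (e - q0) * q i = q i := by
      intro i
      rw [← hq.sum, Finset.sum_mul, Finset.sum_eq_single i]
      · exact (hq.prj i).2
      · intro j _ hj
        exact hq.ort j i hj
      · intro hi
        exact absurd (Finset.mem_univ i) hi
    have h0q : ∀ i, q0 * q i = 0 := by
      intro i
      rw [← hfq i, ← mul_assoc, mul_sub, hqe, hq0.2, sub_self, zero_mul]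
    have hq0' : ∀ i, q i * q0 = 0 := by
      intro i
      have h1 := congrArg star (h0q i)
      rwa [star_mul, hq0.1, (hq.prj i).1, star_zero] at h1
    refine ⟨Fin.cons q0 q, ⟨?_, ?_, ?_⟩, ?_⟩
    · intro i
      refine Fin.cases ?_ (fun i => ?_) i
      · exact hq0
      · exact hq.prj i
    · intro i j
      refine Fin.cases ?_ (fun i => ?_) i
      · refine Fin.cases ?_ (fun j => ?_) j
        · intro hij
          exact absurd rfl hij
        · intro _
          exact h0q j
      · refine Fin.cases ?_ (fun j => ?_) j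
        · intro _
          exact hq0' i
        · intro hij
          exact hq.ort i j fun h' => hij (by rw [h'])
    · rw [Fin.sum_univ_succ]
      simp only [Fin.cons_zero, Fin.cons_succ]
      rw [hq.sum]
      abel
    · intro s
      refine Fin.cases ?_ (fun i => ?_) s
      · simp only [Fin.cons_zero]
        rw [tr_eq htw hq0, ht0]
      · simp only [Fin.cons_succ]
        exact hqt i

end SPLITx

theorem p_SPLIT (hC : S_CMP) : S_SPLIT := by
  intro A _ τ h e he n x _ hx hsum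
  exact SPLITx.split hC h n e he x hx hsum

end Pool.Agent.H518R5.SC
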